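import Pool.Agent.Helper28.SC.UF

/-!
# The jets are polynomials in `a` with explicit leading coefficient
-/

set_option autoImplicit false

open Complex MeasureTheory Metric Set Filter Topology ComplexConjugate
open scoped ContDiff
open Pool.Agent.E8helper4.FV (xx xd)

namespace Pool.Agent.Helper28.SC

/-- smooth functions on the circle -/
lemma circ_cd {g : ℂ → ℂ} {r : ℝ} (hr : 1 < r) (hg : DifferentiableOn ℂ g (ball 0 r)) :
    ContDiff ℝ ∞ fun t : ℝ => g (exp ((t : ℂ) * I)) := by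
  have h1 : ContDiffOn ℝ ∞ g (ball 0 r) := (hg.contDiffOn isOpen_ball).restrict_scalars ℝ
  have h2 : ContDiff ℝ ∞ fun t : ℝ => exp ((t : ℂ) * I) :=
    (Complex.ofRealCLM.contDiff.mul contDiff_const).cexp
  rw [← contDiffOn_univ]
  exact h1.comp h2.contDiffOn fun t _ => mem_r hr t

lemma xx_cd {φ : ℂ → ℂ} {r : ℝ} (hr : 1 < r) (hφ : DifferentiableOn ℂ φ (ball 0 r)) :
    ContDiff ℝ ∞ (xx φ) := circ_cd hr hφ

lemma xd_cd {φ : ℂ → ℂ} {r : ℝ} (hr : 1 < r) (hφ : DifferentiableOn ℂ φ (ball 0 r)) :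
    ContDiff ℝ ∞ (xd φ) := by
  have h2 : ContDiff ℝ ∞ fun t : ℝ => exp ((t : ℂ) * I) :=
    (Complex.ofRealCLM.contDiff.mul contDiff_const).cexp
  exact (contDiff_const.mul h2).mul (circ_cd hr (hφ.deriv isOpen_ball))

lemma conj_cd {f : ℝ → ℂ} (h : ContDiff ℝ ∞ f) : ContDiff ℝ ∞ fun t => conj (f t) :=
  Complex.conjCLE.contDiff.comp h

/-- the coefficients of `a^i` in `∂_z^k u` on the boundary -/
noncomputable def cf (φ : ℂ → ℂ) : ℕ → ℕ → ℝ → ℂ
  | 0, 0 => fun _ => 1
  | 0, _ + 1 => fun _ => 0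
  | 1, _ => fun _ => 0
  | k + 2, 0 => fun t => deriv (cf φ (k + 1) 0) t / xd φ t
  | k + 2, i + 1 => fun t => (deriv (cf φ (k + 1) (i + 1)) t + conj (xd φ t) * cf φ k i t) / xd φ t

lemma cf_cd {φ : ℂ → ℂ} {r : ℝ} (hr : 1 < r) (hφ : DifferentiableOn ℂ φ (ball 0 r))
    (hne : ∀ t, xd φ t ≠ 0) (k : ℕ) : ∀ i, ContDiff ℝ ∞ (cf φ k i) := by
  have hxd := xd_cd hr hφ
  have hXd := conj_cd hxd
  have hder : ∀ f : ℝ → ℂ, ContDiff ℝ ∞ f → ContDiff ℝ ∞ (deriv f) := fun f hf =>
    (contDiff_infty_iff_deriv.1 hf).2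
  have hdiv : ∀ f : ℝ → ℂ, ContDiff ℝ ∞ f → ContDiff ℝ ∞ fun t => f t / xd φ t := fun f hf => by
    have h := hf.mul (hxd.inv hne)
    have e : (fun t => f t / xd φ t) = f * (xd φ)⁻¹ := by
      funext t; simp [div_eq_mul_inv]
    rw [e]; exact h
  induction k using Nat.strong_induction_on with
  | _ k ih =>
    match k, ih with
    | 0, _ => intro i; rcases i with _ | i <;> exact contDiff_const
    | 1, _ => intro i; exact contDiff_const
    | k + 2, ih =>
      intro i
      rcases i with _ | i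
      · exact hdiv _ (hder _ (ih (k + 1) (by omega) 0))
      · exact hdiv _ ((hder _ (ih (k + 1) (by omega) (i + 1))).add
          (hXd.mul (ih k (by omega) i)))

lemma cf_zero (φ : ℂ → ℂ) (k : ℕ) : cf φ (k + 1) 0 = fun _ => 0 := by
  induction k with
  | zero => rfl
  | succ k ih =>
    funext t
    show deriv (cf φ (k + 1) 0) t / xd φ t = 0
    rw [ih]; simp

lemma cf_hi (φ : ℂ → ℂ) (k : ℕ) : ∀ i, k < 2 * i → cf φ k i = fun _ => 0 := by
  induction k using Nat.strong_induction_on with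
  | _ k ih =>
    match k, ih with
    | 0, _ =>
      intro i hi
      rcases i with _ | i
      · omega
      · rfl
    | 1, _ => intro i hi; rfl
    | k + 2, ih =>
      intro i hi
      rcases i with _ | i
      · omega
      · funext t
        show (deriv (cf φ (k + 1) (i + 1)) t + conj (xd φ t) * cf φ k i t) / xd φ t = 0
        rw [ih (k + 1) (by omega) (i + 1) (by omega), ih k (by omega) i (by omega)]
        simp

lemma cf_lead (φ : ℂ → ℂ) (i : ℕ) (t : ℝ) :
    cf φ (2 * i) i t = (conj (xd φ t) / xd φ t) ^ i := by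
  induction i with
  | zero => simp [cf]
  | succ i ih =>
    show (deriv (cf φ (2 * i + 1) (i + 1)) t + conj (xd φ t) * cf φ (2 * i) i t) / xd φ t = _
    rw [cf_hi φ (2 * i + 1) (i + 1) (by omega), ih, pow_succ]
    simp; ring

/-- the sequence `U`, negative indices -/
lemma U_neg {φ : ℂ → ℂ} {r a : ℝ} (hr : 1 < r) (hφ : DifferentiableOn ℂ φ (ball 0 r))
    (hne : ∀ t, xd φ t ≠ 0) {U : ℤ → ℝ → ℂ} (hU : Chn a φ U) (h0 : ∀ t, U 0 t = 1)
    (h1 : ∀ t, U 1 t = 0) (k : ℕ) : ∀ t, U (-(k : ℤ)) t =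
      ∑ i ∈ Finset.range (k + 1), (a : ℂ) ^ i * cf φ k i t := by
  have hm1 : ∀ t, U (-1) t = 0 := by
    intro t
    have e := hU 0 t
    have e2 : HasDerivAt (U 0) 0 t := by
      have : U 0 = fun _ => 1 := funext h0
      rw [this]; exact hasDerivAt_const t 1
    have e3 := e.unique e2
    rw [zero_add, h1 t, mul_zero, sub_zero, zero_sub] at e3
    exact (mul_eq_zero.1 e3).resolve_left (hne t)
  induction k using Nat.strong_induction_on with
  | _ k ih =>
    match k, ih with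
    | 0, _ => intro t; simp [cf, h0]
    | 1, _ =>
      intro t
      have : (-((1 : ℕ) : ℤ)) = -1 := by norm_num
      rw [this, hm1 t]
      simp [cf]
    | k + 2, ih =>
      intro t
      have ihk := ih k (by omega)
      have ihk1 := ih (k + 1) (by omega)
      have e := hU (-((k + 1 : ℕ) : ℤ)) t
      have hd : HasDerivAt (U (-((k + 1 : ℕ) : ℤ)))
          (∑ i ∈ Finset.range (k + 2), (a : ℂ) ^ i * deriv (cf φ (k + 1) i) t) t := by
        have e1 : U (-((k + 1 : ℕ) : ℤ)) = fun t =>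
            ∑ i ∈ Finset.range (k + 2), (a : ℂ) ^ i * cf φ (k + 1) i t := funext ihk1
        rw [e1]
        refine HasDerivAt.fun_sum fun i _ => ?_
        have h3 : DifferentiableAt ℝ (cf φ (k + 1) i) t :=
          (cf_cd hr hφ hne (k + 1) i).differentiable (by simp) t
        exact h3.hasDerivAt.const_mul _
      have e2 := e.unique hd
      have i1 : (-((k + 1 : ℕ) : ℤ)) - 1 = -((k + 2 : ℕ) : ℤ) := by push_cast; ring
      have i2 : (-((k + 1 : ℕ) : ℤ)) + 1 = -(k : ℤ) := by push_cast; ring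
      rw [i1, i2, ihk t] at e2
      have e3 : U (-((k + 2 : ℕ) : ℤ)) t = ((∑ i ∈ Finset.range (k + 2),
          (a : ℂ) ^ i * deriv (cf φ (k + 1) i) t) + (a : ℂ) * conj (xd φ t) *
          ∑ i ∈ Finset.range (k + 1), (a : ℂ) ^ i * cf φ k i t) / xd φ t := by
        rw [eq_div_iff (hne t)]
        linear_combination e2
      rw [e3]
      -- the right-hand side
      have r1 : ∑ i ∈ Finset.range (k + 2 + 1), (a : ℂ) ^ i * cf φ (k + 2) i t =
          (∑ i ∈ Finset.range (k + 2 + 1), (a : ℂ) ^ i * deriv (cf φ (k + 1) i) t +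
          ∑ i ∈ Finset.range (k + 2), (a : ℂ) ^ (i + 1) * (conj (xd φ t) * cf φ k i t)) /
          xd φ t := by
        rw [Finset.sum_range_succ' (fun i => (a : ℂ) ^ i * cf φ (k + 2) i t),
          Finset.sum_range_succ' (fun i => (a : ℂ) ^ i * deriv (cf φ (k + 1) i) t),
          add_div, add_div, Finset.sum_div, Finset.sum_div]
        have r2 : ∀ i, (a : ℂ) ^ (i + 1) * cf φ (k + 2) (i + 1) t =
            (a : ℂ) ^ (i + 1) * deriv (cf φ (k + 1) (i + 1)) t / xd φ t +
            (a : ℂ) ^ (i + 1) * (conj (xd φ t) * cf φ k i t) / xd φ t := by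
          intro i
          show (a : ℂ) ^ (i + 1) * ((deriv (cf φ (k + 1) (i + 1)) t +
            conj (xd φ t) * cf φ k i t) / xd φ t) = _
          ring
        have r3 : (a : ℂ) ^ 0 * cf φ (k + 2) 0 t =
            (a : ℂ) ^ 0 * deriv (cf φ (k + 1) 0) t / xd φ t := by
          show (a : ℂ) ^ 0 * (deriv (cf φ (k + 1) 0) t / xd φ t) = _
          ring
        rw [Finset.sum_congr rfl (fun i _ => r2 i), Finset.sum_add_distrib, r3]
        ring
      have s1 : ∑ i ∈ Finset.range (k + 2 + 1), (a : ℂ) ^ i * deriv (cf φ (k + 1) i) t =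
          ∑ i ∈ Finset.range (k + 2), (a : ℂ) ^ i * deriv (cf φ (k + 1) i) t := by
        rw [Finset.sum_range_succ, cf_hi φ (k + 1) (k + 2) (by omega)]
        simp
      have s2 : ∑ i ∈ Finset.range (k + 2), (a : ℂ) ^ (i + 1) * (conj (xd φ t) * cf φ k i t) =
          (a : ℂ) * conj (xd φ t) * ∑ i ∈ Finset.range (k + 1), (a : ℂ) ^ i * cf φ k i t := by
        rw [Finset.sum_range_succ, cf_hi φ k (k + 1) (by omega), Finset.mul_sum]
        simp only [mul_zero, add_zero]
        refine Finset.sum_congr rfl fun i _ => ?_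
        ring
      rw [r1, s1, s2]

/-- uniqueness for the chain rule -/
lemma chn_uniq {φ : ℂ → ℂ} {a : ℝ} (ha : a ≠ 0)
    (hne : ∀ t, xd φ t ≠ 0) {F : ℤ → ℝ → ℂ} (hF : Chn a φ F) (h0 : ∀ t, F 0 t = 0)
    (h1 : ∀ t, F 1 t = 0) (k : ℕ) : (∀ t, F k t = 0) ∧ (∀ t, F (k + 1) t = 0) := by
  induction k with
  | zero => exact ⟨h0, by simpa using h1⟩
  | succ k ih =>
    refine ⟨by simpa using ih.2, fun t => ?_⟩
    have e := hF (k + 1) t
    have e2 : HasDerivAt (F (k + 1)) 0 t := by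
      have : F (k + 1) = fun _ => 0 := funext ih.2
      rw [this]; exact hasDerivAt_const t 0
    have e3 := e.unique e2
    rw [add_sub_cancel_right, ih.1 t, mul_zero, zero_sub, neg_eq_zero] at e3
    have ha' : (a : ℂ) ≠ 0 := by exact_mod_cast ha
    have hX : conj (xd φ t) ≠ 0 := by
      rw [Ne, map_eq_zero]; exact hne t
    have := (mul_eq_zero.1 e3).resolve_left (mul_ne_zero ha' hX)
    have e4 : ((k + 1 : ℕ) : ℤ) + 1 = (k : ℤ) + 1 + 1 := by push_cast; ring
    rw [e4]; exact this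

/-- the sequence `U`, positive indices -/
lemma U_pos {φ : ℂ → ℂ} {a : ℝ} (ha : 0 < a)
    (hne : ∀ t, xd φ t ≠ 0) {U : ℤ → ℝ → ℂ} (hU : Chn a φ U) (h0 : ∀ t, U 0 t = 1)
    (h1 : ∀ t, U 1 t = 0) (k : ℕ) (t : ℝ) : U k t = (-(a : ℂ)) ^ (-(k : ℤ)) *
      conj (U (-(k : ℤ)) t) := by
  have hm1 : ∀ t, U (-1) t = 0 := by
    intro t
    have e := hU 0 t
    have e2 : HasDerivAt (U 0) 0 t := by
      have : U 0 = fun _ => 1 := funext h0
      rw [this]; exact hasDerivAt_const t 1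
    have e3 := e.unique e2
    rw [zero_add, h1 t, mul_zero, sub_zero, zero_sub] at e3
    exact (mul_eq_zero.1 e3).resolve_left (hne t)
  have hC := cj_chn ha hU
  have hF : Chn a φ (fun n t => U n t - Cj a U n t) := by
    intro n t
    have := (hU n t).sub (hC n t)
    refine this.congr_deriv ?_
    ring
  have := (chn_uniq ha.ne' hne hF (fun t => by simp [Cj, h0]) (fun t => by
    simp [Cj, h1, hm1]) k).1 t
  exact sub_eq_zero.1 this

end Pool.Agent.Helper28.SC
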