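import Mathlib

/-!
# Wirtinger's inequality with missing frequencies
-/

set_option autoImplicit false

open Complex MeasureTheory Metric Set Filter Topology ComplexConjugate

namespace Pool.Agent.Helper28.SC

/-- Fourier coefficients on `[0, 2π]` -/
noncomputable def fc (f : ℝ → ℂ) (n : ℤ) : ℂ :=
  (1 / (2 * Real.pi) : ℝ) • ∫ t in (0 : ℝ)..(2 * Real.pi), exp (-((n : ℂ) * t * I)) * f t

lemma two_pi : (0 : ℝ) < 2 * Real.pi := by positivity

lemma fc_eq (f : ℝ → ℂ) (n : ℤ) : fourierCoeffOn two_pi f n = fc f n := by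
  rw [fourierCoeffOn_eq_integral, fc, sub_zero]
  congr 1
  refine intervalIntegral.integral_congr fun t _ => ?_
  show fourier (-n) (t : AddCircle (2 * Real.pi)) • f t = _
  rw [fourier_coe_apply, smul_eq_mul]
  congr 2
  have : (Real.pi : ℂ) ≠ 0 := by exact_mod_cast Real.pi_ne_zero
  push_cast
  field_simp

lemma pars {f : ℝ → ℂ} (hf : Continuous f) :
    HasSum (fun n : ℤ => ‖fc f n‖ ^ 2) ((2 * Real.pi)⁻¹ * ∫ t in (0 : ℝ)..(2 * Real.pi), ‖f t‖ ^ 2) := by
  have h : MemLp f 2 (volume.restrict (Ioc 0 (2 * Real.pi))) := by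
    have h0 : ∃ C, ∀ t ∈ Icc (0 : ℝ) (2 * Real.pi), ‖f t‖ ≤ C :=
      isCompact_Icc.exists_bound_of_continuousOn hf.continuousOn
    obtain ⟨C, hC⟩ := h0
    refine MemLp.of_bound hf.aestronglyMeasurable C ?_
    rw [ae_restrict_iff' measurableSet_Ioc]
    exact Eventually.of_forall fun t ht => hC t (Ioc_subset_Icc_self ht)
  have h2 := hasSum_sq_fourierCoeffOn two_pi h
  simp only [fc_eq, sub_zero, smul_eq_mul] at h2
  exact h2

lemma fc_der {f f' : ℝ → ℂ} (hf : ∀ t, HasDerivAt f (f' t) t) (hf' : Continuous f')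
    (hp : f (2 * Real.pi) = f 0) (n : ℤ) : fc f' n = (n : ℂ) * I * fc f n := by
  have hd : ∀ t : ℝ, HasDerivAt (fun t : ℝ => exp (-((n : ℂ) * t * I)) * f t)
      (exp (-((n : ℂ) * t * I)) * f' t - (n : ℂ) * I * (exp (-((n : ℂ) * t * I)) * f t)) t := by
    intro t
    have h1 : HasDerivAt (fun t : ℝ => -((n : ℂ) * (t : ℂ) * I)) (-((n : ℂ) * 1 * I)) t :=
      (((Complex.ofRealCLM.hasDerivAt (x := t)).const_mul (n : ℂ)).mul_const I).neg
    have h2 := h1.cexp.mul (hf t)
    refine h2.congr_deriv ?_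
    ring
  have hfc : Continuous f := continuous_iff_continuousAt.2 fun t => (hf t).continuousAt
  have ce : Continuous fun t : ℝ => exp (-((n : ℂ) * t * I)) := by fun_prop
  have i1 : IntervalIntegrable (fun t : ℝ => exp (-((n : ℂ) * t * I)) * f' t) volume 0
      (2 * Real.pi) := (ce.mul hf').intervalIntegrable _ _
  have i2 : IntervalIntegrable (fun t : ℝ => (n : ℂ) * I * (exp (-((n : ℂ) * t * I)) * f t)) volume 0
      (2 * Real.pi) := (continuous_const.mul (ce.mul hfc)).intervalIntegrable _ _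
  have h := intervalIntegral.integral_eq_sub_of_hasDerivAt (fun t _ => hd t) (i1.sub i2)
  rw [intervalIntegral.integral_sub i1 i2, intervalIntegral.integral_const_mul] at h
  have e1 : exp (-((n : ℂ) * ((2 * Real.pi : ℝ) : ℂ) * I)) = 1 := by
    have : -((n : ℂ) * ((2 * Real.pi : ℝ) : ℂ) * I) = ((-n : ℤ) : ℂ) * (2 * Real.pi * I) := by
      push_cast; ring
    rw [this, Complex.exp_int_mul_two_pi_mul_I]
  have e0 : exp (-((n : ℂ) * ((0 : ℝ) : ℂ) * I)) = 1 := by simp
  rw [e1, e0, hp, sub_self, sub_eq_zero] at h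
  unfold fc
  rw [h]
  simp only [Complex.real_smul]
  ring

lemma int_e (m : ℤ) : ∫ t in (0 : ℝ)..(2 * Real.pi), exp ((m : ℂ) * t * I) =
    if m = 0 then (2 * Real.pi : ℂ) else 0 := by
  split_ifs with h
  · subst h
    simp
  · have h1 : (m : ℂ) * I ≠ 0 := mul_ne_zero (by exact_mod_cast h) I_ne_zero
    have h2 := integral_exp_mul_complex (a := 0) (b := 2 * Real.pi) h1
    have e : (fun t : ℝ => exp ((m : ℂ) * t * I)) = fun t : ℝ => exp ((m : ℂ) * I * t) := by
      funext t; congr 1; ring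
    rw [e, h2]
    have e1 : exp ((m : ℂ) * I * ((2 * Real.pi : ℝ) : ℂ)) = 1 := by
      have : (m : ℂ) * I * ((2 * Real.pi : ℝ) : ℂ) = (m : ℂ) * (2 * Real.pi * I) := by
        push_cast; ring
      rw [this, Complex.exp_int_mul_two_pi_mul_I]
    rw [e1]
    simp

lemma fc_e (k n : ℤ) : fc (fun t : ℝ => exp ((k : ℂ) * t * I)) n = if k = n then 1 else 0 := by
  unfold fc
  have e : (fun t : ℝ => exp (-((n : ℂ) * t * I)) * exp ((k : ℂ) * t * I)) =
      fun t : ℝ => exp (((k - n : ℤ) : ℂ) * t * I) := by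
    funext t
    rw [← exp_add]
    congr 1
    push_cast; ring
  have hp : (Real.pi : ℂ) ≠ 0 := by exact_mod_cast Real.pi_ne_zero
  simp only [e]
  rw [int_e]
  split_ifs with h1 h2 h2
  · rw [Complex.real_smul]; push_cast; field_simp
  · omega
  · omega
  · simp

/-- the partial Fourier sum -/
noncomputable def fsum (f : ℝ → ℂ) (S : Finset ℤ) (t : ℝ) : ℂ :=
  ∑ k ∈ S, fc f k * exp ((k : ℂ) * t * I)

lemma fsum_cont (f : ℝ → ℂ) (S : Finset ℤ) : Continuous (fsum f S) := by
  unfold fsum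
  fun_prop

lemma fc_sub {f g : ℝ → ℂ} (hf : Continuous f) (hg : Continuous g) (n : ℤ) :
    fc (fun t => f t - g t) n = fc f n - fc g n := by
  have ce : Continuous fun t : ℝ => exp (-((n : ℂ) * t * I)) := by fun_prop
  have i1 : IntervalIntegrable (fun t : ℝ => exp (-((n : ℂ) * t * I)) * f t) volume 0
      (2 * Real.pi) := (ce.mul hf).intervalIntegrable _ _
  have i2 : IntervalIntegrable (fun t : ℝ => exp (-((n : ℂ) * t * I)) * g t) volume 0
      (2 * Real.pi) := (ce.mul hg).intervalIntegrable _ _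
  unfold fc
  simp only [mul_sub]
  rw [intervalIntegral.integral_sub i1 i2, smul_sub]

lemma fc_fsum (f : ℝ → ℂ) (S : Finset ℤ) (n : ℤ) :
    fc (fsum f S) n = if n ∈ S then fc f n else 0 := by
  have h : fc (fsum f S) n = ∑ k ∈ S, fc f k * fc (fun t : ℝ => exp ((k : ℂ) * t * I)) n := by
    conv_lhs => unfold fc fsum
    have e : ∀ t : ℝ, exp (-((n : ℂ) * t * I)) * ∑ k ∈ S, fc f k * exp ((k : ℂ) * t * I) =
        ∑ k ∈ S, fc f k * (exp (-((n : ℂ) * t * I)) * exp ((k : ℂ) * t * I)) := fun t => by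
      rw [Finset.mul_sum]
      exact Finset.sum_congr rfl fun k _ => by ring
    simp only [e]
    rw [intervalIntegral.integral_finsetSum]
    · rw [Finset.smul_sum]
      refine Finset.sum_congr rfl fun k _ => ?_
      rw [intervalIntegral.integral_const_mul]
      conv_rhs =>
        arg 2
        unfold fc
      simp only [Complex.real_smul]
      ring
    · intro k _
      refine Continuous.intervalIntegrable ?_ _ _
      fun_prop
  rw [h]
  simp only [fc_e, mul_ite, mul_one, mul_zero]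
  rw [Finset.sum_ite_eq' S n]

/-- Wirtinger's inequality with missing frequencies -/
lemma wir {f f' : ℝ → ℂ} (hf : ∀ t, HasDerivAt f (f' t) t) (hf' : Continuous f')
    (hp : f (2 * Real.pi) = f 0) (S : Finset ℤ) (K : ℕ)
    (hS : ∀ n : ℤ, n ∉ S → n.natAbs < K → fc f n = 0) :
    (K : ℝ) ^ 2 * ∫ t in (0 : ℝ)..(2 * Real.pi), ‖f t - fsum f S t‖ ^ 2 ≤
      ∫ t in (0 : ℝ)..(2 * Real.pi), ‖f' t‖ ^ 2 := by
  have hfc : Continuous f := continuous_iff_continuousAt.2 fun t => (hf t).continuousAt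
  have hs := fsum_cont f S
  have h1 := pars (hfc.sub hs)
  have h2 := pars hf'
  have h3 := h1.mul_left ((K : ℝ) ^ 2)
  have h4 := hasSum_le (fun n => ?_) h3 h2
  · have h5 := two_pi
    have h6 : (K : ℝ) ^ 2 * ((2 * Real.pi)⁻¹ * ∫ t in (0 : ℝ)..(2 * Real.pi),
        ‖(f - fsum f S) t‖ ^ 2) = (2 * Real.pi)⁻¹ * ((K : ℝ) ^ 2 *
        ∫ t in (0 : ℝ)..(2 * Real.pi), ‖f t - fsum f S t‖ ^ 2) := by
      simp only [Pi.sub_apply]; ring
    rw [h6] at h4
    exact le_of_mul_le_mul_left h4 (inv_pos.2 h5)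
  · have h5 : fc (f - fsum f S) n = fc f n - fc (fsum f S) n := fc_sub hfc hs n
    rw [h5, fc_fsum, fc_der hf hf' hp]
    split_ifs with h6
    · rw [sub_self, norm_zero]
      have : 0 ≤ ‖(n : ℂ) * I * fc f n‖ ^ 2 := by positivity
      simpa using this
    · rw [sub_zero, norm_mul, norm_mul, norm_I, mul_one, mul_pow]
      rcases lt_or_ge n.natAbs K with h7 | h7
      · rw [hS n h6 h7]; simp
      · have h8 : (K : ℝ) ≤ ‖(n : ℂ)‖ := by
          rw [Complex.norm_intCast, ← Int.cast_abs, Int.abs_eq_natAbs]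
          exact_mod_cast h7
        have h9 : (K : ℝ) ^ 2 ≤ ‖(n : ℂ)‖ ^ 2 := by gcongr
        exact mul_le_mul_of_nonneg_right h9 (by positivity)

end Pool.Agent.Helper28.SC
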