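import Pool.Agent.Helper28.SC.Mom
import Pool.Agent.Helper28.SC.Wir
import Pool.Graph.R_pool_sql_team_seeded_b677cdb8.E8helper85.FV.C2
import Pool.Graph.R_pool_sql_team_seeded_b677cdb8.E8helper52.FV.C34
import Pool.Graph.R_pool_sql_team_seeded_b677cdb8.E8helper69.FV.C5core

/-!
# Strictly convex domains: the bound for the number of frequencies
-/

set_option autoImplicit false

open Complex MeasureTheory Metric Set Filter Topology ComplexConjugate
open Pool.Agent.E8helper4.FV (Crv)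

namespace Pool.Agent.Helper28.SC

/-- `z · τ` as a function of the tangent angle -/
noncomputable def pz (z : ℝ → ℂ) (s : ℝ) : ℝ := (exp (-((s : ℂ) * I)) * z s).re

/-- `z · n` as a function of the tangent angle -/
noncomputable def hz (z : ℝ → ℂ) (s : ℝ) : ℝ := (I * exp (-((s : ℂ) * I)) * z s).re

section
variable {ρ : ℝ → ℝ} {z : ℝ → ℂ} (hC : Crv ρ z)
include hC

lemma ez_der (s : ℝ) : HasDerivAt (fun s : ℝ => exp (-((s : ℂ) * I)) * z s)
    (-I * (exp (-((s : ℂ) * I)) * z s) + (ρ s : ℂ)) s := by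
  have h1 : HasDerivAt (fun t : ℝ => -((t : ℂ) * I)) (-(1 * I)) s :=
    ((Complex.ofRealCLM.hasDerivAt (x := s)).mul_const I).neg
  have h2 := h1.cexp.mul (hC.der s)
  refine h2.congr_deriv ?_
  have h3 : exp (-((s : ℂ) * I)) * exp ((s : ℂ) * I) = 1 := by
    rw [← exp_add]; simp
  linear_combination (ρ s : ℂ) * h3

lemma pz_der (s : ℝ) : HasDerivAt (pz z) (ρ s - hz z s) s := by
  have h1 := (Complex.reCLM.hasFDerivAt (x := exp (-((s : ℂ) * I)) * z s)).comp_hasDerivAt s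
    (ez_der hC s)
  have h2 : HasDerivAt (pz z) (-I * (exp (-((s : ℂ) * I)) * z s) + (ρ s : ℂ)).re s := h1
  refine h2.congr_deriv ?_
  unfold hz
  rw [add_re, ofReal_re]
  have : (-I * (exp (-((s : ℂ) * I)) * z s)).re = -(I * exp (-((s : ℂ) * I)) * z s).re := by
    rw [← neg_re]; congr 1; ring
  rw [this]; ring

lemma hz_der (s : ℝ) : HasDerivAt (hz z) (pz z s) s := by
  have h1 := (Complex.reCLM.hasFDerivAt (x := I * (exp (-((s : ℂ) * I)) * z s))).comp_hasDerivAt s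
    ((ez_der hC s).const_mul I)
  have h2 : HasDerivAt (fun s : ℝ => (I * (exp (-((s : ℂ) * I)) * z s)).re)
    (I * (-I * (exp (-((s : ℂ) * I)) * z s) + (ρ s : ℂ))).re s := h1
  have e : hz z = fun s : ℝ => (I * (exp (-((s : ℂ) * I)) * z s)).re := by
    funext s; unfold hz; rw [mul_assoc]
  rw [e]
  refine h2.congr_deriv ?_
  unfold pz
  have : I * (-I * (exp (-((s : ℂ) * I)) * z s) + (ρ s : ℂ)) =
      exp (-((s : ℂ) * I)) * z s + I * (ρ s : ℂ) := by
    linear_combination (-(exp (-((s : ℂ) * I)) * z s)) * I_mul_I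
  rw [this, add_re]
  simp

lemma z_cont : Continuous z := continuous_iff_continuousAt.2 fun s => (hC.der s).continuousAt

lemma pz_cont : Continuous (pz z) :=
  continuous_iff_continuousAt.2 fun s => (pz_der hC s).continuousAt

lemma hz_cont : Continuous (hz z) :=
  continuous_iff_continuousAt.2 fun s => (hz_der hC s).continuousAt

lemma em_per (s : ℝ) : exp (-(((s + 2 * Real.pi : ℝ) : ℂ) * I)) = exp (-((s : ℂ) * I)) := by
  have : -(((s + 2 * Real.pi : ℝ) : ℂ) * I) = -((s : ℂ) * I) - 2 * Real.pi * I := by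
    push_cast; ring
  rw [this, exp_sub, exp_two_pi_mul_I, div_one]

lemma pz_per (s : ℝ) : pz z (s + 2 * Real.pi) = pz z s := by
  unfold pz
  rw [em_per hC, hC.perz]

lemma hz_per (s : ℝ) : hz z (s + 2 * Real.pi) = hz z s := by
  unfold hz
  rw [em_per hC, hC.perz]

end

/-- Cauchy–Schwarz -/
lemma cs {f g : ℝ → ℂ} (hf : Continuous f) (hg : Continuous g) :
    ‖∫ t in (0 : ℝ)..(2 * Real.pi), f t * g t‖ ^ 2 ≤
      (∫ t in (0 : ℝ)..(2 * Real.pi), ‖f t‖ ^ 2) * ∫ t in (0 : ℝ)..(2 * Real.pi), ‖g t‖ ^ 2 := by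
  obtain ⟨A, hA⟩ : ∃ A, A = ∫ t in (0 : ℝ)..(2 * Real.pi), ‖f t‖ ^ 2 := ⟨_, rfl⟩
  obtain ⟨B, hB⟩ : ∃ B, B = ∫ t in (0 : ℝ)..(2 * Real.pi), ‖f t‖ * ‖g t‖ := ⟨_, rfl⟩
  obtain ⟨C, hC⟩ : ∃ C, C = ∫ t in (0 : ℝ)..(2 * Real.pi), ‖g t‖ ^ 2 := ⟨_, rfl⟩
  have h1 : ‖∫ t in (0 : ℝ)..(2 * Real.pi), f t * g t‖ ≤ B := by
    rw [hB]
    refine (intervalIntegral.norm_integral_le_integral_norm two_pi.le).trans (le_of_eq ?_)
    exact intervalIntegral.integral_congr fun t _ => norm_mul _ _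
  have h2 : ∀ x : ℝ, 0 ≤ A * (x * x) + (-2 * B) * x + C := by
    intro x
    have e : A * (x * x) + (-2 * B) * x + C =
        ∫ t in (0 : ℝ)..(2 * Real.pi), (x * ‖f t‖ - ‖g t‖) ^ 2 := by
      have e1 : (fun t => (x * ‖f t‖ - ‖g t‖) ^ 2) = fun t =>
          ((x * x) * ‖f t‖ ^ 2 + (-2 * x) * (‖f t‖ * ‖g t‖)) + ‖g t‖ ^ 2 := by
        funext t; ring
      have c1 : Continuous fun t => (x * x) * ‖f t‖ ^ 2 := by fun_prop
      have c2 : Continuous fun t => (-2 * x) * (‖f t‖ * ‖g t‖) := by fun_prop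
      have c3 : Continuous fun t => ‖g t‖ ^ 2 := by fun_prop
      have i12 : IntervalIntegrable (fun t => (x * x) * ‖f t‖ ^ 2 + (-2 * x) * (‖f t‖ * ‖g t‖))
        volume 0 (2 * Real.pi) := (c1.add c2).intervalIntegrable _ _
      rw [e1, intervalIntegral.integral_add i12
        (c3.intervalIntegrable _ _), intervalIntegral.integral_add (c1.intervalIntegrable _ _)
        (c2.intervalIntegrable _ _), intervalIntegral.integral_const_mul,
        intervalIntegral.integral_const_mul, ← hA, ← hB, ← hC]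
      ring
    rw [e]
    exact intervalIntegral.integral_nonneg two_pi.le fun t _ => sq_nonneg _
  have h3 := discrim_le_zero h2
  unfold discrim at h3
  rw [← hA, ← hC]
  have h4 : ‖∫ t in (0 : ℝ)..(2 * Real.pi), f t * g t‖ ^ 2 ≤ B ^ 2 :=
    pow_le_pow_left₀ (norm_nonneg _) h1 2
  nlinarith

lemma fc_real_neg (f : ℝ → ℝ) (n : ℤ) :
    fc (fun s => (f s : ℂ)) (-n) = conj (fc (fun s => (f s : ℂ)) n) := by
  unfold fc
  simp only [Complex.real_smul]
  rw [map_mul, conj_ofReal, Pool.Agent.E8helper13.FV.conj_int]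
  congr 1
  refine intervalIntegral.integral_congr fun t _ => ?_
  show exp (-(((-n : ℤ) : ℂ) * t * I)) * (f t : ℂ) = conj (exp (-((n : ℂ) * t * I)) * (f t : ℂ))
  rw [map_mul, conj_ofReal, ← exp_conj]
  congr 2
  simp

/-- the main inequality, for a curve with Steiner point `0` -/
lemma cvx_core {ρ : ℝ → ℝ} {z : ℝ → ℂ} (hC : Crv ρ z) (N : ℕ)
    (h0 : ∀ l : ℤ, Odd l → l.natAbs ≤ 2 * N + 1 →
      ∫ s in (0 : ℝ)..(2 * Real.pi), exp ((l : ℂ) * s * I) * (ρ s : ℂ) = 0)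
    (h1 : ∀ l : ℤ, Even l → l.natAbs ≤ 2 * N →
      ∫ s in (0 : ℝ)..(2 * Real.pi), exp ((l : ℂ) * s * I) * ((ρ s : ℂ) * (pz z s : ℂ)) = 0)
    (hb : ∫ s in (0 : ℝ)..(2 * Real.pi), exp ((s : ℂ) * I) * (hz z s : ℂ) = 0) :
    (2 * (N + 1 : ℝ) * ∫ s in (0 : ℝ)..(2 * Real.pi), ρ s * pz z s ^ 2) ^ 2 ≤
      (∫ s in (0 : ℝ)..(2 * Real.pi), ρ s ^ 2 * pz z s ^ 2) *
      ∫ s in (0 : ℝ)..(2 * Real.pi), (ρ s - hz z s) ^ 2 := by
  classical
  have cρ := hC.cont
  have cp := pz_cont hC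
  have ch := hz_cont hC
  have cρ' : Continuous fun s => (ρ s : ℂ) := Complex.continuous_ofReal.comp cρ
  have cp' : Continuous fun s => (pz z s : ℂ) := Complex.continuous_ofReal.comp cp
  have ch' : Continuous fun s => (hz z s : ℂ) := Complex.continuous_ofReal.comp ch
  -- the Fourier coefficients
  have d1 : ∀ s, HasDerivAt (fun s => (pz z s : ℂ)) ((ρ s - hz z s : ℝ) : ℂ) s := fun s =>
    (pz_der hC s).ofReal_comp
  have d2 : ∀ s, HasDerivAt (fun s => (hz z s : ℂ)) ((pz z s : ℝ) : ℂ) s := fun s =>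
    (hz_der hC s).ofReal_comp
  have cd : Continuous fun s => ((ρ s - hz z s : ℝ) : ℂ) :=
    Complex.continuous_ofReal.comp (cρ.sub ch)
  have p1 : (pz z (2 * Real.pi) : ℂ) = (pz z 0 : ℂ) := by
    have := pz_per hC 0
    rw [zero_add] at this
    rw [this]
  have p2 : (hz z (2 * Real.pi) : ℂ) = (hz z 0 : ℂ) := by
    have := hz_per hC 0
    rw [zero_add] at this
    rw [this]
  have f1 := fc_der d1 cd p1
  have f2 := fc_der d2 cp' p2
  have f3 : ∀ n : ℤ, fc (fun s => ((ρ s - hz z s : ℝ) : ℂ)) n =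
      fc (fun s => (ρ s : ℂ)) n - fc (fun s => (hz z s : ℂ)) n := by
    intro n
    rw [← fc_sub cρ' ch']
    congr 1
    funext s
    push_cast; ring
  have f4 : ∀ n : ℤ, Odd n → n.natAbs ≤ 2 * N + 1 → fc (fun s => (ρ s : ℂ)) n = 0 := by
    intro n ho hn
    unfold fc
    have := h0 (-n) ho.neg (by omega)
    have e : (fun s : ℝ => exp (-((n : ℂ) * s * I)) * (ρ s : ℂ)) =
        fun s : ℝ => exp (((-n : ℤ) : ℂ) * s * I) * (ρ s : ℂ) := by
      funext s
      congr 2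
      push_cast; ring
    rw [e, this, smul_zero]
  have f5 : fc (fun s => (hz z s : ℂ)) (-1) = 0 := by
    unfold fc
    have e : (fun s : ℝ => exp (-(((-1 : ℤ) : ℂ) * s * I)) * (hz z s : ℂ)) =
        fun s : ℝ => exp ((s : ℂ) * I) * (hz z s : ℂ) := by
      funext s
      congr 2
      push_cast; ring
    rw [e, hb, smul_zero]
  have f6 : fc (fun s => (hz z s : ℂ)) 1 = 0 := by
    have := fc_real_neg (hz z) (-1)
    rw [neg_neg] at this
    rw [this, f5, map_zero]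
  have f7 : ∀ n : ℤ, Odd n → n.natAbs < 2 * N + 2 → fc (fun s => (pz z s : ℂ)) n = 0 := by
    intro n ho hn
    by_cases h2 : n.natAbs = 1
    · have h3 : n = 1 ∨ n = -1 := by omega
      rcases h3 with rfl | rfl
      · rw [f2, f6, mul_zero]
      · rw [f2, f5, mul_zero]
    · have e1 := f1 n
      have e2 := f2 n
      rw [f3, f4 n ho (by omega)] at e1
      have e3 : (1 - (n : ℂ) ^ 2) * fc (fun s => (pz z s : ℂ)) n = 0 := by
        linear_combination e2 - (n : ℂ) * I * e1 -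
          (n : ℂ) ^ 2 * fc (fun s => (pz z s : ℂ)) n * I_mul_I
      refine (mul_eq_zero.1 e3).resolve_left ?_
      intro h4
      have h5 : (n : ℂ) ^ 2 = 1 := by linear_combination -h4
      have h6 : n ^ 2 = 1 := by exact_mod_cast h5
      apply h2
      have h7 : (n - 1) * (n + 1) = 0 := by linear_combination h6
      rcases mul_eq_zero.1 h7 with h | h <;> omega
  obtain ⟨S, hS⟩ : ∃ S : Finset ℤ, S = (Finset.Icc (-(2 * N : ℤ)) (2 * N)).filter
    (fun n : ℤ => Even n) := ⟨_, rfl⟩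
  have g1 := wir d1 cd p1 S (2 * N + 2) (by
    intro n hn hn2
    apply f7 n _ hn2
    by_contra h2
    rw [Int.not_odd_iff_even] at h2
    apply hn
    rw [hS, Finset.mem_filter, Finset.mem_Icc]
    obtain ⟨q, hq⟩ := h2
    refine ⟨⟨?_, ?_⟩, ⟨q, hq⟩⟩ <;> omega)
  -- the partial sum is orthogonal to `ρ p`
  have cf := fsum_cont (fun s => (pz z s : ℂ)) S
  have g2 : ∫ s in (0 : ℝ)..(2 * Real.pi), ((ρ s : ℂ) * (pz z s : ℂ)) *
      fsum (fun s => (pz z s : ℂ)) S s = 0 := by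
    have e : (fun s : ℝ => ((ρ s : ℂ) * (pz z s : ℂ)) * fsum (fun s => (pz z s : ℂ)) S s) =
        fun s : ℝ => ∑ k ∈ S, fc (fun s => (pz z s : ℂ)) k *
          (exp ((k : ℂ) * s * I) * ((ρ s : ℂ) * (pz z s : ℂ))) := by
      funext s
      unfold fsum
      rw [Finset.mul_sum]
      exact Finset.sum_congr rfl fun k _ => by ring
    rw [e, intervalIntegral.integral_finsetSum]
    · refine Finset.sum_eq_zero fun k hk => ?_
      rw [hS, Finset.mem_filter, Finset.mem_Icc] at hk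
      rw [intervalIntegral.integral_const_mul, h1 k hk.2 (by omega), mul_zero]
    · intro k _
      refine Continuous.intervalIntegrable ?_ _ _
      fun_prop
  have g3 : ((∫ s in (0 : ℝ)..(2 * Real.pi), ρ s * pz z s ^ 2 : ℝ) : ℂ) =
      ∫ s in (0 : ℝ)..(2 * Real.pi), ((ρ s : ℂ) * (pz z s : ℂ)) *
        ((pz z s : ℂ) - fsum (fun s => (pz z s : ℂ)) S s) := by
    have e : (fun s : ℝ => ((ρ s : ℂ) * (pz z s : ℂ)) *
        ((pz z s : ℂ) - fsum (fun s => (pz z s : ℂ)) S s)) = fun s : ℝ =>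
        ((ρ s * pz z s ^ 2 : ℝ) : ℂ) - ((ρ s : ℂ) * (pz z s : ℂ)) *
          fsum (fun s => (pz z s : ℂ)) S s := by
      funext s; push_cast; ring
    rw [e, intervalIntegral.integral_sub, g2, sub_zero, intervalIntegral.integral_ofReal]
    · exact (Complex.continuous_ofReal.comp (cρ.mul (cp.pow 2))).intervalIntegrable _ _
    · exact ((cρ'.mul cp').mul cf).intervalIntegrable _ _
  have g4 := cs (cρ'.mul cp') (cp'.sub cf)
  have g5 : ‖∫ t in (0 : ℝ)..(2 * Real.pi), ((fun s => (ρ s : ℂ)) * fun s => (pz z s : ℂ)) t *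
      ((fun s => (pz z s : ℂ)) - fsum (fun s => (pz z s : ℂ)) S) t‖ ^ 2 =
      (∫ s in (0 : ℝ)..(2 * Real.pi), ρ s * pz z s ^ 2) ^ 2 := by
    simp only [Pi.mul_apply, Pi.sub_apply]
    rw [← g3, Complex.norm_real, Real.norm_eq_abs, sq_abs]
  have g6 : (∫ t in (0 : ℝ)..(2 * Real.pi), ‖((fun s => (ρ s : ℂ)) *
      fun s => (pz z s : ℂ)) t‖ ^ 2) = ∫ s in (0 : ℝ)..(2 * Real.pi), ρ s ^ 2 * pz z s ^ 2 := by
    refine intervalIntegral.integral_congr fun t _ => ?_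
    simp only [Pi.mul_apply]
    rw [norm_mul, Complex.norm_real, Complex.norm_real, Real.norm_eq_abs, Real.norm_eq_abs,
      mul_pow, sq_abs, sq_abs]
  have g7 : (∫ t in (0 : ℝ)..(2 * Real.pi), ‖((ρ t - hz z t : ℝ) : ℂ)‖ ^ 2) =
      ∫ s in (0 : ℝ)..(2 * Real.pi), (ρ s - hz z s) ^ 2 := by
    refine intervalIntegral.integral_congr fun t _ => ?_
    show ‖((ρ t - hz z t : ℝ) : ℂ)‖ ^ 2 = (ρ t - hz z t) ^ 2
    rw [Complex.norm_real, Real.norm_eq_abs, sq_abs]
  rw [g5, g6] at g4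
  rw [g7] at g1
  simp only [Pi.sub_apply] at g4
  have g8 : 0 ≤ ∫ s in (0 : ℝ)..(2 * Real.pi), ρ s ^ 2 * pz z s ^ 2 :=
    intervalIntegral.integral_nonneg two_pi.le fun t _ => by positivity
  have g9 := mul_le_mul_of_nonneg_left g1 g8
  push_cast at g9
  calc (2 * (N + 1 : ℝ) * ∫ s in (0 : ℝ)..(2 * Real.pi), ρ s * pz z s ^ 2) ^ 2 =
      (2 * (N : ℝ) + 2) ^ 2 * (∫ s in (0 : ℝ)..(2 * Real.pi), ρ s * pz z s ^ 2) ^ 2 := by ring
    _ ≤ (2 * (N : ℝ) + 2) ^ 2 * _ := mul_le_mul_of_nonneg_left g4 (by positivity)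
    _ = _ := by ring
    _ ≤ _ := g9

end Pool.Agent.Helper28.SC
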