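import Pool.Agent.Helper28.SC.Cvx

/-!
# Strictly convex domains: translation, change of variables
-/

set_option autoImplicit false

open Complex MeasureTheory Metric Set Filter Topology ComplexConjugate
open Pool.Agent.E8helper4.FV (Crv om kap Ang zz rr xx xd)
open Pool.Agent.Results.MP_83fd13_an.BranchSingularities (Solvable)

namespace Pool.Agent.Helper28.SC

lemma re_c (w : ℂ) : ((w.re : ℝ) : ℂ) = (w + conj w) / 2 := by
  rw [Complex.add_conj]; push_cast; ring

lemma conj_em (s : ℝ) : conj (exp (-((s : ℂ) * I))) = exp ((s : ℂ) * I) := by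
  rw [← exp_conj]; congr 1; simp

/-- the main inequality, centred at the Steiner point -/
lemma cvx_core' {ρ : ℝ → ℝ} {z : ℝ → ℂ} (hC : Crv ρ z) (N : ℕ)
    (h0 : ∀ l : ℤ, Odd l → l.natAbs ≤ 2 * N + 1 →
      ∫ s in (0 : ℝ)..(2 * Real.pi), exp ((l : ℂ) * s * I) * (ρ s : ℂ) = 0)
    (h1 : ∀ l : ℤ, Even l → l.natAbs ≤ 2 * N →
      ∫ s in (0 : ℝ)..(2 * Real.pi), exp ((l : ℂ) * s * I) * ((ρ s : ℂ) * (pz z s : ℂ)) = 0)
    (b : ℂ) (hb : (Real.pi : ℂ) * b =
      ∫ s in (0 : ℝ)..(2 * Real.pi), (hz z s : ℂ) * (-I * exp ((s : ℂ) * I))) :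
    (2 * (N + 1 : ℝ) * ∫ s in (0 : ℝ)..(2 * Real.pi), ρ s * pz (fun s => z s - b) s ^ 2) ^ 2 ≤
      (∫ s in (0 : ℝ)..(2 * Real.pi), ρ s ^ 2 * pz (fun s => z s - b) s ^ 2) *
      ∫ s in (0 : ℝ)..(2 * Real.pi), (ρ s - hz (fun s => z s - b) s) ^ 2 := by
  have hC' : Crv ρ (fun s => z s - b) :=
    ⟨hC.cont, hC.pos, hC.per, fun s => by simp only [hC.perz], fun s => (hC.der s).sub_const b⟩
  have cρ := hC.cont
  have cp := pz_cont hC
  have ch := hz_cont hC
  have cρ' : Continuous fun s => (ρ s : ℂ) := Complex.continuous_ofReal.comp cρ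
  have cp' : Continuous fun s => (pz z s : ℂ) := Complex.continuous_ofReal.comp cp
  have ch' : Continuous fun s => (hz z s : ℂ) := Complex.continuous_ofReal.comp ch
  have ep : ∀ s : ℝ, (pz (fun s => z s - b) s : ℂ) = (pz z s : ℂ) -
      (exp (-((s : ℂ) * I)) * b + exp ((s : ℂ) * I) * conj b) / 2 := fun s => by
    unfold pz
    rw [re_c, re_c, map_mul, map_mul, conj_em, map_sub]
    ring
  have eh : ∀ s : ℝ, (hz (fun s => z s - b) s : ℂ) = (hz z s : ℂ) -
      (I * exp (-((s : ℂ) * I)) * b - I * exp ((s : ℂ) * I) * conj b) / 2 := fun s => by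
    unfold hz
    rw [re_c, re_c, map_mul, map_mul, map_mul, map_mul, conj_em, map_sub, conj_I]
    ring
  refine cvx_core hC' N h0 ?_ ?_
  · intro l hl hl2
    have e : (fun s : ℝ => exp ((l : ℂ) * s * I) * ((ρ s : ℂ) * (pz (fun s => z s - b) s : ℂ))) =
        fun s : ℝ => exp ((l : ℂ) * s * I) * ((ρ s : ℂ) * (pz z s : ℂ)) -
          ((b / 2) * (exp (((l - 1 : ℤ) : ℂ) * s * I) * (ρ s : ℂ)) +
          (conj b / 2) * (exp (((l + 1 : ℤ) : ℂ) * s * I) * (ρ s : ℂ))) := by
      funext s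
      have e1 : exp (((l - 1 : ℤ) : ℂ) * s * I) = exp ((l : ℂ) * s * I) * exp (-((s : ℂ) * I)) := by
        rw [← exp_add]; congr 1; push_cast; ring
      have e2 : exp (((l + 1 : ℤ) : ℂ) * s * I) = exp ((l : ℂ) * s * I) * exp ((s : ℂ) * I) := by
        rw [← exp_add]; congr 1; push_cast; ring
      rw [ep, e1, e2]
      ring
    have i1 : IntervalIntegrable (fun s : ℝ => exp ((l : ℂ) * s * I) *
        ((ρ s : ℂ) * (pz z s : ℂ))) volume 0 (2 * Real.pi) :=
      Continuous.intervalIntegrable (by fun_prop) _ _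
    have i2 : IntervalIntegrable (fun s : ℝ => (b / 2) * (exp (((l - 1 : ℤ) : ℂ) * s * I) *
        (ρ s : ℂ))) volume 0 (2 * Real.pi) :=
      Continuous.intervalIntegrable (by fun_prop) _ _
    have i3 : IntervalIntegrable (fun s : ℝ => (conj b / 2) * (exp (((l + 1 : ℤ) : ℂ) * s * I) *
        (ρ s : ℂ))) volume 0 (2 * Real.pi) :=
      Continuous.intervalIntegrable (by fun_prop) _ _
    rw [e, intervalIntegral.integral_sub i1 (i2.add i3), intervalIntegral.integral_add i2 i3,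
      intervalIntegral.integral_const_mul, intervalIntegral.integral_const_mul, h1 l hl hl2,
      h0 (l - 1) (by obtain ⟨q, hq⟩ := hl; exact ⟨q - 1, by omega⟩) (by omega),
      h0 (l + 1) (by obtain ⟨q, hq⟩ := hl; exact ⟨q, by omega⟩) (by omega)]
    ring
  · have e : (fun s : ℝ => exp ((s : ℂ) * I) * (hz (fun s => z s - b) s : ℂ)) =
        fun s : ℝ => I * ((hz z s : ℂ) * (-I * exp ((s : ℂ) * I))) - (I * b / 2 -
          (I * conj b / 2) * exp (((2 : ℤ) : ℂ) * s * I)) := by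
      funext s
      have e1 : exp (((2 : ℤ) : ℂ) * s * I) = exp ((s : ℂ) * I) * exp ((s : ℂ) * I) := by
        rw [← exp_add]; congr 1; push_cast; ring
      have e2 : exp ((s : ℂ) * I) * exp (-((s : ℂ) * I)) = 1 := by
        rw [← exp_add]; simp
      rw [eh, e1]
      linear_combination (-(I * b / 2)) * e2 + (hz z s : ℂ) * exp ((s : ℂ) * I) * I_mul_I
    have i1 : IntervalIntegrable (fun s : ℝ => I * ((hz z s : ℂ) * (-I * exp ((s : ℂ) * I))))
        volume 0 (2 * Real.pi) := Continuous.intervalIntegrable (by fun_prop) _ _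
    have i2 : IntervalIntegrable (fun s : ℝ => I * b / 2) volume 0 (2 * Real.pi) :=
      Continuous.intervalIntegrable (by fun_prop) _ _
    have i3 : IntervalIntegrable (fun s : ℝ => (I * conj b / 2) * exp (((2 : ℤ) : ℂ) * s * I))
        volume 0 (2 * Real.pi) := Continuous.intervalIntegrable (by fun_prop) _ _
    rw [e, intervalIntegral.integral_sub i1 (i2.sub i3), intervalIntegral.integral_sub i2 i3,
      intervalIntegral.integral_const_mul, intervalIntegral.integral_const_mul, int_e, ← hb,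
      intervalIntegral.integral_const]
    simp only [sub_zero, Complex.real_smul]
    push_cast
    norm_num
    ring

section
variable {φ : ℂ → ℂ} {r : ℝ} (hr : 1 < r) (hφ : DifferentiableOn ℂ φ (ball 0 r))
  (hinj : InjOn φ (ball 0 r)) {th T : ℝ → ℝ} (hA : Ang φ th T)

include hr hφ hinj hA

/-- change of variables -/
lemma chg {E : Type*} [NormedAddCommGroup E] [NormedSpace ℝ E] {F : ℝ → E}
    (hF : Continuous F) (hFp : ∀ s, F (s + 2 * Real.pi) = F s) :
    ∫ t in (0 : ℝ)..(2 * Real.pi), om φ t • F (th t) = ∫ s in (0 : ℝ)..(2 * Real.pi), F s := by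
  have h4 := intervalIntegral.integral_deriv_smul_comp (a := 0) (b := 2 * Real.pi) (f := th)
      (f' := om φ) (g := F) (fun t _ => hA.dth t)
      (Pool.Agent.E8helper52.FV.c_om hr hφ hinj).continuousOn hF
  have h3 : ∫ t in (0 : ℝ)..(2 * Real.pi), om φ t • F (th t) =
      ∫ s in (th 0)..(th (2 * Real.pi)), F s := by simpa [Function.comp] using h4
  have h5 : th (2 * Real.pi) = th 0 + 2 * Real.pi := by
    have := hA.pth 0
    rwa [zero_add] at this
  rw [h5] at h3
  have hP : Function.Periodic F (2 * Real.pi) := hFp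
  have h6 : ∫ s in (th 0)..(th 0 + 2 * Real.pi), F s = ∫ s in (0 : ℝ)..(2 * Real.pi), F s := by
    have := hP.intervalIntegral_add_eq (th 0) 0
    rwa [zero_add] at this
  rw [h3, h6]

lemma xd_n (t : ℝ) : ‖xd φ t‖ = ‖deriv φ (exp ((t : ℂ) * I))‖ := by
  unfold Pool.Agent.E8helper4.FV.xd
  rw [norm_mul, norm_mul, norm_I, Complex.norm_exp_ofReal_mul_I, one_mul, one_mul]

lemma ta_th (t : ℝ) : ta φ t = exp ((th t : ℂ) * I) := by
  have h1 := hA.tan t
  have h2 := nv hr hφ hinj t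
  unfold ta
  rw [div_eq_iff h2, xd_n hr hφ hinj hA]
  have : xd φ t = I * exp ((t : ℂ) * I) * deriv φ (exp ((t : ℂ) * I)) := rfl
  rw [this, h1, mul_comm]

lemma pz_th (b : ℂ) (t : ℝ) : pz (fun s => zz φ T s - b) (th t) =
    (conj (xx φ t - b) * ta φ t).re := by
  unfold pz
  have h1 : zz φ T (th t) = xx φ t := by
    unfold Pool.Agent.E8helper4.FV.zz Pool.Agent.E8helper4.FV.xx
    rw [hA.Tth]
  simp only [h1]
  rw [ta_th hr hφ hinj hA, ← Complex.conj_re, map_mul, conj_em, mul_comm]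

lemma hz_th (b : ℂ) (t : ℝ) : hz (fun s => zz φ T s - b) (th t) =
    (conj (xx φ t - b) * (-I * ta φ t)).re := by
  unfold hz
  have h1 : zz φ T (th t) = xx φ t := by
    unfold Pool.Agent.E8helper4.FV.zz Pool.Agent.E8helper4.FV.xx
    rw [hA.Tth]
  simp only [h1]
  rw [ta_th hr hφ hinj hA, ← Complex.conj_re, map_mul, map_mul, conj_em, conj_I, mul_comm]

lemma rr_th (t : ℝ) : rr φ T (th t) = ‖xd φ t‖ / om φ t := by
  unfold Pool.Agent.E8helper4.FV.rr
  rw [hA.Tth, xd_n hr hφ hinj hA]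

variable (hom : ∀ t, 0 < om φ t)
include hom

/-- the moments in the tangent angle -/
lemma TM_ang (l : ℤ) (k : ℕ) : TM φ l k = ∫ s in (0 : ℝ)..(2 * Real.pi),
    exp ((l : ℂ) * s * I) * ((rr φ T s : ℂ) * (pz (zz φ T) s : ℂ) ^ k) := by
  have hC := Pool.Agent.E8helper52.FV.crv hr hφ hinj hom hA
  have cρ' : Continuous fun s => (rr φ T s : ℂ) := Complex.continuous_ofReal.comp hC.cont
  have cp' : Continuous fun s => (pz (zz φ T) s : ℂ) :=
    Complex.continuous_ofReal.comp (pz_cont hC)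
  rw [← chg hr hφ hinj hA (F := fun s : ℝ => exp ((l : ℂ) * s * I) *
    ((rr φ T s : ℂ) * (pz (zz φ T) s : ℂ) ^ k)) (by fun_prop) ?_]
  · unfold TM
    refine intervalIntegral.integral_congr fun t _ => ?_
    show ta φ t ^ l * (pa φ t : ℂ) ^ k * (‖xd φ t‖ : ℂ) = om φ t •
      (exp ((l : ℂ) * (th t : ℂ) * I) * ((rr φ T (th t) : ℂ) * (pz (zz φ T) (th t) : ℂ) ^ k))
    have h1 := pz_th hr hφ hinj hA 0 t
    simp only [sub_zero] at h1
    rw [h1, rr_th hr hφ hinj hA, ta_th hr hφ hinj hA]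
    have h2 : pa φ t = (conj (xx φ t) * exp ((th t : ℂ) * I)).re := by
      unfold pa
      rw [ta_th hr hφ hinj hA]
    have h3 : exp ((th t : ℂ) * I) ^ l = exp ((l : ℂ) * (th t : ℂ) * I) := by
      rw [← Complex.exp_int_mul]; congr 1; ring
    have h4 : (om φ t : ℂ) ≠ 0 := by exact_mod_cast (hom t).ne'
    rw [h2, h3, Complex.real_smul]
    push_cast
    field_simp
  · intro s
    show exp ((l : ℂ) * ((s + 2 * Real.pi : ℝ) : ℂ) * I) * _ = _
    have h1 : exp ((l : ℂ) * ((s + 2 * Real.pi : ℝ) : ℂ) * I) = exp ((l : ℂ) * s * I) := by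
      have : (l : ℂ) * ((s + 2 * Real.pi : ℝ) : ℂ) * I = (l : ℂ) * s * I +
        (l : ℂ) * (2 * Real.pi * I) := by push_cast; ring
      rw [this, exp_add, Complex.exp_int_mul_two_pi_mul_I, mul_one]
    rw [h1, hC.per, pz_per hC]

end

end Pool.Agent.Helper28.SC
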