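import Pool.Agent.Helper28.SC.Coef

/-!
# Rotations of the jets: double sequences of coefficients
-/

set_option autoImplicit false

open Complex MeasureTheory Metric Set Filter Topology ComplexConjugate
open scoped ContDiff
open Pool.Agent.E8helper4.FV (xx xd)

namespace Pool.Agent.Helper28.SC

/-- coefficients with integer index -/
noncomputable def cz (φ : ℂ → ℂ) (k : ℕ) (i : ℤ) (t : ℝ) : ℂ :=
  if 0 ≤ i then cf φ k i.toNat t else 0

/-- the coefficient of `a^i` in `U n` -/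
noncomputable def C0 (φ : ℂ → ℂ) (n i : ℤ) (t : ℝ) : ℂ :=
  if n ≤ 0 then cz φ (-n).toNat i t else (-1) ^ n * conj (cz φ n.toNat (i + n) t)

/-- the rotation of double sequences -/
noncomputable def CR (φ : ℂ → ℂ) (C : ℤ → ℤ → ℝ → ℂ) (n i : ℤ) (t : ℝ) : ℂ :=
  xx φ t * C (n - 1) i t + conj (xx φ t) * C (n + 1) (i - 1) t - (n : ℂ) * C n i t

/-- the coefficients of the rotated jets -/
noncomputable def Cc (φ : ℂ → ℂ) (j : ℕ) : ℤ → ℤ → ℝ → ℂ := (CR φ)^[j] (C0 φ)

lemma Cc_succ (φ : ℂ → ℂ) (j : ℕ) (n i : ℤ) (t : ℝ) : Cc φ (j + 1) n i t =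
    xx φ t * Cc φ j (n - 1) i t + conj (xx φ t) * Cc φ j (n + 1) (i - 1) t -
      (n : ℂ) * Cc φ j n i t := by
  unfold Cc
  rw [Function.iterate_succ_apply']
  rfl

lemma cz_hs {φ : ℂ → ℂ} {r a : ℝ} (hr : 1 < r) (hφ : DifferentiableOn ℂ φ (ball 0 r))
    (hne : ∀ t, xd φ t ≠ 0) {U : ℤ → ℝ → ℂ} (hU : Chn a φ U) (h0 : ∀ t, U 0 t = 1)
    (h1 : ∀ t, U 1 t = 0) (k : ℕ) (t : ℝ) :
    HasSum (fun i : ℤ => (a : ℂ) ^ i * cz φ k i t) (U (-(k : ℤ)) t) := by
  rw [U_neg hr hφ hne hU h0 h1 k t]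
  have hinj : Function.Injective (Nat.cast : ℕ → ℤ) := Nat.cast_injective
  rw [← hinj.hasSum_iff]
  · have h := hasSum_sum_of_ne_finset_zero (f := fun i : ℕ => (a : ℂ) ^ i * cf φ k i t)
      (s := Finset.range (k + 1)) (fun i hi => by
        rw [Finset.mem_range] at hi
        rw [cf_hi φ k i (by omega), mul_zero]) (L := .unconditional ℕ)
    refine (funext fun i => ?_ : ((fun i : ℤ => (a : ℂ) ^ i * cz φ k i t) ∘ (Nat.cast : ℕ → ℤ)) =
      fun i : ℕ => (a : ℂ) ^ i * cf φ k i t) ▸ h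
    simp [cz]
  · intro i hi
    have : ¬ 0 ≤ i := fun h => hi ⟨i.toNat, by simp [h]⟩
    simp [cz, this]

lemma C0_hs {φ : ℂ → ℂ} {r a : ℝ} (hr : 1 < r) (hφ : DifferentiableOn ℂ φ (ball 0 r))
    (ha : 0 < a) (hne : ∀ t, xd φ t ≠ 0) {U : ℤ → ℝ → ℂ} (hU : Chn a φ U) (h0 : ∀ t, U 0 t = 1)
    (h1 : ∀ t, U 1 t = 0) (n : ℤ) (t : ℝ) :
    HasSum (fun i : ℤ => (a : ℂ) ^ i * C0 φ n i t) (U n t) := by
  rcases le_or_gt n 0 with h | h
  · have e := cz_hs hr hφ hne hU h0 h1 (-n).toNat t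
    have e1 : (-(((-n).toNat : ℕ) : ℤ)) = n := by omega
    rw [e1] at e
    unfold C0
    simp only [h, if_true]
    exact e
  · have e := cz_hs hr hφ hne hU h0 h1 n.toNat t
    have e1 : ((n.toNat : ℕ) : ℤ) = n := by omega
    have e2 := U_pos ha hne hU h0 h1 n.toNat t
    rw [e1] at e e2
    have ha' : (a : ℂ) ≠ 0 := by exact_mod_cast ha.ne'
    have e3 : HasSum (fun i : ℤ => (-(a : ℂ)) ^ (-n) * conj ((a : ℂ) ^ i * cz φ n.toNat i t))
        (U n t) := by
      rw [e2]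
      exact ((Complex.hasSum_conj'.2 e)).mul_left _
    rw [← (Equiv.addRight n).hasSum_iff] at e3
    refine (funext fun i => ?_ : (fun i : ℤ => (a : ℂ) ^ i * C0 φ n i t) = _) ▸ e3
    have h' : ¬ n ≤ 0 := not_le.2 h
    simp only [C0, h', if_false, Function.comp_apply, Equiv.coe_addRight, map_mul, map_zpow₀,
      conj_ofReal]
    have e4 : (-(a : ℂ)) = (-1) * (a : ℂ) := by ring
    rw [e4, mul_zpow, zpow_add₀ ha', zpow_neg (a : ℂ) n]
    have e5 : (-1 : ℂ) ^ (-n) = (-1) ^ n := by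
      rw [zpow_neg, ← inv_zpow]; norm_num
    rw [e5]
    field_simp

lemma Cc_hs {φ : ℂ → ℂ} {r a : ℝ} (hr : 1 < r) (hφ : DifferentiableOn ℂ φ (ball 0 r))
    (ha : 0 < a) (hne : ∀ t, xd φ t ≠ 0) {U : ℤ → ℝ → ℂ} (hU : Chn a φ U) (h0 : ∀ t, U 0 t = 1)
    (h1 : ∀ t, U 1 t = 0) (j : ℕ) : ∀ (n : ℤ) (t : ℝ),
    HasSum (fun i : ℤ => (a : ℂ) ^ i * Cc φ j n i t) ((Rf a φ)^[j] U n t) := by
  have ha' : (a : ℂ) ≠ 0 := by exact_mod_cast ha.ne'
  induction j with
  | zero => exact C0_hs hr hφ ha hne hU h0 h1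
  | succ j ih =>
    intro n t
    have e : (Rf a φ)^[j + 1] U n t = xx φ t * (Rf a φ)^[j] U (n - 1) t +
        (a : ℂ) * conj (xx φ t) * (Rf a φ)^[j] U (n + 1) t - (n : ℂ) * (Rf a φ)^[j] U n t := by
      rw [Function.iterate_succ_apply']; rfl
    rw [e]
    have s1 := (ih (n - 1) t).mul_left (xx φ t)
    have s2 := (ih (n + 1) t).mul_left ((a : ℂ) * conj (xx φ t))
    have s3 := (ih n t).mul_left (n : ℂ)
    rw [← (Equiv.addRight (-1 : ℤ)).hasSum_iff] at s2
    have s4 := (s1.add s2).sub s3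
    refine (funext fun i => ?_ : (fun i : ℤ => (a : ℂ) ^ i * Cc φ (j + 1) n i t) = _) ▸ s4
    rw [Cc_succ]
    simp only [Function.comp_apply, Equiv.coe_addRight]
    rw [← sub_eq_add_neg, zpow_sub₀ ha', zpow_one]
    field_simp

lemma C0_lo (φ : ℂ → ℂ) (n i : ℤ) (t : ℝ) (h : i < 1 - max n 0) (hn : n ≠ 0) :
    C0 φ n i t = 0 := by
  unfold C0 cz
  rcases le_or_gt n 0 with h1 | h1
  · rw [if_pos h1]
    rw [max_eq_right h1] at h
    split_ifs with h2
    · have : i.toNat = 0 := by omega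
      rw [this]
      obtain ⟨k, hk⟩ : ∃ k : ℕ, (-n).toNat = k + 1 := ⟨(-n).toNat - 1, by omega⟩
      rw [hk, cf_zero]
    · rfl
  · rw [if_neg (not_le.2 h1)]
    rw [max_eq_left h1.le] at h
    split_ifs with h2
    · have : (i + n).toNat = 0 := by omega
      rw [this]
      obtain ⟨k, hk⟩ : ∃ k : ℕ, n.toNat = k + 1 := ⟨n.toNat - 1, by omega⟩
      rw [hk, cf_zero]
      simp
    · simp

lemma C0_zero (φ : ℂ → ℂ) (i : ℤ) (t : ℝ) (h : i < 0) : C0 φ 0 i t = 0 := by
  unfold C0 cz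
  rw [if_pos le_rfl, if_neg (not_le.2 h)]

/-- lower bounds for the support -/
lemma Cc_lo (φ : ℂ → ℂ) (j : ℕ) : (∀ (n i : ℤ) (t : ℝ), i < 1 - max n 0 → (j ≠ 0 ∨ n ≠ 0) →
    Cc φ j n i t = 0) ∧ (∀ (i : ℤ) (t : ℝ), i < 0 → Cc φ j 0 i t = 0) := by
  induction j with
  | zero =>
    refine ⟨fun n i t h hn => ?_, fun i t h => C0_zero φ i t h⟩
    exact C0_lo φ n i t h (hn.resolve_left (fun h => h rfl))
  | succ j ih =>
    have key : ∀ (n i : ℤ) (t : ℝ), i < 1 - max n 0 → Cc φ (j + 1) n i t = 0 := by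
      intro n i t h
      rw [Cc_succ]
      have t1 : Cc φ j (n - 1) i t = 0 := by
        by_cases hn : n - 1 = 0
        · rw [hn]
          apply ih.2
          have : n = 1 := by omega
          rw [this] at h
          simpa using h
        · apply ih.1 _ _ _ _ (Or.inr hn)
          have : max (n - 1) 0 ≤ max n 0 := max_le_max (by omega) le_rfl
          omega
      have t2 : Cc φ j (n + 1) (i - 1) t = 0 := by
        by_cases hn : n + 1 = 0
        · rw [hn]
          apply ih.2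
          have : n = -1 := by omega
          rw [this] at h
          have h' : i < 1 := by simpa using h
          omega
        · apply ih.1 _ _ _ _ (Or.inr hn)
          have : max (n + 1) 0 ≤ max n 0 + 1 := by
            apply max_le
            · have := le_max_left n 0; omega
            · have := le_max_right n 0; omega
          omega
      have t3 : (n : ℂ) * Cc φ j n i t = 0 := by
        by_cases hn : n = 0
        · rw [hn]; simp
        · rw [ih.1 _ _ _ h (Or.inr hn), mul_zero]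
      rw [t1, t2, t3]; ring
    refine ⟨fun n i t h _ => key n i t h, fun i t h => key 0 i t ?_⟩
    simp; omega

/-- upper bounds for the support -/
lemma Cc_hi (φ : ℂ → ℂ) (j : ℕ) : ∀ (n i : ℤ) (t : ℝ), (j : ℤ) - n < 2 * i →
    Cc φ j n i t = 0 := by
  induction j with
  | zero =>
    intro n i t h
    show C0 φ n i t = 0
    unfold C0 cz
    simp only [Nat.cast_zero, zero_sub] at h
    split_ifs with h1 h2 h3
    · rw [cf_hi φ _ _ (by omega)]
    · rfl
    · rw [cf_hi φ _ _ (by omega)]; simp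
    · simp
  | succ j ih =>
    intro n i t h
    push_cast at h
    rw [Cc_succ, ih _ _ _ (by omega), ih _ _ _ (by omega), ih _ _ _ (by omega)]
    ring

/-- leading coefficients -/
lemma Cc_lead {φ : ℂ → ℂ} (hne : ∀ t, xd φ t ≠ 0) (j : ℕ) : ∀ (i : ℤ) (t : ℝ),
    Cc φ j (j - 2 * i) i t = (xx φ t * (conj (xd φ t) / xd φ t) + conj (xx φ t)) ^ j *
      (conj (xd φ t) / xd φ t) ^ (i - j) := by
  have hS : ∀ t, conj (xd φ t) / xd φ t ≠ 0 := fun t =>
    div_ne_zero (by rw [Ne, map_eq_zero]; exact hne t) (hne t)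
  induction j with
  | zero =>
    intro i t
    show C0 φ _ i t = _
    simp only [Nat.cast_zero, zero_sub, pow_zero, sub_zero, one_mul]
    unfold C0 cz
    rcases le_or_gt 0 i with h | h
    · rw [if_pos (by omega), if_pos h]
      have e : (-(-(2 * i))).toNat = 2 * i.toNat := by omega
      rw [e, cf_lead]
      conv_rhs => rw [← Int.toNat_of_nonneg h]
      rw [zpow_natCast]
    · rw [if_neg (by omega), if_pos (by omega)]
      have e : (-(2 * i)).toNat = 2 * (-i).toNat := by omega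
      have e2 : (i + -(2 * i)).toNat = (-i).toNat := by omega
      rw [e, e2, cf_lead]
      have e3 : (-1 : ℂ) ^ (-(2 * i)) = 1 := by
        rw [zpow_neg, zpow_mul]
        norm_num
      rw [e3, one_mul, map_pow, map_div₀, conj_conj]
      have e4 : i = -(((-i).toNat : ℕ) : ℤ) := by omega
      conv_rhs => rw [e4]
      rw [zpow_neg, zpow_natCast, ← inv_pow, inv_div]
  | succ j ih =>
    intro i t
    rw [Cc_succ]
    have e1 : ((j + 1 : ℕ) : ℤ) - 2 * i - 1 = j - 2 * i := by push_cast; ring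
    have e2 : ((j + 1 : ℕ) : ℤ) - 2 * i + 1 = j - 2 * (i - 1) := by push_cast; ring
    rw [e1, e2, ih, ih, Cc_hi φ j _ i t (by push_cast; omega), mul_zero, sub_zero]
    have e3 : i - (j : ℤ) = (i - ((j + 1 : ℕ) : ℤ)) + 1 := by push_cast; ring
    have e4 : i - 1 - (j : ℤ) = i - ((j + 1 : ℕ) : ℤ) := by push_cast; ring
    rw [e3, e4, zpow_add_one₀ (hS t), pow_succ]
    ring

lemma cz_cont {φ : ℂ → ℂ} {r : ℝ} (hr : 1 < r) (hφ : DifferentiableOn ℂ φ (ball 0 r))
    (hne : ∀ t, xd φ t ≠ 0) (k : ℕ) (i : ℤ) : Continuous (cz φ k i) := by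
  unfold cz
  split_ifs with h
  · exact (cf_cd hr hφ hne k i.toNat).continuous
  · exact continuous_const

lemma Cc_cont {φ : ℂ → ℂ} {r : ℝ} (hr : 1 < r) (hφ : DifferentiableOn ℂ φ (ball 0 r))
    (hne : ∀ t, xd φ t ≠ 0) (j : ℕ) : ∀ n i : ℤ, Continuous (Cc φ j n i) := by
  have hx := (xx_cd hr hφ).continuous
  have hX : Continuous fun t => conj (xx φ t) := Complex.continuous_conj.comp hx
  induction j with
  | zero =>
    intro n i
    show Continuous (C0 φ n i)
    unfold C0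
    split_ifs with h
    · exact cz_cont hr hφ hne _ _
    · exact continuous_const.mul (Complex.continuous_conj.comp (cz_cont hr hφ hne _ _))
  | succ j ih =>
    intro n i
    have e : Cc φ (j + 1) n i = fun t => xx φ t * Cc φ j (n - 1) i t +
        conj (xx φ t) * Cc φ j (n + 1) (i - 1) t - (n : ℂ) * Cc φ j n i t :=
      funext fun t => Cc_succ φ j n i t
    rw [e]
    exact ((hx.mul (ih _ _)).add (hX.mul (ih _ _))).sub (continuous_const.mul (ih _ _))

end Pool.Agent.Helper28.SC
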