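import Pool.Agent.Helper28.SC.Gour

/-!
# Goursat sums on the circle: chain rule and vanishing integrals
-/

set_option autoImplicit false

open Complex MeasureTheory Metric Set Filter Topology ComplexConjugate
open Pool.Agent.E8helper4.FV (xx xd K4)
open Pool.Agent.Results.MP_83fd13_an.BranchSingularities (Solvable)

namespace Pool.Agent.Helper28.SC

lemma mem_r {r : ℝ} (hr : 1 < r) (t : ℝ) : exp ((t : ℂ) * I) ∈ ball (0 : ℂ) r :=
  Pool.Agent.E8helper4.FV.mem_r hr t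

lemma mem_c (t : ℝ) : exp ((t : ℂ) * I) ∈ closedBall (0 : ℂ) 1 :=
  Pool.Agent.E8helper4.FV.mem_c t

/-- bounds for `x` and `x'` -/
lemma bxx {φ : ℂ → ℂ} {r : ℝ} (hr : 1 < r) (hφ : DifferentiableOn ℂ φ (ball 0 r)) :
    ∃ B : ℝ, 1 ≤ B ∧ ∀ t, ‖xx φ t‖ ≤ B ∧ ‖xd φ t‖ ≤ B := by
  have hs : sphere (0 : ℂ) 1 ⊆ ball (0 : ℂ) r := fun z hz => by
    rw [mem_sphere_zero_iff_norm] at hz
    rw [mem_ball_zero_iff, hz]; exact hr
  obtain ⟨B, hB⟩ := (isCompact_sphere (0 : ℂ) 1).exists_bound_of_continuousOn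
    (hφ.continuousOn.mono hs)
  obtain ⟨D, hD⟩ := (isCompact_sphere (0 : ℂ) 1).exists_bound_of_continuousOn
    ((hφ.deriv isOpen_ball).continuousOn.mono hs)
  have hmem : ∀ s : ℝ, exp ((s : ℂ) * I) ∈ sphere (0 : ℂ) 1 := fun s => by
    rw [mem_sphere_zero_iff_norm, Complex.norm_exp_ofReal_mul_I]
  refine ⟨max 1 (max B D), le_max_left _ _, fun t => ⟨?_, ?_⟩⟩
  · exact (hB _ (hmem t)).trans ((le_max_left _ _).trans (le_max_right _ _))
  · unfold xd
    rw [norm_mul, norm_mul, norm_I, Complex.norm_exp_ofReal_mul_I, one_mul, one_mul]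
    exact (hD _ (hmem t)).trans ((le_max_right _ _).trans (le_max_right _ _))

/-- the terms of the series -/
noncomputable def tm (a : ℝ) (φ : ℂ → ℂ) (N : ℤ → ℂ → ℂ) (n : ℤ) (k : ℕ) (t : ℝ) : ℂ :=
  (-(a : ℂ) * conj (xx φ t)) ^ k / (k.factorial : ℂ) * N (n + k) (exp ((t : ℂ) * I))

lemma tm_bd {φ : ℂ → ℂ} {r : ℝ} (hr : 1 < r) (hφ : DifferentiableOn ℂ φ (ball 0 r)) (a : ℝ)
    {N : ℤ → ℂ → ℂ} (h : Gs φ r N) (n : ℤ) : ∃ C Q : ℝ, 0 ≤ C ∧ 0 ≤ Q ∧ ∀ k t,
      ‖tm a φ N n k t‖ ≤ Q ^ k / (k.factorial : ℝ) * C := by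
  obtain ⟨B, hB1, hB⟩ := bxx hr hφ
  obtain ⟨C, M, hC, hM, h1⟩ := h.bnd' n
  refine ⟨C, |a| * B * M, hC, by positivity, fun k t => ?_⟩
  have b1 := (hB t).1
  have b2 := h1 k _ (mem_c t)
  unfold tm
  rw [norm_mul, norm_div, norm_pow, norm_mul, norm_neg, RCLike.norm_conj, Complex.norm_real,
    Real.norm_eq_abs, Complex.norm_natCast]
  calc (|a| * ‖xx φ t‖) ^ k / (k.factorial : ℝ) * ‖N (n + k) (exp ((t : ℂ) * I))‖
      ≤ (|a| * B) ^ k / (k.factorial : ℝ) * (C * M ^ k) := by gcongr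
    _ = _ := by rw [mul_pow (|a| * B) M]; ring

lemma ev_hs {φ : ℂ → ℂ} {r : ℝ} (hr : 1 < r) (hφ : DifferentiableOn ℂ φ (ball 0 r)) (a : ℝ)
    {N : ℤ → ℂ → ℂ} (h : Gs φ r N) (n : ℤ) (t : ℝ) :
    HasSum (fun k => tm a φ N n k t) (Ev a φ N n t) := by
  obtain ⟨C, Q, hC, hQ, h1⟩ := tm_bd hr hφ a h n
  exact (Summable.of_norm_bounded ((Real.summable_pow_div_factorial Q).mul_right C)
    (fun k => h1 k t)).hasSum

lemma ev_sub {φ : ℂ → ℂ} {r : ℝ} (hr : 1 < r) (hφ : DifferentiableOn ℂ φ (ball 0 r)) (a : ℝ)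
    {N N' : ℤ → ℂ → ℂ} (h : Gs φ r N) (h' : Gs φ r N') (n : ℤ) (t : ℝ) :
    Ev a φ (fun n w => N n w - N' n w) n t = Ev a φ N n t - Ev a φ N' n t := by
  refine (ev_hs hr hφ a (gs_sub h h') n t).unique ?_
  have := (ev_hs hr hφ a h n t).sub (ev_hs hr hφ a h' n t)
  refine (funext fun k => ?_ : (fun k => tm a φ (fun n w => N n w - N' n w) n k t) = _) ▸ this
  unfold tm; ring

/-- rotation of the sums -/
lemma ev_rt {φ : ℂ → ℂ} {r : ℝ} (hr : 1 < r) (hφ : DifferentiableOn ℂ φ (ball 0 r)) (a : ℝ)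
    {N : ℤ → ℂ → ℂ} (h : Gs φ r N) (n : ℤ) (t : ℝ) :
    Ev a φ (Rt φ N) n t = xx φ t * Ev a φ N (n - 1) t +
      (a : ℂ) * conj (xx φ t) * Ev a φ N (n + 1) t - (n : ℂ) * Ev a φ N n t := by
  refine (ev_hs hr hφ a (gs_rt hr hφ h) n t).unique ?_
  have s1 := (ev_hs hr hφ a h (n - 1) t).mul_left (xx φ t)
  have s2 := (ev_hs hr hφ a h (n + 1) t).mul_left ((a : ℂ) * conj (xx φ t))
  have s3 := (ev_hs hr hφ a h n t).mul_left (n : ℂ)
  have s4 : HasSum (fun k : ℕ => -(k : ℂ) * tm a φ N n k t)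
      ((a : ℂ) * conj (xx φ t) * Ev a φ N (n + 1) t) := by
    rw [← hasSum_nat_add_iff' 1]
    simp only [Finset.sum_range_one, Nat.cast_zero, neg_zero, zero_mul, sub_zero]
    refine (funext fun k => ?_ : (fun k : ℕ => -((k + 1 : ℕ) : ℂ) * tm a φ N n (k + 1) t) = _) ▸ s2
    unfold tm
    have e : n + ((k + 1 : ℕ) : ℤ) = n + 1 + k := by push_cast; ring
    rw [e, Nat.factorial_succ]
    have hk : ((k : ℂ) + 1) ≠ 0 := by exact_mod_cast Nat.succ_ne_zero k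
    have hk2 : (k.factorial : ℂ) ≠ 0 := by exact_mod_cast Nat.factorial_ne_zero k
    push_cast
    field_simp
    ring
  have s5 := (s1.add s4).sub s3
  refine (funext fun k => ?_ : (fun k => tm a φ (Rt φ N) n k t) = _) ▸ s5
  unfold tm Rt
  have e : n + (k : ℤ) - 1 = n - 1 + k := by ring
  rw [e]
  push_cast
  unfold xx
  ring

lemma circ_der {φ : ℂ → ℂ} {r : ℝ} (hr : 1 < r)
    {N : ℤ → ℂ → ℂ} (h : Gs φ r N) (m : ℤ) (t : ℝ) :
    HasDerivAt (fun t : ℝ => N m (exp ((t : ℂ) * I))) (xd φ t * N (m - 1) (exp ((t : ℂ) * I))) t := by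
  have h1 := Pool.Agent.E8helper97.FV.circ_deriv (h.dif m) hr t
  refine h1.congr_deriv ?_
  have e := h.der (m - 1) _ (mem_r hr t)
  rw [sub_add_cancel] at e
  rw [e]; unfold xd; ring

lemma tm_der {φ : ℂ → ℂ} {r : ℝ} (hr : 1 < r) (hφ : DifferentiableOn ℂ φ (ball 0 r)) (a : ℝ)
    {N : ℤ → ℂ → ℂ} (h : Gs φ r N) (n : ℤ) (k : ℕ) (t : ℝ) :
    HasDerivAt (tm a φ N n k) (xd φ t * tm a φ N (n - 1) k t +
      (k : ℂ) * (-(a : ℂ) * conj (xx φ t)) ^ (k - 1) * (-(a : ℂ) * conj (xd φ t)) /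
        (k.factorial : ℂ) * N (n + k) (exp ((t : ℂ) * I))) t := by
  have hx : HasDerivAt (fun t => conj (xx φ t)) (conj (xd φ t)) t :=
    (Pool.Agent.E8helper4.FV.xx_der hr hφ t).star
  have h2 : HasDerivAt (fun t => (-(a : ℂ) * conj (xx φ t)) ^ k)
      ((k : ℂ) * (-(a : ℂ) * conj (xx φ t)) ^ (k - 1) * (-(a : ℂ) * conj (xd φ t))) t :=
    (hx.const_mul (-(a : ℂ))).fun_pow k
  have h3 := (h2.div_const (k.factorial : ℂ)).mul (circ_der hr h (n + k) t)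
  refine h3.congr_deriv ?_
  unfold tm
  have e : n + (k : ℤ) - 1 = n - 1 + k := by ring
  rw [e]
  ring

/-- the chain rule -/
lemma ev_der {φ : ℂ → ℂ} {r : ℝ} (hr : 1 < r) (hφ : DifferentiableOn ℂ φ (ball 0 r)) (a : ℝ)
    {N : ℤ → ℂ → ℂ} (h : Gs φ r N) (n : ℤ) (t : ℝ) :
    HasDerivAt (Ev a φ N n) (xd φ t * Ev a φ N (n - 1) t -
      (a : ℂ) * conj (xd φ t) * Ev a φ N (n + 1) t) t := by
  obtain ⟨B, hB1, hB⟩ := bxx hr hφ
  obtain ⟨C, M, hC, hM, h1⟩ := h.bnd' n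
  obtain ⟨C', Q', hC', hQ', h1'⟩ := tm_bd hr hφ a h (n - 1)
  -- the value of the series of the derivatives
  have s1 := (ev_hs hr hφ a h (n - 1) t).mul_left (xd φ t)
  have s2 := (ev_hs hr hφ a h (n + 1) t).mul_left (-((a : ℂ) * conj (xd φ t)))
  have s3 : HasSum (fun k : ℕ => (k : ℂ) * (-(a : ℂ) * conj (xx φ t)) ^ (k - 1) *
      (-(a : ℂ) * conj (xd φ t)) / (k.factorial : ℂ) * N (n + k) (exp ((t : ℂ) * I)))
      (-((a : ℂ) * conj (xd φ t)) * Ev a φ N (n + 1) t) := by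
    rw [← hasSum_nat_add_iff' 1]
    simp only [Finset.sum_range_one, Nat.cast_zero, zero_mul, zero_div, sub_zero]
    refine (funext fun k => ?_ : (fun k : ℕ => ((k + 1 : ℕ) : ℂ) *
      (-(a : ℂ) * conj (xx φ t)) ^ (k + 1 - 1) *
      (-(a : ℂ) * conj (xd φ t)) / ((k + 1).factorial : ℂ) *
      N (n + ((k + 1 : ℕ) : ℤ)) (exp ((t : ℂ) * I))) = _) ▸ s2
    unfold tm
    have e : n + ((k + 1 : ℕ) : ℤ) = n + 1 + k := by push_cast; ring
    rw [e, Nat.factorial_succ, Nat.add_sub_cancel]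
    have hk : ((k : ℂ) + 1) ≠ 0 := by exact_mod_cast Nat.succ_ne_zero k
    have hk2 : (k.factorial : ℂ) ≠ 0 := by exact_mod_cast Nat.factorial_ne_zero k
    push_cast
    field_simp
  have s4 := s1.add s3
  have key := hasDerivAt_tsum (𝕜 := ℝ) (g := fun k t => tm a φ N n k t)
    (g' := fun k t => xd φ t * tm a φ N (n - 1) k t +
      (k : ℂ) * (-(a : ℂ) * conj (xx φ t)) ^ (k - 1) * (-(a : ℂ) * conj (xd φ t)) /
        (k.factorial : ℂ) * N (n + k) (exp ((t : ℂ) * I)))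
    (u := fun k => B * (Q' ^ k / (k.factorial : ℝ) * C') +
      (2 * (|a| + 1) * B * M) ^ k / (k.factorial : ℝ) * ((|a| + 1) * B * C))
    (((Real.summable_pow_div_factorial Q').mul_right C').mul_left B |>.add
      ((Real.summable_pow_div_factorial _).mul_right _))
    (fun k y => tm_der hr hφ a h n k y) ?_ (y₀ := t) (ev_hs hr hφ a h n t).summable t
  · have e : (fun z => ∑' k, tm a φ N n k z) = Ev a φ N n := rfl
    rw [e] at key
    refine key.congr_deriv ?_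
    rw [s4.tsum_eq]; ring
  · intro k y
    have b1 := (hB y).1
    have b2 := (hB y).2
    have b3 := h1 k _ (mem_c y)
    have b4 := h1' k y
    have hk : (k : ℝ) ≤ 2 ^ k := by exact_mod_cast (Nat.lt_two_pow_self (n := k)).le
    refine (norm_add_le _ _).trans (add_le_add ?_ ?_)
    · rw [norm_mul]
      exact mul_le_mul b2 b4 (norm_nonneg _) (by linarith)
    · rw [norm_mul, norm_div, norm_mul, norm_mul, norm_pow, norm_mul, norm_mul, norm_neg,
        RCLike.norm_conj, RCLike.norm_conj, Complex.norm_real,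
        Real.norm_eq_abs, Complex.norm_natCast, Complex.norm_natCast]
      have c1 : (|a| * ‖xx φ y‖) ^ (k - 1) ≤ ((|a| + 1) * B) ^ k := by
        calc (|a| * ‖xx φ y‖) ^ (k - 1) ≤ ((|a| + 1) * B) ^ (k - 1) := by
              gcongr
              linarith
          _ ≤ ((|a| + 1) * B) ^ k := by
              apply pow_le_pow_right₀ _ (Nat.sub_le k 1)
              have := abs_nonneg a
              nlinarith
      calc (k : ℝ) * (|a| * ‖xx φ y‖) ^ (k - 1) * (|a| * ‖xd φ y‖) / (k.factorial : ℝ) *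
            ‖N (n + k) (exp ((y : ℂ) * I))‖
          ≤ 2 ^ k * ((|a| + 1) * B) ^ k * ((|a| + 1) * B) / (k.factorial : ℝ) * (C * M ^ k) := by
            gcongr
            linarith
        _ = _ := by
            rw [show 2 * (|a| + 1) * B * M = 2 * ((|a| + 1) * B) * M by ring,
              mul_pow (2 * ((|a| + 1) * B)) M, mul_pow 2 ((|a| + 1) * B)]
            ring

lemma ev_cont {φ : ℂ → ℂ} {r : ℝ} (hr : 1 < r) (hφ : DifferentiableOn ℂ φ (ball 0 r)) (a : ℝ)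
    {N : ℤ → ℂ → ℂ} (h : Gs φ r N) (n : ℤ) : Continuous (Ev a φ N n) :=
  continuous_iff_continuousAt.2 fun t => (ev_der hr hφ a h n t).continuousAt

lemma exp_per : exp (((2 * Real.pi : ℝ) : ℂ) * I) = exp (((0 : ℝ) : ℂ) * I) := by
  push_cast; rw [Complex.exp_two_pi_mul_I]; simp

lemma ev_per (a : ℝ) (φ : ℂ → ℂ) (N : ℤ → ℂ → ℂ) (n : ℤ) :
    Ev a φ N n (2 * Real.pi) = Ev a φ N n 0 := by
  unfold Ev xx
  rw [exp_per]

/-- the integral against `dX` vanishes -/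
lemma ev_int {φ : ℂ → ℂ} {r lam : ℝ} (hr : 1 < r) (hφ : DifferentiableOn ℂ φ (ball 0 r))
    (hinj : InjOn φ (ball 0 r)) (hlam : 0 < lam) (hS : Solvable (φ '' ball 0 1) lam)
    {N : ℤ → ℂ → ℂ} (h : Gs φ r N) (n : ℤ) :
    ∫ t in (0 : ℝ)..(2 * Real.pi), Ev (lam / 4) φ N n t * conj (xd φ t) = 0 := by
  obtain ⟨C, M, hC, hM, h1⟩ := h.bnd' n
  have g := Pool.Agent.E8helper43.FV.k4 φ r lam hr hφ hinj hlam hS (fun k => N (n + k))
    (fun k => h.dif _)
    (fun k w hw => by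
      have := h.der (n + k) w hw
      have e : n + ((k + 1 : ℕ) : ℤ) = n + k + 1 := by push_cast; ring
      show deriv (N (n + ((k + 1 : ℕ) : ℤ))) w = _
      rw [e]; exact this)
    ⟨C, M, fun k w hw => h1 k w hw⟩
  refine Pool.Agent.E8helper4.FV.exch (lam / 4) hr hφ
    (fun k t => N (n + k) (exp ((t : ℂ) * I))) _
    (fun k => Pool.Agent.E8helper4.FV.cont_circ hr (h.dif _)) C M ?_ ?_ g
  · intro k t
    exact h1 k _ (mem_c t)
  · intro t
    exact ev_hs hr hφ (lam / 4) h n t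

/-- the integral against `dx` vanishes -/
lemma ev_int' {φ : ℂ → ℂ} {r lam : ℝ} (hr : 1 < r) (hφ : DifferentiableOn ℂ φ (ball 0 r))
    (hinj : InjOn φ (ball 0 r)) (hlam : 0 < lam) (hS : Solvable (φ '' ball 0 1) lam)
    {N : ℤ → ℂ → ℂ} (h : Gs φ r N) (n : ℤ) :
    ∫ t in (0 : ℝ)..(2 * Real.pi), Ev (lam / 4) φ N n t * xd φ t = 0 := by
  have hxd := Pool.Agent.E8helper4.FV.xd_cont hr hφ
  have hXd : Continuous fun t => conj (xd φ t) := Complex.continuous_conj.comp hxd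
  have c1 := ev_cont hr hφ (lam / 4) h n
  have c2 := ev_cont hr hφ (lam / 4) h (n + 1 + 1)
  have e := intervalIntegral.integral_eq_sub_of_hasDerivAt (a := 0) (b := 2 * Real.pi)
    (fun t _ => ev_der hr hφ (lam / 4) h (n + 1) t)
    (by
      apply Continuous.intervalIntegrable
      rw [add_sub_cancel_right]
      exact (hxd.mul c1).sub ((continuous_const.mul hXd).mul c2))
  have i1 : Continuous fun t => xd φ t * Ev (lam / 4) φ N n t := hxd.mul c1
  have i2 : Continuous fun t => ((lam / 4 : ℝ) : ℂ) * conj (xd φ t) *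
      Ev (lam / 4) φ N (n + 1 + 1) t := (continuous_const.mul hXd).mul c2
  rw [ev_per, sub_self, add_sub_cancel_right, intervalIntegral.integral_sub
    (i1.intervalIntegrable _ _) (i2.intervalIntegrable _ _)] at e
  have e2 : ∫ t in (0 : ℝ)..(2 * Real.pi), ((lam / 4 : ℝ) : ℂ) * conj (xd φ t) *
      Ev (lam / 4) φ N (n + 1 + 1) t = 0 := by
    have := ev_int hr hφ hinj hlam hS h (n + 1 + 1)
    have e3 : (fun t => ((lam / 4 : ℝ) : ℂ) * conj (xd φ t) *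
      Ev (lam / 4) φ N (n + 1 + 1) t) = fun t => ((lam / 4 : ℝ) : ℂ) *
      (Ev (lam / 4) φ N (n + 1 + 1) t * conj (xd φ t)) := by
      funext t; ring
    rw [e3, intervalIntegral.integral_const_mul, this, mul_zero]
  rw [e2, sub_zero] at e
  rw [← e]
  refine intervalIntegral.integral_congr fun t _ => ?_
  exact mul_comm _ _

end Pool.Agent.Helper28.SC
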