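import Pool.Graph.R_pool_sql_team_seeded_b677cdb8.E8helper4.FV2.Fin2

/-!
# Goursat sums on the boundary of a Schiffer domain

`x(t) = φ(e^{it})`, `X = conj x`. A Goursat family is a sequence `N n`, `n : ℤ`, of functions
holomorphic in `|w| < r` with `N (n+1)' = N n φ'`; then `F n = ∑ (-aX)^k / k! N (n+k)` satisfies the
chain rule `F n' = x' F (n-1) - a X' F (n+1)` of a solution of `∂_z ∂_ζ F = -a F`, with
`∂_z F n = F (n-1)`, `∂_ζ F n = -a F (n+1)`. The rotation `z ∂_z - ζ ∂_ζ - n` maps such families into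
such families.
-/

set_option autoImplicit false

open Complex MeasureTheory Metric Set Filter Topology ComplexConjugate
open Pool.Agent.E8helper4.FV (xx xd)

namespace Pool.Agent.Helper28.SC

/-- Goursat families -/
structure Gs (φ : ℂ → ℂ) (r : ℝ) (N : ℤ → ℂ → ℂ) : Prop where
  dif : ∀ m, DifferentiableOn ℂ (N m) (ball 0 r)
  der : ∀ m, ∀ w ∈ ball (0 : ℂ) r, deriv (N (m + 1)) w = N m w * deriv φ w
  bnd : ∀ m : ℤ, ∃ C M : ℝ, ∀ k : ℕ, ∀ w ∈ closedBall (0 : ℂ) 1, ‖N (m + k) w‖ ≤ C * M ^ k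

/-- the Goursat sum on the circle -/
noncomputable def Ev (a : ℝ) (φ : ℂ → ℂ) (N : ℤ → ℂ → ℂ) (n : ℤ) (t : ℝ) : ℂ :=
  ∑' k : ℕ, (-(a : ℂ) * conj (xx φ t)) ^ k / (k.factorial : ℂ) * N (n + k) (exp ((t : ℂ) * I))

/-- the rotation, on families -/
noncomputable def Rt (φ : ℂ → ℂ) (N : ℤ → ℂ → ℂ) (n : ℤ) (w : ℂ) : ℂ :=
  φ w * N (n - 1) w - (n : ℂ) * N n w

/-- nonnegative constants in the bounds -/
lemma Gs.bnd' {φ : ℂ → ℂ} {r : ℝ} {N : ℤ → ℂ → ℂ} (h : Gs φ r N) (m : ℤ) :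
    ∃ C M : ℝ, 0 ≤ C ∧ 1 ≤ M ∧ ∀ k : ℕ, ∀ w ∈ closedBall (0 : ℂ) 1, ‖N (m + k) w‖ ≤ C * M ^ k := by
  obtain ⟨C, M, hC⟩ := h.bnd m
  refine ⟨|C|, max |M| 1, abs_nonneg _, le_max_right _ _, fun k w hw => ?_⟩
  calc ‖N (m + k) w‖ ≤ C * M ^ k := hC k w hw
    _ ≤ |C * M ^ k| := le_abs_self _
    _ = |C| * |M| ^ k := by rw [abs_mul, abs_pow]
    _ ≤ |C| * (max |M| 1) ^ k := by
        gcongr
        exact le_max_left _ _

lemma gs_sub {φ : ℂ → ℂ} {r : ℝ} {N N' : ℤ → ℂ → ℂ} (h : Gs φ r N) (h' : Gs φ r N') :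
    Gs φ r (fun n w => N n w - N' n w) where
  dif m := (h.dif m).sub (h'.dif m)
  der m w hw := by
    have e1 := h.der m w hw
    have e2 := h'.der m w hw
    have d1 := ((h.dif (m + 1)) w hw).differentiableAt (isOpen_ball.mem_nhds hw)
    have d2 := ((h'.dif (m + 1)) w hw).differentiableAt (isOpen_ball.mem_nhds hw)
    show deriv (fun w => N (m + 1) w - N' (m + 1) w) w = _
    rw [deriv_fun_sub d1 d2, e1, e2]; ring
  bnd m := by
    obtain ⟨C, M, hC, hM, h1⟩ := h.bnd' m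
    obtain ⟨C', M', hC', hM', h2⟩ := h'.bnd' m
    refine ⟨C + C', max M M', fun k w hw => ?_⟩
    have b1 : M ^ k ≤ (max M M') ^ k := pow_le_pow_left₀ (by linarith) (le_max_left _ _) k
    have b2 : M' ^ k ≤ (max M M') ^ k := pow_le_pow_left₀ (by linarith) (le_max_right _ _) k
    calc ‖N (m + k) w - N' (m + k) w‖ ≤ ‖N (m + k) w‖ + ‖N' (m + k) w‖ := norm_sub_le _ _
      _ ≤ C * M ^ k + C' * M' ^ k := add_le_add (h1 k w hw) (h2 k w hw)
      _ ≤ C * (max M M') ^ k + C' * (max M M') ^ k := by gcongr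
      _ = (C + C') * (max M M') ^ k := by ring

lemma gs_rt {φ : ℂ → ℂ} {r : ℝ} (hr : 1 < r) (hφ : DifferentiableOn ℂ φ (ball 0 r))
    {N : ℤ → ℂ → ℂ} (h : Gs φ r N) : Gs φ r (Rt φ N) where
  dif m := (hφ.mul (h.dif _)).sub ((h.dif _).const_mul _)
  der m w hw := by
    have d : ∀ n, DifferentiableAt ℂ (N n) w := fun n =>
      ((h.dif n) w hw).differentiableAt (isOpen_ball.mem_nhds hw)
    have dφ : DifferentiableAt ℂ φ w := (hφ w hw).differentiableAt (isOpen_ball.mem_nhds hw)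
    have e1 := h.der (m - 1) w hw
    have e2 := h.der m w hw
    rw [sub_add_cancel] at e1
    have hd : HasDerivAt (Rt φ N (m + 1)) (deriv φ w * N m w + φ w * deriv (N m) w -
        ((m + 1 : ℤ) : ℂ) * deriv (N (m + 1)) w) w := by
      have h3 : HasDerivAt (fun w => φ w * N m w - ((m + 1 : ℤ) : ℂ) * N (m + 1) w)
          (deriv φ w * N m w + φ w * deriv (N m) w -
          ((m + 1 : ℤ) : ℂ) * deriv (N (m + 1)) w) w :=
        (dφ.hasDerivAt.mul (d m).hasDerivAt).sub ((d (m + 1)).hasDerivAt.const_mul _)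
      have h4 : Rt φ N (m + 1) = fun w => φ w * N m w - ((m + 1 : ℤ) : ℂ) * N (m + 1) w := by
        funext w
        unfold Rt
        rw [add_sub_cancel_right]
      rw [h4]; exact h3
    rw [hd.deriv, e1, e2]
    unfold Rt
    push_cast; ring
  bnd m := by
    have hsub : closedBall (0 : ℂ) 1 ⊆ ball 0 r := closedBall_subset_ball hr
    obtain ⟨B, hB⟩ := (isCompact_closedBall (0 : ℂ) 1).exists_bound_of_continuousOn
      (hφ.continuousOn.mono hsub)
    have hB0 : 0 ≤ B := le_trans (norm_nonneg _) (hB 0 (by simp))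
    obtain ⟨C, M, hC, hM, h1⟩ := h.bnd' (m - 1)
    obtain ⟨C', M', hC', hM', h2⟩ := h.bnd' m
    refine ⟨B * C + (|(m : ℝ)| + 1) * C', 2 * max M M', fun k w hw => ?_⟩
    have b0 : (1 : ℝ) ≤ 2 ^ k := one_le_pow₀ (by norm_num)
    have bM : 0 ≤ max M M' := le_trans (by linarith) (le_max_left M M')
    have b1 : M ^ k ≤ (2 * max M M') ^ k :=
      pow_le_pow_left₀ (by linarith) (by linarith [le_max_left M M']) k
    have b2 : M' ^ k ≤ (max M M') ^ k := pow_le_pow_left₀ (by linarith) (le_max_right _ _) k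
    have e1 : m + (k : ℤ) - 1 = m - 1 + k := by ring
    have hk : (k : ℝ) ≤ 2 ^ k := by exact_mod_cast (Nat.lt_two_pow_self (n := k)).le
    have h3 : ‖((m + (k : ℤ) : ℤ) : ℂ)‖ ≤ (|(m : ℝ)| + 1) * 2 ^ k := by
      push_cast
      calc ‖(m : ℂ) + (k : ℂ)‖ ≤ ‖(m : ℂ)‖ + ‖(k : ℂ)‖ := norm_add_le _ _
        _ = |(m : ℝ)| + k := by rw [Complex.norm_intCast, Complex.norm_natCast]
        _ ≤ |(m : ℝ)| * 2 ^ k + 2 ^ k := by
            have := mul_le_mul_of_nonneg_left b0 (abs_nonneg (m : ℝ))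
            linarith
        _ = _ := by ring
    unfold Rt
    rw [e1]
    calc ‖φ w * N (m - 1 + k) w - ((m + (k : ℤ) : ℤ) : ℂ) * N (m + k) w‖
        ≤ ‖φ w‖ * ‖N (m - 1 + k) w‖ + ‖((m + (k : ℤ) : ℤ) : ℂ)‖ * ‖N (m + k) w‖ := by
          refine (norm_sub_le _ _).trans ?_
          rw [norm_mul, norm_mul]
      _ ≤ B * (C * M ^ k) + ((|(m : ℝ)| + 1) * 2 ^ k) * (C' * M' ^ k) := by
          have a1 := h1 k w hw
          have a2 := h2 k w hw
          have a3 := hB w hw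
          gcongr
      _ ≤ B * (C * (2 * max M M') ^ k) + ((|(m : ℝ)| + 1) * 2 ^ k) * (C' * (max M M') ^ k) := by
          gcongr
      _ = (B * C + (|(m : ℝ)| + 1) * C') * (2 * max M M') ^ k := by
          rw [mul_pow]; ring

end Pool.Agent.Helper28.SC
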