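import Pool.Agent.Helper28.SC.Ev

/-!
# The kernels as Goursat families, and the symmetry of `H_m`
-/

set_option autoImplicit false

open Complex MeasureTheory Metric Set Filter Topology ComplexConjugate
open Pool.Agent.E8helper4.FV (xx xd kp hh HH LL)
open Pool.Agent.E8helper13.FV (KK cont_KK conj_KK swap_KK)
open Pool.Agent.Results.MP_83fd13_an.BranchSingularities (Solvable)

namespace Pool.Agent.Helper28.SC

/-- the family of the kernel with base point `x(p)` -/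
noncomputable def NK (a : ℝ) (φ : ℂ → ℂ) (p : ℝ) (n : ℤ) (w : ℂ) : ℂ :=
  kp n (φ w - xx φ p) ((a : ℂ) * conj (xx φ p))

lemma gs_nk {φ : ℂ → ℂ} {r : ℝ} (hr : 1 < r) (hφ : DifferentiableOn ℂ φ (ball 0 r)) (a p : ℝ) :
    Gs φ r (NK a φ p) := by
  have hK1 := Pool.Agent.E8helper8.FV.t_K1
  have hd : ∀ (m : ℤ), ∀ w ∈ ball (0 : ℂ) r, HasDerivAt (NK a φ p m)
      (NK a φ p (m - 1) w * deriv φ w) w := by
    intro m w hw
    have dφ : HasDerivAt φ (deriv φ w) w :=
      ((hφ w hw).differentiableAt (isOpen_ball.mem_nhds hw)).hasDerivAt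
    have h2 := (hK1 m).2.1 (φ w - xx φ p) ((a : ℂ) * conj (xx φ p))
    have h3 : HasDerivAt (fun w => φ w - xx φ p) (deriv φ w) w := dφ.sub_const _
    exact HasDerivAt.comp (h₂ := fun A => kp m A ((a : ℂ) * conj (xx φ p))) w h2 h3
  refine ⟨fun m w hw => (hd m w hw).differentiableAt.differentiableWithinAt, fun m w hw => ?_, ?_⟩
  · have := (hd (m + 1) w hw).deriv
    rwa [add_sub_cancel_right] at this
  · intro m
    have hsub : closedBall (0 : ℂ) 1 ⊆ ball 0 r := closedBall_subset_ball hr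
    obtain ⟨B, hB⟩ := (isCompact_closedBall (0 : ℂ) 1).exists_bound_of_continuousOn
      (hφ.continuousOn.mono hsub)
    refine ⟨Real.exp ((B + ‖xx φ p‖) + ‖(a : ℂ) * conj (xx φ p)‖), 1, fun k w hw => ?_⟩
    rw [one_pow, mul_one]
    refine ((hK1 (m + k)).2.2.2.1 _ _).trans (Real.exp_le_exp.2 ?_)
    have := hB w hw
    have h2 := norm_sub_le (φ w) (xx φ p)
    linarith

lemma ev_nk {φ : ℂ → ℂ} {r : ℝ} (hr : 1 < r) (hφ : DifferentiableOn ℂ φ (ball 0 r)) (a p : ℝ)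
    (n : ℤ) (t : ℝ) : Ev a φ (NK a φ p) n t = KK a φ n t p := by
  have hK1 := Pool.Agent.E8helper8.FV.t_K1
  have h1 := (hK1 n).2.2.2.2.1 (xx φ t - xx φ p) ((a : ℂ) * conj (xx φ p))
    (-(a : ℂ) * conj (xx φ t))
  have e : (a : ℂ) * conj (xx φ p) + -(a : ℂ) * conj (xx φ t) =
      -(a : ℂ) * (conj (xx φ t) - conj (xx φ p)) := by ring
  rw [e] at h1
  exact (ev_hs hr hφ a (gs_nk hr hφ a p) n t).unique h1

lemma kk_der {φ : ℂ → ℂ} {r : ℝ} (hr : 1 < r) (hφ : DifferentiableOn ℂ φ (ball 0 r)) (a : ℝ)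
    (n : ℤ) (t s : ℝ) : HasDerivAt (fun s => KK a φ n t s)
      ((a : ℂ) * conj (xd φ s) * KK a φ (n + 1) t s - xd φ s * KK a φ (n - 1) t s) s := by
  have hK1 := Pool.Agent.E8helper8.FV.t_K1
  have h1 := (ev_der hr hφ a (gs_nk hr hφ a t) n s).const_mul ((-1 : ℂ) ^ n)
  have e : (fun s => (-1 : ℂ) ^ n * Ev a φ (NK a φ t) n s) = fun s => KK a φ n t s := by
    funext s
    rw [ev_nk hr hφ, swap_KK hK1 a n s t]
  rw [e] at h1
  refine h1.congr_deriv ?_
  rw [ev_nk hr hφ, ev_nk hr hφ, swap_KK hK1 a (n - 1) t s, swap_KK hK1 a (n + 1) t s]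
  have hsq : (-1 : ℂ) ^ n * (-1 : ℂ) ^ n = 1 := by
    rw [← mul_zpow]; norm_num
  rw [zpow_sub₀ (by norm_num : (-1 : ℂ) ≠ 0), zpow_add₀ (by norm_num : (-1 : ℂ) ≠ 0), zpow_one]
  linear_combination ((a : ℂ) * conj (xd φ s) * KK a φ (n + 1) t s -
    xd φ s * KK a φ (n - 1) t s) * hsq

/-- integration by parts -/
lemma kk_parts {φ : ℂ → ℂ} {r : ℝ} (hr : 1 < r) (hφ : DifferentiableOn ℂ φ (ball 0 r)) (a : ℝ)
    (n : ℤ) (t : ℝ) : (a : ℂ) * ∫ s in (0 : ℝ)..t, KK a φ (n + 1) t s * conj (xd φ s) =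
      kp n 0 0 - KK a φ n t 0 + HH a φ (n - 1) t := by
  have hK1 := Pool.Agent.E8helper8.FV.t_K1
  have hxd := Pool.Agent.E8helper4.FV.xd_cont hr hφ
  have hXd : Continuous fun t => conj (xd φ t) := Complex.continuous_conj.comp hxd
  have hc : ∀ m, Continuous fun s => KK a φ m t s := fun m => by
    have h : Continuous (fun s : ℝ => Function.uncurry (KK a φ m) (t, s)) :=
      (cont_KK hK1 a hr hφ m).comp (by fun_prop)
    simpa only [Function.uncurry_apply_pair] using h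
  have i1 : Continuous fun s => (a : ℂ) * conj (xd φ s) * KK a φ (n + 1) t s :=
    (continuous_const.mul hXd).mul (hc _)
  have i2 : Continuous fun s => xd φ s * KK a φ (n - 1) t s := hxd.mul (hc _)
  have i3 : IntervalIntegrable (fun s => (a : ℂ) * conj (xd φ s) * KK a φ (n + 1) t s -
      xd φ s * KK a φ (n - 1) t s) volume 0 t := (i1.sub i2).intervalIntegrable _ _
  have e : (∫ s in (0 : ℝ)..t, ((a : ℂ) * conj (xd φ s) * KK a φ (n + 1) t s -
      xd φ s * KK a φ (n - 1) t s)) = KK a φ n t t - KK a φ n t 0 :=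
    intervalIntegral.integral_eq_sub_of_hasDerivAt (f := fun s => KK a φ n t s)
      (fun s _ => kk_der hr hφ a n t s) i3
  rw [intervalIntegral.integral_sub (i1.intervalIntegrable _ _) (i2.intervalIntegrable _ _)] at e
  have e1 : KK a φ n t t = kp n 0 0 := by
    unfold KK; simp
  have e2 : HH a φ (n - 1) t = ∫ s in (0 : ℝ)..t, xd φ s * KK a φ (n - 1) t s := by
    unfold HH
    refine intervalIntegral.integral_congr fun s _ => ?_
    exact mul_comm _ _
  have e3 : (a : ℂ) * ∫ s in (0 : ℝ)..t, KK a φ (n + 1) t s * conj (xd φ s) =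
      ∫ s in (0 : ℝ)..t, (a : ℂ) * conj (xd φ s) * KK a φ (n + 1) t s := by
    rw [← intervalIntegral.integral_const_mul]
    refine intervalIntegral.integral_congr fun s _ => ?_
    show (a : ℂ) * (KK a φ (n + 1) t s * conj (xd φ s)) = _
    ring
  rw [e3, e2, ← e1]
  linear_combination e

lemma conj_HH {φ : ℂ → ℂ} {a : ℝ} (ha : 0 < a) (m : ℤ) (t : ℝ) :
    conj (HH a φ (-m) t) = (-(a : ℂ)) ^ m * ∫ s in (0 : ℝ)..t, KK a φ m t s * conj (xd φ s) := by
  have hK1 := Pool.Agent.E8helper8.FV.t_K1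
  have hK1b := Pool.Agent.E8helper99.FV.t_K1b
  have e : HH a φ (-m) t = ∫ s in (0 : ℝ)..t, KK a φ (-m) t s * xd φ s := rfl
  rw [e, Pool.Agent.E8helper13.FV.conj_int, ← intervalIntegral.integral_const_mul]
  refine intervalIntegral.integral_congr fun s _ => ?_
  show conj (KK a φ (-m) t s * xd φ s) = _
  rw [map_mul, conj_KK hK1 hK1b ha]
  ring

/-- the relation for `H_{-1}` -/
lemma star0 {φ : ℂ → ℂ} {r : ℝ} (hr : 1 < r) (hφ : DifferentiableOn ℂ φ (ball 0 r)) {a : ℝ}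
    (ha : 0 < a) (t : ℝ) : conj (HH a φ (-1) t) = -(1 - KK a φ 0 t 0 + HH a φ (-1) t) := by
  have hK1b := Pool.Agent.E8helper99.FV.t_K1b
  have h1 := kk_parts hr hφ a 0 t
  have h2 := conj_HH (φ := φ) ha 1 t
  rw [(hK1b.2.1 0).1, zero_add, zero_sub] at h1
  rw [h2, zpow_one]
  linear_combination -h1

/-- the relation for `H_{-2}` and `H_0` -/
lemma star1 {φ : ℂ → ℂ} {r : ℝ} (hr : 1 < r) (hφ : DifferentiableOn ℂ φ (ball 0 r)) {a : ℝ}
    (ha : 0 < a) (t : ℝ) : conj (HH a φ (-2) t) = (a : ℂ) * (HH a φ 0 t - KK a φ 1 t 0) := by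
  have hK1b := Pool.Agent.E8helper99.FV.t_K1b
  have h1 := kk_parts hr hφ a 1 t
  have h2 := conj_HH (φ := φ) ha 2 t
  rw [hK1b.2.2.1 1 (by norm_num), sub_self] at h1
  have e : (1 : ℤ) + 1 = 2 := by norm_num
  rw [e] at h1
  have e2 : (-(a : ℂ)) ^ (2 : ℤ) = (a : ℂ) * (a : ℂ) := by
    rw [zpow_ofNat]; ring
  rw [h2, e2]
  linear_combination (a : ℂ) * h1

/-- the basic family of a Schiffer domain, with the index of `u` equal to `0` -/
lemma fam_ex {φ : ℂ → ℂ} {r lam : ℝ} (hr : 1 < r) (hφ : DifferentiableOn ℂ φ (ball 0 r))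
    (hinj : InjOn φ (ball 0 r)) (hlam : 0 < lam) (hS : Solvable (φ '' ball 0 1) lam) :
    ∃ N : ℤ → ℂ → ℂ, Gs φ r N ∧
      (∀ t, Ev (lam / 4) φ N 0 t = 1 + HH (lam / 4) φ (-1) t) ∧
      (∀ t, Ev (lam / 4) φ N 1 t = HH (lam / 4) φ 0 t) ∧
      (∀ t, Ev (lam / 4) φ N (-1) t = HH (lam / 4) φ (-2) t) := by
  have hK1 := Pool.Agent.E8helper8.FV.t_K1
  obtain ⟨N0, n1, n2, n3, n4, n5, n6, C, n7⟩ := Pool.Agent.E8helper97.FV.k3
    Pool.Agent.E8helper8.FV.t_K1 Pool.Agent.E8helper99.FV.t_K1b Pool.Agent.E8helper80.FV.k2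
    φ r lam hr hφ hinj hlam hS
  have hsub : closedBall (0 : ℂ) 1 ⊆ ball 0 r := closedBall_subset_ball hr
  have hb : ∀ m, ∃ B, ∀ w ∈ closedBall (0 : ℂ) 1, ‖N0 m w‖ ≤ B := fun m =>
    (isCompact_closedBall (0 : ℂ) 1).exists_bound_of_continuousOn
      ((n1 m).continuousOn.mono hsub)
  have hneg : ∀ j : ℕ, ∃ C : ℝ, ∀ m : ℤ, -(j : ℤ) ≤ m → ∀ w ∈ closedBall (0 : ℂ) 1,
      ‖N0 m w‖ ≤ C := by
    intro j
    induction j with
    | zero => exact ⟨C, fun m hm w hw => n7 m (by simpa using hm) w hw⟩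
    | succ j ih =>
      obtain ⟨C', hC'⟩ := ih
      obtain ⟨B, hB⟩ := hb (-((j + 1 : ℕ) : ℤ))
      refine ⟨max C' B, fun m hm w hw => ?_⟩
      rcases eq_or_lt_of_le hm with h | h
      · rw [← h]; exact (hB w hw).trans (le_max_right _ _)
      · exact (hC' m (by push_cast at h ⊢; omega) w hw).trans (le_max_left _ _)
  have hgs : Gs φ r (fun n => N0 (n - 1)) := by
    refine ⟨fun m => n1 _, fun m w hw => ?_, fun m => ?_⟩
    · have := n2 (m - 1) w hw
      show deriv (N0 (m + 1 - 1)) w = _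
      rw [show m + 1 - 1 = m - 1 + 1 by ring]; exact this
    · obtain ⟨C', hC'⟩ := hneg (1 - m).toNat
      refine ⟨C', 1, fun k w hw => ?_⟩
      rw [one_pow, mul_one]
      exact hC' _ (by omega) w hw
  -- the values
  have hval : ∀ m : ℤ, -2 ≤ m → ∀ t : ℝ, N0 m (exp ((t : ℂ) * I)) =
      LL (lam / 4) φ m t + hh (lam / 4) φ m t := by
    intro m hm t
    rcases lt_or_ge m 0 with h | h
    · have : m = -1 ∨ m = -2 := by omega
      rcases this with rfl | rfl
      · rw [n4 t]; simp [LL]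
      · rw [n5 t]; simp [LL]
    · rw [n3 m h t]
      unfold LL
      rw [if_neg (by omega), if_neg (by omega), if_neg (by omega), zero_add]
  have key : ∀ (m : ℤ) (S : ℂ) (t : ℝ), -2 ≤ m →
      HasSum (fun k : ℕ => (-((lam / 4 : ℝ) : ℂ) * conj (xx φ t)) ^ k / (k.factorial : ℂ) *
        LL (lam / 4) φ (m + k) t) S →
      Ev (lam / 4) φ (fun n => N0 (n - 1)) (m + 1) t = S + HH (lam / 4) φ m t := by
    intro m S t hm hS
    refine (ev_hs hr hφ (lam / 4) hgs (m + 1) t).unique ?_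
    have := Pool.Agent.E8helper4.FV.ser hK1 (lam / 4) hr hφ m t S hS
    refine Pool.Agent.E8helper4.FV.hs_congr (fun k => ?_) this
    rw [← hval _ (by omega) t]
    unfold tm
    show _ * N0 (m + 1 + (k : ℤ) - 1) _ = _
    rw [show m + 1 + (k : ℤ) - 1 = m + k by ring]
  refine ⟨fun n => N0 (n - 1), hgs, fun t => ?_, fun t => ?_, fun t => ?_⟩
  · have := key (-1) 1 t (by norm_num) (Pool.Agent.E8helper4.FV.loc2 (lam / 4) φ t)
    rwa [neg_add_cancel] at this
  · have := key 0 0 t (by norm_num) (Pool.Agent.E8helper4.FV.locp (lam / 4) φ t 0 le_rfl)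
    rwa [zero_add, zero_add] at this
  · have h2 : HasSum (fun k : ℕ => (-((lam / 4 : ℝ) : ℂ) * conj (xx φ t)) ^ k /
        (k.factorial : ℂ) * LL (lam / 4) φ (-2 + k) t) 0 := by
      have h := Pool.Agent.E8helper4.FV.fin_sum (fun k : ℕ =>
        (-((lam / 4 : ℝ) : ℂ) * conj (xx φ t)) ^ k / (k.factorial : ℂ) *
          LL (lam / 4) φ (-2 + k) t) 2 (by
          intro k hk
          have : LL (lam / 4) φ (-2 + k) t = 0 := by
            unfold LL
            rw [if_neg (by omega), if_neg (by omega), if_neg (by omega)]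
          rw [this, mul_zero])
      convert h using 1
      simp only [Finset.sum_range_succ, Finset.sum_range_zero, LL]
      norm_num
    have := key (-2) 0 t le_rfl h2
    rw [zero_add] at this
    exact this

end Pool.Agent.Helper28.SC
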