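import Pool.Agent.Helper28.SC.Dbl

/-!
# Several frequencies: the leading coefficients vanish
-/

set_option autoImplicit false

open Complex MeasureTheory Metric Set Filter Topology ComplexConjugate
open Pool.Agent.E8helper4.FV (xx xd)
open Pool.Agent.Results.MP_83fd13_an.BranchSingularities (Solvable)

namespace Pool.Agent.Helper28.SC

/-- a polynomial without constant term, of degree at most `m`, with `m` positive roots -/
lemma poly_lead (q : ℤ → ℂ) (m : ℕ) (hm : 1 ≤ m) (A : Finset ℝ) (hcard : m ≤ A.card)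
    (hA : ∀ a ∈ A, 0 < a ∧ ∑ i ∈ Finset.Icc (1 : ℤ) m, (a : ℂ) ^ i * q i = 0) : q m = 0 := by
  classical
  set p : Polynomial ℂ := ∑ i ∈ Finset.range m, Polynomial.C (q (i + 1)) * Polynomial.X ^ i
    with hp
  have hdeg : p.degree < m := by
    rw [hp]
    refine (Polynomial.degree_sum_le _ _).trans_lt ?_
    rw [Finset.sup_lt_iff (by exact_mod_cast WithBot.bot_lt_coe m)]
    intro i hi
    refine (Polynomial.degree_C_mul_X_pow_le _ _).trans_lt ?_
    rw [Finset.mem_range] at hi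
    exact_mod_cast hi
  have hz : p = 0 := by
    apply Polynomial.eq_zero_of_degree_lt_of_eval_finset_eq_zero
      (A.map ⟨fun a : ℝ => (a : ℂ), Complex.ofReal_injective⟩)
    · rw [Finset.card_map]
      exact hdeg.trans_le (by exact_mod_cast hcard)
    · intro x hx
      rw [Finset.mem_map] at hx
      obtain ⟨a, ha, rfl⟩ := hx
      obtain ⟨ha0, hs⟩ := hA a ha
      have ha' : (a : ℂ) ≠ 0 := by exact_mod_cast ha0.ne'
      have e1 : ∑ i ∈ Finset.Icc (1 : ℤ) m, (a : ℂ) ^ i * q i =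
          (a : ℂ) * ∑ i ∈ Finset.range m, q (i + 1) * (a : ℂ) ^ i := by
        rw [Finset.mul_sum]
        symm
        refine Finset.sum_bij (fun i _ => (i : ℤ) + 1) ?_ ?_ ?_ ?_
        · intro i hi
          rw [Finset.mem_range] at hi
          rw [Finset.mem_Icc]
          omega
        · intro i _ i' _ h
          have h' : (i : ℤ) + 1 = (i' : ℤ) + 1 := h
          omega
        · intro i hi
          rw [Finset.mem_Icc] at hi
          refine ⟨(i - 1).toNat, by rw [Finset.mem_range]; omega, ?_⟩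
          show (((i - 1).toNat : ℕ) : ℤ) + 1 = i
          omega
        · intro i _
          show _ = (a : ℂ) ^ ((i : ℤ) + 1) * q ((i : ℤ) + 1)
          rw [zpow_add_one₀ ha', zpow_natCast]
          ring
      rw [e1] at hs
      have h2 := (mul_eq_zero.1 hs).resolve_left ha'
      show Polynomial.eval (a : ℂ) p = 0
      rw [hp, Polynomial.eval_finsetSum, ← h2]
      refine Finset.sum_congr rfl fun i _ => ?_
      simp
  have hc : p.coeff (m - 1) = q m := by
    rw [hp, Polynomial.finsetSum_coeff]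
    rw [Finset.sum_eq_single (m - 1)]
    · rw [Polynomial.coeff_C_mul_X_pow, if_pos rfl]
      congr 1
      omega
    · intro i _ hi
      rw [Polynomial.coeff_C_mul_X_pow, if_neg (Ne.symm hi)]
    · intro h
      rw [Finset.mem_range] at h
      omega
  rw [← hc, hz, Polynomial.coeff_zero]

/-- the rotated jets as finite sums -/
lemma val {φ : ℂ → ℂ} {r a : ℝ} (hr : 1 < r) (hφ : DifferentiableOn ℂ φ (ball 0 r))
    (ha : 0 < a) (hne : ∀ t, xd φ t ≠ 0) {U : ℤ → ℝ → ℂ} (hU : Chn a φ U) (h0 : ∀ t, U 0 t = 1)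
    (h1 : ∀ t, U 1 t = 0) (j : ℕ) (n : ℤ) (m : ℕ) (hn : n ≤ 0) (hjn : (j : ℤ) - n = 2 * m)
    (hm : 1 ≤ m) (t : ℝ) :
    (Rf a φ)^[j] U n t = ∑ i ∈ Finset.Icc (1 : ℤ) m, (a : ℂ) ^ i * Cc φ j n i t := by
  have h := Cc_hs hr hφ ha hne hU h0 h1 j n t
  refine h.unique (hasSum_sum_of_ne_finset_zero fun i hi => ?_)
  rw [Finset.mem_Icc, not_and_or, not_le, not_le] at hi
  rcases hi with hi | hi
  · rw [(Cc_lo φ j).1 n i t (by rw [max_eq_right hn]; omega) (by omega), mul_zero]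
  · rw [Cc_hi φ j n i t (by omega), mul_zero]

/-- the weighted integral as a polynomial in `a` -/
lemma int_val {φ : ℂ → ℂ} {r a : ℝ} (hr : 1 < r) (hφ : DifferentiableOn ℂ φ (ball 0 r))
    (ha : 0 < a) (hne : ∀ t, xd φ t ≠ 0) {U : ℤ → ℝ → ℂ} (hU : Chn a φ U) (h0 : ∀ t, U 0 t = 1)
    (h1 : ∀ t, U 1 t = 0) (j : ℕ) (n : ℤ) (m : ℕ) (hn : n ≤ 0) (hjn : (j : ℤ) - n = 2 * m)
    (hm : 1 ≤ m) (W : ℝ → ℂ) (hW : Continuous W) :
    ∫ t in (0 : ℝ)..(2 * Real.pi), (Rf a φ)^[j] U n t * W t =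
      ∑ i ∈ Finset.Icc (1 : ℤ) m, (a : ℂ) ^ i *
        ∫ t in (0 : ℝ)..(2 * Real.pi), Cc φ j n i t * W t := by
  have e : (fun t => (Rf a φ)^[j] U n t * W t) = fun t =>
      ∑ i ∈ Finset.Icc (1 : ℤ) m, (a : ℂ) ^ i * (Cc φ j n i t * W t) := by
    funext t
    rw [val hr hφ ha hne hU h0 h1 j n m hn hjn hm t, Finset.sum_mul]
    refine Finset.sum_congr rfl fun i _ => ?_
    ring
  rw [e, intervalIntegral.integral_finsetSum]
  · refine Finset.sum_congr rfl fun i _ => ?_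
    rw [intervalIntegral.integral_const_mul]
  · intro i _
    exact (continuous_const.mul ((Cc_cont hr hφ hne j n i).mul hW)).intervalIntegrable _ _

/-- the mixed integral -/
lemma int_mix {φ : ℂ → ℂ} {r a : ℝ} (hr : 1 < r) (hφ : DifferentiableOn ℂ φ (ball 0 r))
    {F : ℤ → ℝ → ℂ} (hF : Chn a φ F) (hc : ∀ n, Continuous (F n))
    (hp : ∀ n, F n (2 * Real.pi) = F n 0)
    (h1 : ∀ n, ∫ t in (0 : ℝ)..(2 * Real.pi), F n t * conj (xd φ t) = 0)
    (h2 : ∀ n, ∫ t in (0 : ℝ)..(2 * Real.pi), Rf a φ F n t * conj (xd φ t) = 0) (n : ℤ) :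
    ∫ t in (0 : ℝ)..(2 * Real.pi), F (n - 1) t *
      (xx φ t * conj (xd φ t) + conj (xx φ t) * xd φ t) = 0 := by
  have hx := Pool.Agent.E8helper4.FV.xx_cont hr hφ
  have hxd := Pool.Agent.E8helper4.FV.xd_cont hr hφ
  have hX : Continuous fun t => conj (xx φ t) := Complex.continuous_conj.comp hx
  have hXd : Continuous fun t => conj (xd φ t) := Complex.continuous_conj.comp hxd
  have hRc : Continuous (Rf a φ F n) := by
    unfold Rf
    exact ((hx.mul (hc _)).add ((continuous_const.mul hX).mul (hc _))).sub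
      (continuous_const.mul (hc _))
  have hder : ∀ t, HasDerivAt (fun t => conj (xx φ t) * F n t) (conj (xd φ t) * F n t +
      conj (xx φ t) * (xd φ t * F (n - 1) t - (a : ℂ) * conj (xd φ t) * F (n + 1) t)) t := by
    intro t
    have hd : HasDerivAt (fun t => conj (xx φ t)) (conj (xd φ t)) t :=
      (Pool.Agent.E8helper4.FV.xx_der hr hφ t).star
    exact hd.mul (hF n t)
  have c1 : Continuous fun t => conj (xd φ t) * F n t +
      conj (xx φ t) * (xd φ t * F (n - 1) t - (a : ℂ) * conj (xd φ t) * F (n + 1) t) :=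
    (hXd.mul (hc n)).add (hX.mul ((hxd.mul (hc _)).sub ((continuous_const.mul hXd).mul (hc _))))
  have c2 : Continuous fun t => Rf a φ F n t * conj (xd φ t) := hRc.mul hXd
  have c3 : Continuous fun t => (1 - (n : ℂ)) * (F n t * conj (xd φ t)) :=
    continuous_const.mul ((hc n).mul hXd)
  have e1 : ∫ t in (0 : ℝ)..(2 * Real.pi), (conj (xd φ t) * F n t +
      conj (xx φ t) * (xd φ t * F (n - 1) t - (a : ℂ) * conj (xd φ t) * F (n + 1) t)) = 0 := by
    rw [intervalIntegral.integral_eq_sub_of_hasDerivAt (fun t _ => hder t)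
      (c1.intervalIntegrable _ _), hp, Pool.Agent.E8helper4.FV.xx_per, sub_self]
  have e : (fun t => F (n - 1) t * (xx φ t * conj (xd φ t) + conj (xx φ t) * xd φ t)) =
      fun t => (conj (xd φ t) * F n t +
      conj (xx φ t) * (xd φ t * F (n - 1) t - (a : ℂ) * conj (xd φ t) * F (n + 1) t)) +
      Rf a φ F n t * conj (xd φ t) - (1 - (n : ℂ)) * (F n t * conj (xd φ t)) := by
    funext t
    unfold Rf
    ring
  have c4 : Continuous fun t => (conj (xd φ t) * F n t +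
      conj (xx φ t) * (xd φ t * F (n - 1) t - (a : ℂ) * conj (xd φ t) * F (n + 1) t)) +
      Rf a φ F n t * conj (xd φ t) := c1.add c2
  rw [e, intervalIntegral.integral_sub (c4.intervalIntegrable _ _) (c3.intervalIntegrable _ _),
    intervalIntegral.integral_add (c1.intervalIntegrable _ _) (c2.intervalIntegrable _ _),
    intervalIntegral.integral_const_mul, e1, h1, h2]
  ring

lemma xd_ne {φ : ℂ → ℂ} {r : ℝ} (hr : 1 < r) (hφ : DifferentiableOn ℂ φ (ball 0 r))
    (hinj : InjOn φ (ball 0 r)) (t : ℝ) : xd φ t ≠ 0 := by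
  unfold xd
  exact mul_ne_zero (mul_ne_zero I_ne_zero (exp_ne_zero _))
    (Pool.Agent.Helper202.Geom.deriv_ne_zero_of_injOn isOpen_ball hφ hinj (mem_r hr t))

/-- several frequencies, first form -/
lemma lead1 {φ : ℂ → ℂ} {r : ℝ} (hr : 1 < r) (hφ : DifferentiableOn ℂ φ (ball 0 r))
    (hinj : InjOn φ (ball 0 r)) (m : ℕ) (hm : 1 ≤ m) (A : Finset ℝ) (hcard : m ≤ A.card)
    (hA : ∀ lam ∈ A, 0 < lam ∧ Solvable (φ '' ball 0 1) lam) (j : ℕ) (n : ℤ) (hn : n ≤ 0)
    (hjn : (j : ℤ) - n = 2 * m) :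
    ∫ t in (0 : ℝ)..(2 * Real.pi), Cc φ j n m t * conj (xd φ t) = 0 := by
  classical
  have hne := xd_ne hr hφ hinj
  have hXd : Continuous fun t => conj (xd φ t) :=
    Complex.continuous_conj.comp (Pool.Agent.E8helper4.FV.xd_cont hr hφ)
  refine poly_lead (fun i => ∫ t in (0 : ℝ)..(2 * Real.pi), Cc φ j n i t * conj (xd φ t)) m hm
    (A.map ⟨fun x : ℝ => x / 4, fun x y h => by
      have h' : x / 4 = y / 4 := h
      linarith⟩) (by rwa [Finset.card_map]) ?_
  intro a ha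
  rw [Finset.mem_map] at ha
  obtain ⟨lam, hlam, rfl⟩ := ha
  obtain ⟨hl, hS⟩ := hA lam hlam
  obtain ⟨U, u1, u2, u3, u4, u5, u6, u7, u8⟩ := main_U hr hφ hinj hl hS
  have ha : 0 < lam / 4 := by positivity
  refine ⟨ha, ?_⟩
  show ∑ i ∈ Finset.Icc (1 : ℤ) m, ((lam / 4 : ℝ) : ℂ) ^ i * _ = 0
  rw [← int_val hr hφ ha hne u1 u2 u3 j n m hn hjn hm _ hXd]
  exact u6 j n

/-- several frequencies, second form -/
lemma lead2 {φ : ℂ → ℂ} {r : ℝ} (hr : 1 < r) (hφ : DifferentiableOn ℂ φ (ball 0 r))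
    (hinj : InjOn φ (ball 0 r)) (m : ℕ) (hm : 1 ≤ m) (A : Finset ℝ) (hcard : m ≤ A.card)
    (hA : ∀ lam ∈ A, 0 < lam ∧ Solvable (φ '' ball 0 1) lam) :
    ∫ t in (0 : ℝ)..(2 * Real.pi), Cc φ (2 * m) 0 m t *
      (xx φ t * conj (xd φ t) + conj (xx φ t) * xd φ t) = 0 := by
  classical
  have hne := xd_ne hr hφ hinj
  have hx := Pool.Agent.E8helper4.FV.xx_cont hr hφ
  have hxd := Pool.Agent.E8helper4.FV.xd_cont hr hφ
  have hX : Continuous fun t => conj (xx φ t) := Complex.continuous_conj.comp hx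
  have hXd : Continuous fun t => conj (xd φ t) := Complex.continuous_conj.comp hxd
  have hW : Continuous fun t => xx φ t * conj (xd φ t) + conj (xx φ t) * xd φ t :=
    (hx.mul hXd).add (hX.mul hxd)
  refine poly_lead (fun i => ∫ t in (0 : ℝ)..(2 * Real.pi), Cc φ (2 * m) 0 i t *
      (xx φ t * conj (xd φ t) + conj (xx φ t) * xd φ t)) m hm
    (A.map ⟨fun x : ℝ => x / 4, fun x y h => by
      have h' : x / 4 = y / 4 := h
      linarith⟩) (by rwa [Finset.card_map]) ?_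
  intro a ha
  rw [Finset.mem_map] at ha
  obtain ⟨lam, hlam, rfl⟩ := ha
  obtain ⟨hl, hS⟩ := hA lam hlam
  obtain ⟨U, u1, u2, u3, u4, u5, u6, u7, u8⟩ := main_U hr hφ hinj hl hS
  have ha : 0 < lam / 4 := by positivity
  refine ⟨ha, ?_⟩
  show ∑ i ∈ Finset.Icc (1 : ℤ) m, ((lam / 4 : ℝ) : ℂ) ^ i * _ = 0
  rw [← int_val hr hφ ha hne u1 u2 u3 (2 * m) 0 m le_rfl (by push_cast; ring) hm _ hW]
  have := int_mix hr hφ (u7 (2 * m)) (u5 (2 * m)) (u8 (2 * m)) (u6 (2 * m)) (fun n => by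
    have := u6 (2 * m + 1) n
    rwa [Function.iterate_succ_apply'] at this) 1
  rwa [sub_self] at this

end Pool.Agent.Helper28.SC
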