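import Pool.Agent.Helper28.SC.Lead

/-!
# Odd moments of the curve of oriented normals
-/

set_option autoImplicit false

open Complex MeasureTheory Metric Set Filter Topology ComplexConjugate
open Pool.Agent.E8helper4.FV (xx xd)
open Pool.Agent.Results.MP_83fd13_an.BranchSingularities (Solvable)

namespace Pool.Agent.Helper28.SC

/-- the unit tangent -/
noncomputable def ta (φ : ℂ → ℂ) (t : ℝ) : ℂ := xd φ t / (‖xd φ t‖ : ℂ)

/-- `z · τ` -/
noncomputable def pa (φ : ℂ → ℂ) (t : ℝ) : ℝ := (conj (xx φ t) * ta φ t).re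

/-- complex moments -/
noncomputable def TM (φ : ℂ → ℂ) (l : ℤ) (k : ℕ) : ℂ :=
  ∫ t in (0 : ℝ)..(2 * Real.pi), ta φ t ^ l * (pa φ t : ℂ) ^ k * (‖xd φ t‖ : ℂ)

section
variable {φ : ℂ → ℂ} {r : ℝ} (hr : 1 < r) (hφ : DifferentiableOn ℂ φ (ball 0 r))
  (hinj : InjOn φ (ball 0 r))

include hr hφ hinj

lemma nv (t : ℝ) : (‖xd φ t‖ : ℂ) ≠ 0 := by
  have := norm_ne_zero_iff.2 (xd_ne hr hφ hinj t)
  exact_mod_cast this

lemma ta_norm (t : ℝ) : ‖ta φ t‖ = 1 := by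
  unfold ta
  rw [norm_div, Complex.norm_real, norm_norm, div_self]
  exact norm_ne_zero_iff.2 (xd_ne hr hφ hinj t)

lemma ta_ne (t : ℝ) : ta φ t ≠ 0 := by
  rw [← norm_ne_zero_iff, ta_norm hr hφ hinj]; exact one_ne_zero

lemma ta_conj (t : ℝ) : conj (ta φ t) = (ta φ t)⁻¹ := by
  rw [Complex.inv_def, Complex.normSq_eq_norm_sq, ta_norm hr hφ hinj]
  simp

lemma xd_ta (t : ℝ) : xd φ t = ta φ t * (‖xd φ t‖ : ℂ) := by
  unfold ta
  rw [div_mul_cancel₀ _ (nv hr hφ hinj t)]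

lemma xdc_ta (t : ℝ) : conj (xd φ t) = (ta φ t)⁻¹ * (‖xd φ t‖ : ℂ) := by
  conv_lhs => rw [xd_ta hr hφ hinj t]
  rw [map_mul, ta_conj hr hφ hinj, conj_ofReal]

lemma S_ta (t : ℝ) : conj (xd φ t) / xd φ t = (ta φ t) ^ (-2 : ℤ) := by
  have h1 := ta_ne hr hφ hinj t
  have h2 := nv hr hφ hinj t
  rw [xdc_ta hr hφ hinj t]
  conv_lhs => rw [xd_ta hr hφ hinj t]
  rw [norm_mul, ta_norm hr hφ hinj, one_mul, Complex.norm_real, norm_norm]
  rw [zpow_neg, zpow_ofNat]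
  field_simp

lemma pa_eq (t : ℝ) : 2 * (pa φ t : ℂ) = xx φ t * (ta φ t)⁻¹ + conj (xx φ t) * ta φ t := by
  unfold pa
  have h := Complex.add_conj (conj (xx φ t) * ta φ t)
  rw [map_mul, conj_conj, ta_conj hr hφ hinj] at h
  push_cast at h
  rw [← h]; ring

lemma ta_cont : Continuous (ta φ) := by
  have h := Pool.Agent.E8helper4.FV.xd_cont hr hφ
  unfold ta
  exact h.div (by fun_prop) (nv hr hφ hinj)

lemma pa_cont : Continuous (pa φ) := by
  have hx := Pool.Agent.E8helper4.FV.xx_cont hr hφ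
  have h := ta_cont hr hφ hinj
  unfold pa
  exact Complex.continuous_re.comp ((Complex.continuous_conj.comp hx).mul h)

lemma taz_cont (l : ℤ) : Continuous fun t => ta φ t ^ l :=
  (ta_cont hr hφ hinj).zpow₀ l fun t => Or.inl (ta_ne hr hφ hinj t)

/-- conjugation of the moments -/
lemma TM_conj (l : ℤ) (k : ℕ) : conj (TM φ l k) = TM φ (-l) k := by
  unfold TM
  rw [Pool.Agent.E8helper13.FV.conj_int]
  refine intervalIntegral.integral_congr fun t _ => ?_
  show conj (ta φ t ^ l * (pa φ t : ℂ) ^ k * (‖xd φ t‖ : ℂ)) = _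
  rw [map_mul, map_mul, map_zpow₀, map_pow, conj_ofReal, conj_ofReal, ta_conj hr hφ hinj,
    inv_zpow']

/-- the moments with `l ≥ 1` -/
lemma TM_neg (m : ℕ) (hm : 1 ≤ m) (A : Finset ℝ) (hcard : m ≤ A.card)
    (hA : ∀ lam ∈ A, 0 < lam ∧ Solvable (φ '' ball 0 1) lam) (l k : ℕ) (hl : 1 ≤ l)
    (hlk : l + k = 2 * m + 1) : TM φ (-(l : ℤ)) k = 0 := by
  have hne := xd_ne hr hφ hinj
  have h := lead1 hr hφ hinj m hm A hcard hA k (1 - l) (by omega) (by omega)
  have e : ((1 : ℤ) - l) = k - 2 * (m : ℤ) := by omega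
  rw [e] at h
  have e2 : (fun t => Cc φ k (k - 2 * (m : ℤ)) m t * conj (xd φ t)) = fun t =>
      2 ^ k * (ta φ t ^ (-(l : ℤ)) * (pa φ t : ℂ) ^ k * (‖xd φ t‖ : ℂ)) := by
    funext t
    have h1 := ta_ne hr hφ hinj t
    rw [Cc_lead hne k m t, S_ta hr hφ hinj, xdc_ta hr hφ hinj]
    have e3 : xx φ t * ta φ t ^ (-2 : ℤ) + conj (xx φ t) = (ta φ t)⁻¹ * (2 * (pa φ t : ℂ)) := by
      rw [pa_eq hr hφ hinj]
      rw [show (-2 : ℤ) = -1 + -1 by norm_num, zpow_add₀ h1, zpow_neg_one]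
      field_simp
    have e4 : (ta φ t)⁻¹ = ta φ t ^ (-1 : ℤ) := (zpow_neg_one _).symm
    rw [e3, mul_pow, mul_pow, e4, ← zpow_natCast (ta φ t ^ (-1 : ℤ)) k, ← zpow_mul, ← zpow_mul]
    have e5 : (-(l : ℤ)) = -1 * (k : ℤ) + -2 * ((m : ℤ) - k) + -1 := by omega
    rw [e5, zpow_add₀ h1, zpow_add₀ h1]
    ring
  rw [e2, intervalIntegral.integral_const_mul] at h
  exact (mul_eq_zero.1 h).resolve_left (pow_ne_zero _ two_ne_zero)

/-- the moments with `l = 0` -/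
lemma TM_zero (m : ℕ) (hm : 1 ≤ m) (A : Finset ℝ) (hcard : m ≤ A.card)
    (hA : ∀ lam ∈ A, 0 < lam ∧ Solvable (φ '' ball 0 1) lam) : TM φ 0 (2 * m + 1) = 0 := by
  have hne := xd_ne hr hφ hinj
  have h := lead2 hr hφ hinj m hm A hcard hA
  have e : (0 : ℤ) = ((2 * m : ℕ) : ℤ) - 2 * (m : ℤ) := by push_cast; ring
  have e2 : (fun t => Cc φ (2 * m) 0 m t *
      (xx φ t * conj (xd φ t) + conj (xx φ t) * xd φ t)) = fun t =>
      2 ^ (2 * m + 1) * (ta φ t ^ (0 : ℤ) * (pa φ t : ℂ) ^ (2 * m + 1) * (‖xd φ t‖ : ℂ)) := by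
    funext t
    have h1 := ta_ne hr hφ hinj t
    have h0 := Cc_lead hne (2 * m) m t
    rw [← e] at h0
    rw [h0, S_ta hr hφ hinj]
    have e6 : xx φ t * conj (xd φ t) + conj (xx φ t) * xd φ t =
        2 * (pa φ t : ℂ) * (‖xd φ t‖ : ℂ) := by
      rw [pa_eq hr hφ hinj, xdc_ta hr hφ hinj]
      conv_lhs =>
        arg 2
        rw [xd_ta hr hφ hinj t]
      ring
    have e3 : xx φ t * ta φ t ^ (-2 : ℤ) + conj (xx φ t) = (ta φ t)⁻¹ * (2 * (pa φ t : ℂ)) := by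
      rw [pa_eq hr hφ hinj]
      rw [show (-2 : ℤ) = -1 + -1 by norm_num, zpow_add₀ h1, zpow_neg_one]
      field_simp
    have e4 : (ta φ t)⁻¹ = ta φ t ^ (-1 : ℤ) := (zpow_neg_one _).symm
    rw [e6, e3, mul_pow, e4, ← zpow_natCast (ta φ t ^ (-1 : ℤ)) (2 * m), ← zpow_mul, ← zpow_mul]
    have e5 : (0 : ℤ) = -1 * ((2 * m : ℕ) : ℤ) + -2 * ((m : ℤ) - ((2 * m : ℕ) : ℤ)) := by
      push_cast; ring
    conv_rhs => rw [e5, zpow_add₀ h1]
    ring
  rw [e2, intervalIntegral.integral_const_mul] at h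
  exact (mul_eq_zero.1 h).resolve_left (pow_ne_zero _ two_ne_zero)

/-- first order moments vanish for every closed curve -/
lemma TM_one : TM φ 1 0 = 0 := by
  have hxd := Pool.Agent.E8helper4.FV.xd_cont hr hφ
  have e : (fun t => ta φ t ^ (1 : ℤ) * (pa φ t : ℂ) ^ 0 * (‖xd φ t‖ : ℂ)) = xd φ := by
    funext t
    rw [zpow_one, pow_zero, mul_one, ← xd_ta hr hφ hinj]
  unfold TM
  rw [e, intervalIntegral.integral_eq_sub_of_hasDerivAt
    (fun t _ => Pool.Agent.E8helper4.FV.xx_der hr hφ t) (hxd.intervalIntegrable _ _),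
    Pool.Agent.E8helper4.FV.xx_per, sub_self]

lemma TM_p : TM φ 0 1 = 0 := by
  have hx := Pool.Agent.E8helper4.FV.xx_cont hr hφ
  have hxd := Pool.Agent.E8helper4.FV.xd_cont hr hφ
  have hX : Continuous fun t => conj (xx φ t) := Complex.continuous_conj.comp hx
  have hXd : Continuous fun t => conj (xd φ t) := Complex.continuous_conj.comp hxd
  have hd : ∀ t, HasDerivAt (fun t => xx φ t * conj (xx φ t) / 2)
      ((xd φ t * conj (xx φ t) + xx φ t * conj (xd φ t)) / 2) t := fun t => by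
    have h1 := Pool.Agent.E8helper4.FV.xx_der hr hφ t
    have h2 : HasDerivAt (fun t => conj (xx φ t)) (conj (xd φ t)) t := h1.star
    exact (h1.mul h2).div_const 2
  have e : (fun t => ta φ t ^ (0 : ℤ) * (pa φ t : ℂ) ^ 1 * (‖xd φ t‖ : ℂ)) = fun t =>
      (xd φ t * conj (xx φ t) + xx φ t * conj (xd φ t)) / 2 := by
    funext t
    rw [zpow_zero, pow_one, one_mul, xdc_ta hr hφ hinj]
    conv_rhs =>
      arg 1
      arg 1
      rw [xd_ta hr hφ hinj t]
    have := pa_eq hr hφ hinj t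
    linear_combination ((‖xd φ t‖ : ℂ) / 2) * this
  have c : Continuous fun t => (xd φ t * conj (xx φ t) + xx φ t * conj (xd φ t)) / 2 :=
    ((hxd.mul hX).add (hx.mul hXd)).div_const 2
  unfold TM
  rw [e, intervalIntegral.integral_eq_sub_of_hasDerivAt
    (fun t _ => hd t) (c.intervalIntegrable _ _),
    Pool.Agent.E8helper4.FV.xx_per, sub_self]

/-- all odd complex moments up to order `2m+1` vanish if there are `m` frequencies -/
lemma TM_all (m : ℕ) (A : Finset ℝ) (hcard : m ≤ A.card)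
    (hA : ∀ lam ∈ A, 0 < lam ∧ Solvable (φ '' ball 0 1) lam) (l : ℤ) (k : ℕ)
    (hodd : Odd (l + k)) (hlk : l.natAbs + k ≤ 2 * m + 1) : TM φ l k = 0 := by
  -- reduce to `l ≤ 0`
  have key : ∀ l k : ℕ, Odd (l + k) → l + k ≤ 2 * m + 1 → TM φ (-(l : ℤ)) k = 0 := by
    intro l k ho hle
    obtain ⟨m', hm'⟩ := ho
    rcases Nat.eq_zero_or_pos m' with h0 | h0
    · subst h0
      have : (l = 1 ∧ k = 0) ∨ (l = 0 ∧ k = 1) := by omega
      rcases this with ⟨rfl, rfl⟩ | ⟨rfl, rfl⟩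
      · rw [show (-((1 : ℕ) : ℤ)) = -1 by norm_num, ← TM_conj hr hφ hinj, TM_one hr hφ hinj,
          map_zero]
      · rw [show (-((0 : ℕ) : ℤ)) = 0 by norm_num]
        exact TM_p hr hφ hinj
    · rcases Nat.eq_zero_or_pos l with h1 | h1
      · subst h1
        have hk : k = 2 * m' + 1 := by omega
        subst hk
        rw [show (-((0 : ℕ) : ℤ)) = 0 by norm_num]
        exact TM_zero hr hφ hinj m' h0 A (by omega) hA
      · exact TM_neg hr hφ hinj m' h0 A (by omega) hA l k h1 hm'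
  rcases le_or_gt l 0 with h | h
  · have e : l = -((l.natAbs : ℕ) : ℤ) := by omega
    rw [e]
    apply key _ _ _ hlk
    obtain ⟨q, hq⟩ := hodd
    refine ⟨((l.natAbs + k - 1) / 2), ?_⟩
    omega
  · have e : l = ((l.natAbs : ℕ) : ℤ) := by omega
    have h2 : TM φ (-((l.natAbs : ℕ) : ℤ)) k = 0 := by
      apply key _ _ _ hlk
      obtain ⟨q, hq⟩ := hodd
      refine ⟨((l.natAbs + k - 1) / 2), ?_⟩
      omega
    rw [e, ← neg_neg ((l.natAbs : ℕ) : ℤ), ← TM_conj hr hφ hinj, h2, map_zero]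

/-- mixed moments -/
lemma mixed (m : ℕ) (A : Finset ℝ) (hcard : m ≤ A.card)
    (hA : ∀ lam ∈ A, 0 < lam ∧ Solvable (φ '' ball 0 1) lam) (i j : ℕ) : ∀ (l : ℤ) (k : ℕ),
    Odd (l + i + j + k) → l.natAbs + i + j + k ≤ 2 * m + 1 →
    ∫ t in (0 : ℝ)..(2 * Real.pi), (((ta φ t).re : ℝ) : ℂ) ^ i * (((ta φ t).im : ℝ) : ℂ) ^ j *
      (ta φ t ^ l * (pa φ t : ℂ) ^ k * (‖xd φ t‖ : ℂ)) = 0 := by
  have ct := ta_cont hr hφ hinj
  have cp : Continuous fun t => ((pa φ t : ℝ) : ℂ) :=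
    Complex.continuous_ofReal.comp (pa_cont hr hφ hinj)
  have cz := taz_cont hr hφ hinj
  have cv : Continuous fun t => (‖xd φ t‖ : ℂ) :=
    Complex.continuous_ofReal.comp (Pool.Agent.E8helper4.FV.xd_cont hr hφ).norm
  have cre : Continuous fun t => (((ta φ t).re : ℝ) : ℂ) :=
    Complex.continuous_ofReal.comp (Complex.continuous_re.comp ct)
  have cim : Continuous fun t => (((ta φ t).im : ℝ) : ℂ) :=
    Complex.continuous_ofReal.comp (Complex.continuous_im.comp ct)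
  have ci : ∀ (i j : ℕ) (l : ℤ) (k : ℕ), Continuous fun t =>
      (((ta φ t).re : ℝ) : ℂ) ^ i * (((ta φ t).im : ℝ) : ℂ) ^ j *
      (ta φ t ^ l * (pa φ t : ℂ) ^ k * (‖xd φ t‖ : ℂ)) := fun i j l k =>
    ((cre.pow i).mul (cim.pow j)).mul (((cz l).mul (cp.pow k)).mul cv)
  have hre : ∀ t, (((ta φ t).re : ℝ) : ℂ) = (ta φ t + (ta φ t)⁻¹) / 2 := fun t => by
    rw [← ta_conj hr hφ hinj, Complex.add_conj]
    push_cast; ring
  have him : ∀ t, (((ta φ t).im : ℝ) : ℂ) = (ta φ t - (ta φ t)⁻¹) / (2 * I) := fun t => by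
    rw [← ta_conj hr hφ hinj, Complex.sub_conj]
    push_cast
    field_simp [I_ne_zero]
  -- first the powers of the imaginary part
  have h1 : ∀ (j : ℕ) (l : ℤ) (k : ℕ), Odd (l + j + k) → l.natAbs + j + k ≤ 2 * m + 1 →
      ∫ t in (0 : ℝ)..(2 * Real.pi), (((ta φ t).re : ℝ) : ℂ) ^ 0 *
        (((ta φ t).im : ℝ) : ℂ) ^ j * (ta φ t ^ l * (pa φ t : ℂ) ^ k * (‖xd φ t‖ : ℂ)) = 0 := by
    intro j
    induction j with
    | zero =>
      intro l k ho hle
      have := TM_all hr hφ hinj m A hcard hA l k (by simpa using ho) (by simpa using hle)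
      unfold TM at this
      simpa using this
    | succ j ih =>
      intro l k ho hle
      push_cast at ho
      have e : (fun t => (((ta φ t).re : ℝ) : ℂ) ^ 0 * (((ta φ t).im : ℝ) : ℂ) ^ (j + 1) *
          (ta φ t ^ l * (pa φ t : ℂ) ^ k * (‖xd φ t‖ : ℂ))) = fun t => (1 / (2 * I)) *
          ((((ta φ t).re : ℝ) : ℂ) ^ 0 * (((ta φ t).im : ℝ) : ℂ) ^ j *
          (ta φ t ^ (l + 1) * (pa φ t : ℂ) ^ k * (‖xd φ t‖ : ℂ))) - (1 / (2 * I)) *
          ((((ta φ t).re : ℝ) : ℂ) ^ 0 * (((ta φ t).im : ℝ) : ℂ) ^ j *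
          (ta φ t ^ (l - 1) * (pa φ t : ℂ) ^ k * (‖xd φ t‖ : ℂ))) := by
        funext t
        have h0 := ta_ne hr hφ hinj t
        rw [pow_succ (((ta φ t).im : ℝ) : ℂ) j]
        conv_lhs =>
          arg 1
          arg 2
          arg 2
          rw [him t]
        rw [zpow_add_one₀ h0, zpow_sub_one₀ h0]
        field_simp [I_ne_zero]
      rw [e, intervalIntegral.integral_sub, intervalIntegral.integral_const_mul,
        intervalIntegral.integral_const_mul, ih (l + 1) k, ih (l - 1) k]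
      · ring
      · obtain ⟨q, hq⟩ := ho; exact ⟨q - 1, by omega⟩
      · omega
      · obtain ⟨q, hq⟩ := ho; exact ⟨q, by omega⟩
      · omega
      · exact (continuous_const.mul (ci 0 j (l + 1) k)).intervalIntegrable _ _
      · exact (continuous_const.mul (ci 0 j (l - 1) k)).intervalIntegrable _ _
  induction i with
  | zero =>
    intro l k ho hle
    exact h1 j l k (by simpa using ho) (by simpa using hle)
  | succ i ih =>
    intro l k ho hle
    push_cast at ho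
    have e : (fun t => (((ta φ t).re : ℝ) : ℂ) ^ (i + 1) * (((ta φ t).im : ℝ) : ℂ) ^ j *
        (ta φ t ^ l * (pa φ t : ℂ) ^ k * (‖xd φ t‖ : ℂ))) = fun t => (1 / 2) *
        ((((ta φ t).re : ℝ) : ℂ) ^ i * (((ta φ t).im : ℝ) : ℂ) ^ j *
        (ta φ t ^ (l + 1) * (pa φ t : ℂ) ^ k * (‖xd φ t‖ : ℂ))) + (1 / 2) *
        ((((ta φ t).re : ℝ) : ℂ) ^ i * (((ta φ t).im : ℝ) : ℂ) ^ j *
        (ta φ t ^ (l - 1) * (pa φ t : ℂ) ^ k * (‖xd φ t‖ : ℂ))) := by
      funext t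
      have h0 := ta_ne hr hφ hinj t
      rw [pow_succ (((ta φ t).re : ℝ) : ℂ) i]
      conv_lhs =>
        arg 1
        arg 1
        arg 2
        rw [hre t]
      rw [zpow_add_one₀ h0, zpow_sub_one₀ h0]
      field_simp
    rw [e, intervalIntegral.integral_add, intervalIntegral.integral_const_mul,
      intervalIntegral.integral_const_mul, ih (l + 1) k, ih (l - 1) k]
    · ring
    · obtain ⟨q, hq⟩ := ho; exact ⟨q - 1, by omega⟩
    · omega
    · obtain ⟨q, hq⟩ := ho; exact ⟨q, by omega⟩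
    · omega
    · exact (continuous_const.mul (ci i j (l + 1) k)).intervalIntegrable _ _
    · exact (continuous_const.mul (ci i j (l - 1) k)).intervalIntegrable _ _

end

end Pool.Agent.Helper28.SC
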