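import Pool.Agent.Helper28.SC.Mom

/-!
# The second coefficient, and the sum rule
-/

set_option autoImplicit false

open Complex MeasureTheory Metric Set Filter Topology ComplexConjugate
open scoped ContDiff
open Pool.Agent.E8helper4.FV (xx xd om)
open Pool.Agent.Results.MP_83fd13_an.BranchSingularities (Solvable)

namespace Pool.Agent.Helper28.SC

/-- Vieta's formula for a polynomial of degree `m` without constant term, with `m - 1` given positive
roots -/
lemma poly_vieta (q : ℕ → ℂ) (N : ℕ) (A : Finset ℝ) (hcard : A.card = N) (hN : 1 ≤ N)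
    (hA : ∀ a ∈ A, ∑ i ∈ Finset.range (N + 1), (a : ℂ) ^ i * q i = 0) :
    q (N - 1) = -(((∑ a ∈ A, a : ℝ)) : ℂ) * q N := by
  classical
  obtain ⟨p, hp⟩ : ∃ p : Polynomial ℂ, p = ∑ i ∈ Finset.range (N + 1),
    Polynomial.C (q i) * Polynomial.X ^ i := ⟨_, rfl⟩
  obtain ⟨B, hB⟩ : ∃ B : Finset ℂ, B = A.map ⟨fun a : ℝ => (a : ℂ), Complex.ofReal_injective⟩ :=
    ⟨_, rfl⟩
  have hBc : B.card = N := by rw [hB, Finset.card_map, hcard]
  obtain ⟨Q, hQ⟩ : ∃ Q : Polynomial ℂ, Q = ∏ b ∈ B, (Polynomial.X - Polynomial.C b) := ⟨_, rfl⟩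
  have hQm : Q.Monic := by
    rw [hQ]; exact Polynomial.monic_prod_of_monic _ _ fun b _ => Polynomial.monic_X_sub_C b
  have hQd : Q.natDegree = N := by
    rw [hQ, Polynomial.natDegree_prod_of_monic _ _ fun b _ => Polynomial.monic_X_sub_C b]
    simp [hBc]
  have hcoef : ∀ k, k ≤ N → p.coeff k = q k := by
    intro k hk
    rw [hp, Polynomial.finsetSum_coeff, Finset.sum_eq_single k]
    · rw [Polynomial.coeff_C_mul_X_pow, if_pos rfl]
    · intro i _ hi
      rw [Polynomial.coeff_C_mul_X_pow, if_neg (Ne.symm hi)]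
    · intro h
      rw [Finset.mem_range] at h
      omega
  have hcoef2 : ∀ k, N < k → p.coeff k = 0 := by
    intro k hk
    rw [hp, Polynomial.finsetSum_coeff]
    refine Finset.sum_eq_zero fun i hi => ?_
    rw [Finset.mem_range] at hi
    rw [Polynomial.coeff_C_mul_X_pow, if_neg (by omega)]
  have hz : p - Polynomial.C (q N) * Q = 0 := by
    apply Polynomial.eq_zero_of_degree_lt_of_eval_finset_eq_zero B
    · rw [hBc, Polynomial.degree_lt_iff_coeff_zero]
      intro k hk
      rw [Polynomial.coeff_sub, Polynomial.coeff_C_mul]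
      rcases hk.lt_or_eq with h | h
      · rw [hcoef2 k h, Polynomial.coeff_eq_zero_of_natDegree_lt (by omega), mul_zero, sub_zero]
      · subst h
        have : Q.coeff N = 1 := by
          have := hQm.coeff_natDegree
          rwa [hQd] at this
        rw [hcoef N le_rfl, this, mul_one, sub_self]
    · intro x hx
      rw [Polynomial.eval_sub, Polynomial.eval_mul]
      have h1 : Polynomial.eval x Q = 0 := by
        rw [hQ, Polynomial.eval_prod]
        exact Finset.prod_eq_zero hx (by simp)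
      rw [h1, mul_zero, sub_zero]
      rw [hB, Finset.mem_map] at hx
      obtain ⟨a, ha, rfl⟩ := hx
      rw [hp, Polynomial.eval_finsetSum, ← hA a ha]
      refine Finset.sum_congr rfl fun i _ => ?_
      rw [Polynomial.eval_mul, Polynomial.eval_C, Polynomial.eval_pow, Polynomial.eval_X]
      exact mul_comm _ _
  have h2 : p.coeff (N - 1) = q N * Q.coeff (N - 1) := by
    rw [sub_eq_zero.1 hz, Polynomial.coeff_C_mul]
  have h3 : Q.coeff (N - 1) = -∑ b ∈ B, b := by
    have := Polynomial.prod_X_sub_C_coeff_card_pred B (fun b => b) (by omega)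
    rw [hBc] at this
    rw [hQ]; exact this
  have h4 : ∑ b ∈ B, b = (((∑ a ∈ A, a : ℝ)) : ℂ) := by
    rw [hB, Finset.sum_map]
    push_cast
    rfl
  rw [hcoef (N - 1) (by omega), h3, h4] at h2
  rw [h2]; ring

/-- `S = conj τ / τ` -/
noncomputable def Sf (φ : ℂ → ℂ) (t : ℝ) : ℂ := conj (xd φ t) / xd φ t

section
variable {φ : ℂ → ℂ} {r : ℝ} (hr : 1 < r) (hφ : DifferentiableOn ℂ φ (ball 0 r))
  (hne : ∀ t, xd φ t ≠ 0)
include hr hφ hne

lemma Sf_cd : ContDiff ℝ ∞ (Sf φ) := by
  have h : Sf φ = cf φ (2 * 1) 1 := by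
    funext t; rw [cf_lead, pow_one]; rfl
  rw [h]; exact cf_cd hr hφ hne _ _

lemma Sf_der (t : ℝ) : HasDerivAt (Sf φ) (deriv (Sf φ) t) t :=
  ((Sf_cd hr hφ hne).differentiable (by simp) t).hasDerivAt

lemma Sf_per : Sf φ (2 * Real.pi) = Sf φ 0 := by
  unfold Sf
  have h : xd φ (2 * Real.pi) = xd φ 0 := by
    unfold xd
    push_cast
    rw [exp_two_pi_mul_I]; simp
  rw [h]

/-- the coefficient of `a^(m+1)` in the jet of index `2m+3` -/
lemma cf_o (m : ℕ) : ∀ t, cf φ (2 * m + 3) (m + 1) t =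
    ((m + 2).choose 2 : ℂ) * Sf φ t ^ m * deriv (Sf φ) t / xd φ t := by
  induction m with
  | zero =>
    intro t
    show (deriv (cf φ 2 1) t + conj (xd φ t) * cf φ 1 0 t) / xd φ t = _
    have h1 : cf φ 2 1 = Sf φ := by
      funext t
      have := cf_lead φ 1 t
      rw [pow_one] at this
      exact this
    have h2 : cf φ 1 0 t = 0 := rfl
    rw [h1, h2]
    simp
  | succ m ih =>
    intro t
    show (deriv (cf φ (2 * m + 4) (m + 2)) t + conj (xd φ t) * cf φ (2 * m + 3) (m + 1) t) /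
      xd φ t = _
    have h1 : cf φ (2 * m + 4) (m + 2) = fun t => Sf φ t ^ (m + 2) := by
      funext t
      exact cf_lead φ (m + 2) t
    have h2 : deriv (fun t => Sf φ t ^ (m + 2)) t = (m + 2 : ℂ) * Sf φ t ^ (m + 1) *
        deriv (Sf φ) t := by
      have := ((Sf_der hr hφ hne t).fun_pow (m + 2)).deriv
      rw [this]
      push_cast
      ring
    have h3 : conj (xd φ t) = Sf φ t * xd φ t := by
      unfold Sf
      rw [div_mul_cancel₀ _ (hne t)]
    have h4 : (((m + 1 + 2).choose 2 : ℕ) : ℂ) = ((m + 2).choose 2 : ℂ) + (m + 2 : ℂ) := by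
      have : (m + 1 + 2).choose 2 = (m + 2) + (m + 2).choose 2 := by
        rw [show m + 1 + 2 = (m + 2) + 1 by ring, Nat.choose_succ_succ' (m + 2) 1,
          Nat.choose_one_right]
      rw [this]
      push_cast
      ring
    have h5 := hne t
    rw [h1, h2, ih t, h3, h4]
    field_simp
    ring

/-- the weighted integrals of the second coefficients -/
lemma cf_b (m : ℕ) : ∀ p : ℕ,
    ∫ t in (0 : ℝ)..(2 * Real.pi), cf φ (2 * m + 4) (m + 1) t * Sf φ t ^ p * conj (xd φ t) =
    -(((m + 4).choose 4 : ℂ) + p * ((m + 3).choose 3 : ℂ)) *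
      ∫ t in (0 : ℝ)..(2 * Real.pi), Sf φ t ^ (m + p) * deriv (Sf φ) t ^ 2 / xd φ t := by
  have hS := Sf_cd hr hφ hne
  have cS : Continuous (Sf φ) := hS.continuous
  have cS' : Continuous (deriv (Sf φ)) := (contDiff_infty_iff_deriv.1 hS).2.continuous
  have cx := Pool.Agent.E8helper4.FV.xd_cont hr hφ
  have cX : Continuous fun t => conj (xd φ t) := Complex.continuous_conj.comp cx
  have cfc : ∀ k i, Continuous (cf φ k i) := fun k i => (cf_cd hr hφ hne k i).continuous
  have cfd : ∀ k i t, HasDerivAt (cf φ k i) (deriv (cf φ k i) t) t := fun k i t =>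
    ((cf_cd hr hφ hne k i).differentiable (by simp) t).hasDerivAt
  have cfdc : ∀ k i, Continuous (deriv (cf φ k i)) := fun k i =>
    (contDiff_infty_iff_deriv.1 (cf_cd hr hφ hne k i)).2.continuous
  have hxp : xd φ (2 * Real.pi) = xd φ 0 := by
    unfold xd
    push_cast
    rw [exp_two_pi_mul_I]; simp
  -- integration by parts
  have key : ∀ m p : ℕ, ∫ t in (0 : ℝ)..(2 * Real.pi),
      deriv (cf φ (2 * m + 3) (m + 1)) t * Sf φ t ^ (p + 1) =
      -((p + 1 : ℂ) * ((m + 2).choose 2 : ℂ)) *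
        ∫ t in (0 : ℝ)..(2 * Real.pi), Sf φ t ^ (m + p) * deriv (Sf φ) t ^ 2 / xd φ t := by
    intro m p
    have hd : ∀ t, HasDerivAt (fun t => cf φ (2 * m + 3) (m + 1) t * Sf φ t ^ (p + 1))
        (deriv (cf φ (2 * m + 3) (m + 1)) t * Sf φ t ^ (p + 1) +
          ((p + 1 : ℂ) * ((m + 2).choose 2 : ℂ)) *
            (Sf φ t ^ (m + p) * deriv (Sf φ) t ^ 2 / xd φ t)) t := by
      intro t
      have h1 := (cfd (2 * m + 3) (m + 1) t).mul ((Sf_der hr hφ hne t).fun_pow (p + 1))
      refine h1.congr_deriv ?_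
      rw [cf_o hr hφ hne m t]
      have h5 := hne t
      simp only [Nat.add_sub_cancel]
      push_cast
      field_simp
      ring
    have i1 : IntervalIntegrable (fun t => deriv (cf φ (2 * m + 3) (m + 1)) t *
        Sf φ t ^ (p + 1)) volume 0 (2 * Real.pi) :=
      ((cfdc _ _).mul (cS.pow _)).intervalIntegrable _ _
    have i2 : IntervalIntegrable (fun t => ((p + 1 : ℂ) * ((m + 2).choose 2 : ℂ)) *
        (Sf φ t ^ (m + p) * deriv (Sf φ) t ^ 2 / xd φ t)) volume 0 (2 * Real.pi) :=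
      (continuous_const.mul (((cS.pow _).mul (cS'.pow 2)).div cx hne)).intervalIntegrable _ _
    have h2 := intervalIntegral.integral_eq_sub_of_hasDerivAt (fun t _ => hd t) (i1.add i2)
    have h3 : cf φ (2 * m + 3) (m + 1) (2 * Real.pi) * Sf φ (2 * Real.pi) ^ (p + 1) =
        cf φ (2 * m + 3) (m + 1) 0 * Sf φ 0 ^ (p + 1) := by
      have hS'p : deriv (Sf φ) (2 * Real.pi) = deriv (Sf φ) 0 := by
        have hper : ∀ t, Sf φ (t + 2 * Real.pi) = Sf φ t := by
          intro t
          unfold Sf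
          have h : xd φ (t + 2 * Real.pi) = xd φ t := by
            unfold xd
            rw [Pool.Agent.E8helper52.FV.e_per]
          rw [h]
        have e : (fun t => Sf φ (t + 2 * Real.pi)) = Sf φ := funext hper
        have := deriv_comp_add_const (Sf φ) (2 * Real.pi) 0
        rw [e, zero_add] at this
        exact this.symm
      rw [cf_o hr hφ hne, cf_o hr hφ hne, Sf_per hr hφ hne, hS'p, hxp]
    rw [h3, sub_self, intervalIntegral.integral_add i1 i2,
      intervalIntegral.integral_const_mul] at h2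
    linear_combination h2
  have step : ∀ k i p : ℕ, (fun t => cf φ (k + 2) (i + 1) t * Sf φ t ^ p * conj (xd φ t)) =
      fun t => deriv (cf φ (k + 1) (i + 1)) t * Sf φ t ^ (p + 1) +
        cf φ k i t * Sf φ t ^ (p + 1) * conj (xd φ t) := by
    intro k i p
    funext t
    show (deriv (cf φ (k + 1) (i + 1)) t + conj (xd φ t) * cf φ k i t) / xd φ t * Sf φ t ^ p *
      conj (xd φ t) = _
    have h3 : conj (xd φ t) = Sf φ t * xd φ t := by
      unfold Sf
      rw [div_mul_cancel₀ _ (hne t)]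
    have h5 := hne t
    rw [h3]
    field_simp
    ring
  induction m with
  | zero =>
    intro p
    rw [step (2 * 0 + 2) 0 p]
    have h2 : (fun t => deriv (cf φ (2 * 0 + 2 + 1) (0 + 1)) t * Sf φ t ^ (p + 1) +
        cf φ (2 * 0 + 2) 0 t * Sf φ t ^ (p + 1) * conj (xd φ t)) =
        fun t => deriv (cf φ (2 * 0 + 3) (0 + 1)) t * Sf φ t ^ (p + 1) := by
      funext t
      have : cf φ (2 * 0 + 2) 0 t = 0 := by
        have := cf_zero φ 1
        exact congrFun this t
      rw [this]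
      ring_nf
    rw [h2, key 0 p]
    simp
    left
    ring
  | succ m ih =>
    intro p
    rw [show 2 * (m + 1) + 4 = (2 * m + 4) + 2 by ring, step (2 * m + 4) (m + 1) p]
    have i1 : IntervalIntegrable (fun t => deriv (cf φ (2 * m + 4 + 1) (m + 1 + 1)) t *
        Sf φ t ^ (p + 1)) volume 0 (2 * Real.pi) :=
      ((cfdc _ _).mul (cS.pow _)).intervalIntegrable _ _
    have i2 : IntervalIntegrable (fun t => cf φ (2 * m + 4) (m + 1) t * Sf φ t ^ (p + 1) *
        conj (xd φ t)) volume 0 (2 * Real.pi) :=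
      (((cfc _ _).mul (cS.pow _)).mul cX).intervalIntegrable _ _
    have k1 := key (m + 1) p
    rw [show 2 * (m + 1) + 3 = 2 * m + 4 + 1 by ring] at k1
    rw [intervalIntegral.integral_add i1 i2, k1, ih (p + 1)]
    have e1 : m + 1 + p = m + (p + 1) := by ring
    rw [e1]
    have e2 : (((m + 1 + 4).choose 4 : ℕ) : ℂ) = ((m + 4).choose 3 : ℂ) + ((m + 4).choose 4 : ℂ) := by
      rw [show m + 1 + 4 = (m + 4) + 1 by ring, Nat.choose_succ_succ' (m + 4) 3]
      push_cast; ring
    have e3 : (((m + 1 + 3).choose 3 : ℕ) : ℂ) = ((m + 3).choose 2 : ℂ) + ((m + 3).choose 3 : ℂ) := by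
      rw [show m + 1 + 3 = (m + 3) + 1 by ring, Nat.choose_succ_succ' (m + 3) 2]
      push_cast; ring
    have e4 : (((m + 4).choose 3 : ℕ) : ℂ) = ((m + 3).choose 2 : ℂ) + ((m + 3).choose 3 : ℂ) := by
      rw [show m + 4 = (m + 3) + 1 by ring, Nat.choose_succ_succ' (m + 3) 2]
      push_cast; ring
    have e5 : (((m + 1 + 2).choose 2 : ℕ) : ℂ) = ((m + 3).choose 2 : ℂ) := by
      rw [show m + 1 + 2 = m + 3 by ring]
    rw [e2, e3, e5]
    push_cast
    ring

end

end Pool.Agent.Helper28.SC
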