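import Pool.Agent.Helper28.SC.Sub
import Pool.Graph.R_pool_sql_team_seeded_b677cdb8.E8helper52.FV.C34

/-!
# The sum rule
-/

set_option autoImplicit false

open Complex MeasureTheory Metric Set Filter Topology ComplexConjugate
open scoped ContDiff
open Pool.Agent.E8helper4.FV (xx xd om kap)
open Pool.Agent.Results.MP_83fd13_an.BranchSingularities (Solvable)

namespace Pool.Agent.Helper28.SC

section
variable {φ : ℂ → ℂ} {r : ℝ} (hr : 1 < r) (hφ : DifferentiableOn ℂ φ (ball 0 r))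
  (hinj : InjOn φ (ball 0 r))
include hr hφ hinj

lemma xd_der2 (t : ℝ) : HasDerivAt (xd φ) (xd φ t * (I * (1 + exp ((t : ℂ) * I) *
    deriv (deriv φ) (exp ((t : ℂ) * I)) / deriv φ (exp ((t : ℂ) * I))))) t := by
  have h1 := (Pool.Agent.E8helper52.FV.e_der t).const_mul I
  have h2 := Pool.Agent.E8helper52.FV.d1_der hr (hφ.deriv isOpen_ball) t
  have h3 := h1.mul h2
  have hn := Pool.Agent.E8helper52.FV.dne hr hφ hinj t
  refine h3.congr_deriv ?_
  unfold xd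
  generalize deriv (deriv φ) (exp ((t : ℂ) * I)) = d2
  generalize deriv φ (exp ((t : ℂ) * I)) = d1 at hn
  generalize exp ((t : ℂ) * I) = w
  field_simp

lemma Sf_om (t : ℝ) : deriv (Sf φ) t = -2 * I * (om φ t : ℂ) * Sf φ t := by
  have hne := xd_ne hr hφ hinj
  have h1 := xd_der2 hr hφ hinj t
  have h2 : HasDerivAt (fun t => conj (xd φ t)) (conj (xd φ t * (I * (1 + exp ((t : ℂ) * I) *
    deriv (deriv φ) (exp ((t : ℂ) * I)) / deriv φ (exp ((t : ℂ) * I)))))) t := h1.star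
  have h3 : HasDerivAt (Sf φ) _ t := h2.div h1 (hne t)
  rw [h3.deriv]
  obtain ⟨L, hL⟩ : ∃ L : ℂ, L = 1 + exp ((t : ℂ) * I) *
    deriv (deriv φ) (exp ((t : ℂ) * I)) / deriv φ (exp ((t : ℂ) * I)) := ⟨_, rfl⟩
  have h4 : (om φ t : ℂ) = (L + conj L) / 2 := by
    rw [Complex.add_conj, hL]
    unfold Pool.Agent.E8helper4.FV.om
    push_cast
    ring
  rw [h4, ← hL, map_mul, map_mul, conj_I]
  unfold Sf
  have h5 := hne t
  field_simp
  ring

/-- the curvature integrals -/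
lemma K_int (q : ℕ) : ∫ t in (0 : ℝ)..(2 * Real.pi), Sf φ t ^ q * deriv (Sf φ) t ^ 2 / xd φ t =
    -4 * ∫ t in (0 : ℝ)..(2 * Real.pi), (kap φ t : ℂ) ^ 2 * (ta φ t) ^ (-(2 * q + 5 : ℤ)) *
      (‖xd φ t‖ : ℂ) := by
  rw [← intervalIntegral.integral_const_mul]
  refine intervalIntegral.integral_congr fun t _ => ?_
  show Sf φ t ^ q * deriv (Sf φ) t ^ 2 / xd φ t = -4 * ((kap φ t : ℂ) ^ 2 *
    (ta φ t) ^ (-(2 * q + 5 : ℤ)) * (‖xd φ t‖ : ℂ))
  have hne := xd_ne hr hφ hinj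
  have h1 : Sf φ t = (ta φ t) ^ (-2 : ℤ) := S_ta hr hφ hinj t
  have h2 := ta_ne hr hφ hinj t
  have h3 := nv hr hφ hinj t
  have h4 : (kap φ t : ℂ) = (om φ t : ℂ) / (‖xd φ t‖ : ℂ) := by
    unfold Pool.Agent.E8helper4.FV.kap
    have : ‖xd φ t‖ = ‖deriv φ (exp ((t : ℂ) * I))‖ := by
      unfold Pool.Agent.E8helper4.FV.xd
      rw [norm_mul, norm_mul, norm_I, Complex.norm_exp_ofReal_mul_I, one_mul, one_mul]
    rw [this]
    push_cast
    rfl
  rw [Sf_om hr hφ hinj, h1, h4, xd_ta hr hφ hinj t, norm_mul, ta_norm hr hφ hinj, one_mul,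
    Complex.norm_real, norm_norm]
  have h5 : (ta φ t ^ (-2 : ℤ)) ^ q = ta φ t ^ (-2 * (q : ℤ)) := by
    rw [← zpow_natCast, ← zpow_mul]
  have h6 : (ta φ t) ^ (-(2 * q + 5 : ℤ)) = ta φ t ^ (-2 * (q : ℤ)) * (ta φ t ^ 5)⁻¹ := by
    rw [show (-(2 * q + 5 : ℤ)) = -2 * (q : ℤ) + (-5) by ring, zpow_add₀ h2]
    congr 1
  have h7 : ta φ t ^ (-2 : ℤ) = (ta φ t ^ 2)⁻¹ := by
    rw [zpow_neg]; norm_cast
  rw [h5, h6, h7]
  field_simp
  have h8 : I ^ 2 = -1 := I_sq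
  linear_combination (4 * (om φ t : ℂ) ^ 2) * h8

/-- the sum rule, negative exponents -/
lemma sum_rule (m : ℕ) (A : Finset ℝ) (hcard : A.card = m + 1)
    (hA : ∀ lam ∈ A, 0 < lam ∧ Solvable (φ '' ball 0 1) lam) :
    ((∑ lam ∈ A, lam : ℝ) : ℂ) * TM φ (-(2 * m + 5 : ℤ)) 0 =
      -16 * ((m + 4).choose 4 : ℂ) * ∫ t in (0 : ℝ)..(2 * Real.pi),
        (kap φ t : ℂ) ^ 2 * (ta φ t) ^ (-(2 * m + 5 : ℤ)) * (‖xd φ t‖ : ℂ) := by
  classical
  have hne := xd_ne hr hφ hinj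
  have cX : Continuous fun t => conj (xd φ t) :=
    Complex.continuous_conj.comp (Pool.Agent.E8helper4.FV.xd_cont hr hφ)
  have cfc : ∀ k i, Continuous (cf φ k i) := fun k i => (cf_cd hr hφ hne k i).continuous
  have h1 := poly_vieta (fun i => ∫ t in (0 : ℝ)..(2 * Real.pi),
    cf φ (2 * m + 4) (i + 1) t * conj (xd φ t)) (m + 1)
    (A.map ⟨fun x : ℝ => x / 4, fun x y h => by
      have h' : x / 4 = y / 4 := h
      linarith⟩) (by rwa [Finset.card_map]) (by omega) ?_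
  · simp only [Nat.add_sub_cancel] at h1
    have h2 := cf_b hr hφ hne m 0
    simp only [pow_zero, mul_one, add_zero, Nat.cast_zero, zero_mul] at h2
    rw [K_int hr hφ hinj] at h2
    have h3 : ∫ t in (0 : ℝ)..(2 * Real.pi), cf φ (2 * m + 4) (m + 1 + 1) t * conj (xd φ t) =
        TM φ (-(2 * m + 5 : ℤ)) 0 := by
      unfold TM
      refine intervalIntegral.integral_congr fun t _ => ?_
      show cf φ (2 * (m + 2)) (m + 2) t * conj (xd φ t) =
        ta φ t ^ (-(2 * m + 5 : ℤ)) * (pa φ t : ℂ) ^ 0 * (‖xd φ t‖ : ℂ)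
      have h0 := ta_ne hr hφ hinj t
      rw [cf_lead, S_ta hr hφ hinj, xdc_ta hr hφ hinj, pow_zero, mul_one,
        ← zpow_natCast (ta φ t ^ (-2 : ℤ)), ← zpow_mul]
      have e5 : (-(2 * m + 5 : ℤ)) = -2 * ((m + 2 : ℕ) : ℤ) + (-1) := by push_cast; ring
      rw [e5, zpow_add₀ h0, zpow_neg_one]
      ring
    rw [h3, h2, Finset.sum_map] at h1
    have h4 : (((∑ x ∈ A, (⟨fun x : ℝ => x / 4, fun x y h => by
      have h' : x / 4 = y / 4 := h
      linarith⟩ : ℝ ↪ ℝ) x : ℝ)) : ℂ) = ((∑ lam ∈ A, lam : ℝ) : ℂ) / 4 := by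
      have : ∑ x ∈ A, (⟨fun x : ℝ => x / 4, fun x y h => by
        have h' : x / 4 = y / 4 := h
        linarith⟩ : ℝ ↪ ℝ) x = (∑ lam ∈ A, lam) / 4 := by
        rw [Finset.sum_div]
        rfl
      rw [this]
      push_cast; rfl
    rw [h4] at h1
    linear_combination (4 : ℂ) * h1
  · intro a ha
    rw [Finset.mem_map] at ha
    obtain ⟨lam, hlam, rfl⟩ := ha
    obtain ⟨hl, hS⟩ := hA lam hlam
    obtain ⟨U, u1, u2, u3, u4, u5, u6, u7, u8⟩ := main_U hr hφ hinj hl hS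
    have ha : 0 < lam / 4 := by positivity
    have ha' : ((lam / 4 : ℝ) : ℂ) ≠ 0 := by exact_mod_cast ha.ne'
    show ∑ i ∈ Finset.range (m + 1 + 1), ((lam / 4 : ℝ) : ℂ) ^ i * _ = 0
    have h5 := u6 0 (-((2 * m + 4 : ℕ) : ℤ))
    simp only [Function.iterate_zero, id_eq] at h5
    have e : (fun t => U (-((2 * m + 4 : ℕ) : ℤ)) t * conj (xd φ t)) = fun t =>
        ∑ i ∈ Finset.range (m + 1 + 1), ((lam / 4 : ℝ) : ℂ) ^ (i + 1) *
          (cf φ (2 * m + 4) (i + 1) t * conj (xd φ t)) := by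
      funext t
      rw [U_neg hr hφ hne u1 u2 u3 (2 * m + 4) t]
      have hs : ∑ i ∈ Finset.range (2 * m + 4 + 1), ((lam / 4 : ℝ) : ℂ) ^ i *
          cf φ (2 * m + 4) i t = ∑ i ∈ Finset.range (m + 1 + 1 + 1), ((lam / 4 : ℝ) : ℂ) ^ i *
          cf φ (2 * m + 4) i t := by
        symm
        refine Finset.sum_subset ?_ ?_
        · intro i hi
          rw [Finset.mem_range] at hi ⊢
          omega
        · intro i hi hi2
          rw [Finset.mem_range] at hi hi2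
          rw [cf_hi φ (2 * m + 4) i (by omega), mul_zero]
      rw [hs, Finset.sum_range_succ']
      have hz : cf φ (2 * m + 4) 0 t = 0 := congrFun (cf_zero φ (2 * m + 3)) t
      rw [hz, mul_zero, add_zero, Finset.sum_mul]
      refine Finset.sum_congr rfl fun i _ => ?_
      ring
    rw [e, intervalIntegral.integral_finsetSum] at h5
    · have h6 : ((lam / 4 : ℝ) : ℂ) * ∑ i ∈ Finset.range (m + 1 + 1), ((lam / 4 : ℝ) : ℂ) ^ i *
          ∫ t in (0 : ℝ)..(2 * Real.pi), cf φ (2 * m + 4) (i + 1) t * conj (xd φ t) = 0 := by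
        rw [← h5, Finset.mul_sum]
        refine Finset.sum_congr rfl fun i _ => ?_
        rw [intervalIntegral.integral_const_mul, pow_succ]
        ring
      exact (mul_eq_zero.1 h6).resolve_left ha'
    · intro i _
      exact (continuous_const.mul ((cfc _ _).mul cX)).intervalIntegrable _ _

end

end Pool.Agent.Helper28.SC
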