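import Pool.Agent.Helper28.SC.Ker

/-!
# The jets of a solution of (S) on the boundary

`U n`, `n ≤ 0`, is `∂_z^(-n) u` on the boundary, normalised by `u = 1`; for `n ≥ 0` it is
`(-a)^(-n) ∂_ζ^n u`.
-/

set_option autoImplicit false

open Complex MeasureTheory Metric Set Filter Topology ComplexConjugate
open Pool.Agent.E8helper4.FV (xx xd HH)
open Pool.Agent.E8helper13.FV (KK)
open Pool.Agent.Results.MP_83fd13_an.BranchSingularities (Solvable)

namespace Pool.Agent.Helper28.SC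

/-- the chain rule for sequences on the circle -/
def Chn (a : ℝ) (φ : ℂ → ℂ) (F : ℤ → ℝ → ℂ) : Prop := ∀ (n : ℤ) (t : ℝ),
  HasDerivAt (F n) (xd φ t * F (n - 1) t - (a : ℂ) * conj (xd φ t) * F (n + 1) t) t

/-- the rotation of sequences on the circle -/
noncomputable def Rf (a : ℝ) (φ : ℂ → ℂ) (F : ℤ → ℝ → ℂ) (n : ℤ) (t : ℝ) : ℂ :=
  xx φ t * F (n - 1) t + (a : ℂ) * conj (xx φ t) * F (n + 1) t - (n : ℂ) * F n t

/-- the conjugate sequence -/
noncomputable def Cj (a : ℝ) (F : ℤ → ℝ → ℂ) (n : ℤ) (t : ℝ) : ℂ :=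
  (-(a : ℂ)) ^ (-n) * conj (F (-n) t)

lemma rf_cj {a : ℝ} (ha : 0 < a) (φ : ℂ → ℂ) (F : ℤ → ℝ → ℂ) (n : ℤ) (t : ℝ) :
    Rf a φ (Cj a F) n t = -Cj a (Rf a φ F) n t := by
  have ha' : -(a : ℂ) ≠ 0 := neg_ne_zero.2 (by exact_mod_cast ha.ne')
  have ha2 : (a : ℂ) ≠ 0 := by exact_mod_cast ha.ne'
  unfold Rf Cj
  have e1 : -(n - 1) = -n + 1 := by ring
  have e2 : -(n + 1) = -n - 1 := by ring
  rw [e1, e2, zpow_add₀ ha', zpow_sub₀ ha', zpow_one]
  simp only [map_add, map_sub, map_mul, conj_conj, conj_ofReal, map_intCast]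
  push_cast
  field_simp
  ring

lemma cj_chn {a : ℝ} (ha : 0 < a) {φ : ℂ → ℂ} {F : ℤ → ℝ → ℂ} (h : Chn a φ F) :
    Chn a φ (Cj a F) := by
  have ha' : -(a : ℂ) ≠ 0 := neg_ne_zero.2 (by exact_mod_cast ha.ne')
  have ha2 : (a : ℂ) ≠ 0 := by exact_mod_cast ha.ne'
  intro n t
  have h1 : HasDerivAt (fun t => conj (F (-n) t)) (conj (xd φ t * F (-n - 1) t -
      (a : ℂ) * conj (xd φ t) * F (-n + 1) t)) t := (h (-n) t).star
  have h2 := h1.const_mul ((-(a : ℂ)) ^ (-n))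
  refine h2.congr_deriv ?_
  unfold Cj
  have e1 : -(n - 1) = -n + 1 := by ring
  have e2 : -(n + 1) = -n - 1 := by ring
  rw [e1, e2, zpow_add₀ ha', zpow_sub₀ ha', zpow_one]
  simp only [map_sub, map_mul, conj_conj, conj_ofReal]
  field_simp
  ring

/-- `U` is a sum of a Goursat sum and a conjugate Goursat sum -/
lemma main_U {φ : ℂ → ℂ} {r lam : ℝ} (hr : 1 < r) (hφ : DifferentiableOn ℂ φ (ball 0 r))
    (hinj : InjOn φ (ball 0 r)) (hlam : 0 < lam) (hS : Solvable (φ '' ball 0 1) lam) :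
    ∃ U : ℤ → ℝ → ℂ, Chn (lam / 4) φ U ∧ (∀ t, U 0 t = 1) ∧ (∀ t, U 1 t = 0) ∧
      (∀ n, Continuous (U n)) ∧
      (∀ (j : ℕ) (n : ℤ), Continuous ((Rf (lam / 4) φ)^[j] U n)) ∧
      (∀ (j : ℕ) (n : ℤ), ∫ t in (0 : ℝ)..(2 * Real.pi),
        (Rf (lam / 4) φ)^[j] U n t * conj (xd φ t) = 0) ∧
      (∀ (j : ℕ), Chn (lam / 4) φ ((Rf (lam / 4) φ)^[j] U)) ∧
      (∀ (j : ℕ) (n : ℤ), (Rf (lam / 4) φ)^[j] U n (2 * Real.pi) =
        (Rf (lam / 4) φ)^[j] U n 0) := by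
  obtain ⟨Nu, hNu, v0, v1, v2⟩ := fam_ex hr hφ hinj hlam hS
  have ha : 0 < lam / 4 := by positivity
  set a : ℝ := lam / 4 with ha_def
  have ha' : -(a : ℂ) ≠ 0 := neg_ne_zero.2 (by exact_mod_cast ha.ne')
  have hK := gs_nk hr hφ a 0
  have hN' := gs_sub hNu hK
  set N' : ℤ → ℂ → ℂ := fun n w => Nu n w - NK a φ 0 n w with hN'def
  -- general form
  have chnE : ∀ {N : ℤ → ℂ → ℂ}, Gs φ r N → Chn a φ (Ev a φ N) :=
    fun h n t => ev_der hr hφ a h n t
  have hgsj : ∀ {N : ℤ → ℂ → ℂ}, Gs φ r N → ∀ j : ℕ, Gs φ r ((Rt φ)^[j] N) := by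
    intro N h j
    induction j with
    | zero => exact h
    | succ j ih => rw [Function.iterate_succ_apply']; exact gs_rt hr hφ ih
  have hrfE : ∀ {N : ℤ → ℂ → ℂ}, Gs φ r N → Rf a φ (Ev a φ N) = Ev a φ (Rt φ N) := by
    intro N h
    funext n t
    rw [ev_rt hr hφ a h n t]; rfl
  set U : ℤ → ℝ → ℂ := fun n t => Ev a φ N' n t + Cj a (Ev a φ Nu) n t with hU
  have hiter : ∀ j : ℕ, (Rf a φ)^[j] U = fun n t => Ev a φ ((Rt φ)^[j] N') n t +
      (-1) ^ j * Cj a (Ev a φ ((Rt φ)^[j] Nu)) n t := by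
    intro j
    induction j with
    | zero => funext n t; simp [hU]
    | succ j ih =>
      rw [Function.iterate_succ_apply', ih]
      funext n t
      have e1 := congrFun (congrFun (hrfE (hgsj hN' j)) n) t
      have e2 := congrFun (congrFun (hrfE (hgsj hNu j)) (-n)) t
      have e3 := rf_cj ha φ (Ev a φ ((Rt φ)^[j] Nu)) n t
      rw [Function.iterate_succ_apply', Function.iterate_succ_apply', ← e1]
      have e4 : Cj a (Ev a φ (Rt φ ((Rt φ)^[j] Nu))) n t =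
          Cj a (Rf a φ (Ev a φ ((Rt φ)^[j] Nu))) n t := by
        unfold Cj; rw [e2]
      rw [e4, pow_succ, mul_neg_one, neg_mul, ← mul_neg, ← e3]
      unfold Rf
      ring
  have contE : ∀ {N : ℤ → ℂ → ℂ}, Gs φ r N → ∀ n, Continuous (Ev a φ N n) :=
    fun h n => ev_cont hr hφ a h n
  have contC : ∀ {N : ℤ → ℂ → ℂ}, Gs φ r N → ∀ n, Continuous (Cj a (Ev a φ N) n) := by
    intro N h n
    unfold Cj
    exact continuous_const.mul (Complex.continuous_conj.comp (contE h (-n)))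
  have hxd := Pool.Agent.E8helper4.FV.xd_cont hr hφ
  have hXd : Continuous fun t => conj (xd φ t) := Complex.continuous_conj.comp hxd
  have intC : ∀ {N : ℤ → ℂ → ℂ}, Gs φ r N → ∀ n, ∫ t in (0 : ℝ)..(2 * Real.pi),
      Cj a (Ev a φ N) n t * conj (xd φ t) = 0 := by
    intro N h n
    have e1 := ev_int' hr hφ hinj hlam hS h (-n)
    have e2 : (fun t => Cj a (Ev a φ N) n t * conj (xd φ t)) = fun t =>
        (-(a : ℂ)) ^ (-n) * conj (Ev a φ N (-n) t * xd φ t) := by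
      funext t
      unfold Cj
      rw [map_mul]; ring
    rw [e2, intervalIntegral.integral_const_mul, ← Pool.Agent.E8helper13.FV.conj_int, e1,
      map_zero, mul_zero]
  have contj : ∀ (j : ℕ) (n : ℤ), Continuous ((Rf a φ)^[j] U n) := by
    intro j n
    rw [hiter]
    exact (contE (hgsj hN' j) n).add (continuous_const.mul (contC (hgsj hNu j) n))
  refine ⟨U, ?_, ?_, ?_, ?_, contj, ?_, ?_, ?_⟩
  · intro n t
    have h1 := (chnE hN' n t).add (cj_chn ha (chnE hNu) n t)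
    refine h1.congr_deriv ?_
    simp only [hU]; ring
  · intro t
    simp only [hU, Cj]
    rw [ev_sub hr hφ a hNu hK, ev_nk hr hφ, v0 t, neg_zero, v0 t, zpow_zero, map_add, map_one,
      star0 hr hφ ha t]
    ring
  · intro t
    simp only [hU, Cj]
    rw [ev_sub hr hφ a hNu hK, ev_nk hr hφ, v1 t, v2 t, star1 hr hφ ha t, zpow_neg, zpow_one]
    have ha2 : (a : ℂ) ≠ 0 := by exact_mod_cast ha.ne'
    field_simp
    ring
  · intro n
    exact contj 0 n
  · intro j n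
    rw [hiter]
    have c1 : Continuous fun t => Ev a φ ((Rt φ)^[j] N') n t * conj (xd φ t) :=
      (contE (hgsj hN' j) n).mul hXd
    have c2 : Continuous fun t => (-1 : ℂ) ^ j * (Cj a (Ev a φ ((Rt φ)^[j] Nu)) n t *
      conj (xd φ t)) := continuous_const.mul ((contC (hgsj hNu j) n).mul hXd)
    have e : (fun t => (Ev a φ ((Rt φ)^[j] N') n t +
      (-1) ^ j * Cj a (Ev a φ ((Rt φ)^[j] Nu)) n t) * conj (xd φ t)) = fun t =>
      Ev a φ ((Rt φ)^[j] N') n t * conj (xd φ t) + (-1 : ℂ) ^ j *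
      (Cj a (Ev a φ ((Rt φ)^[j] Nu)) n t * conj (xd φ t)) := by
      funext t; ring
    show ∫ t in (0 : ℝ)..(2 * Real.pi), (Ev a φ ((Rt φ)^[j] N') n t +
      (-1) ^ j * Cj a (Ev a φ ((Rt φ)^[j] Nu)) n t) * conj (xd φ t) = 0
    rw [e, intervalIntegral.integral_add (c1.intervalIntegrable _ _)
      (c2.intervalIntegrable _ _), intervalIntegral.integral_const_mul,
      ev_int hr hφ hinj hlam hS (hgsj hN' j) n, intC (hgsj hNu j) n]
    ring
  · intro j n t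
    rw [hiter]
    have h1 := (chnE (hgsj hN' j) n t).add ((cj_chn ha (chnE (hgsj hNu j)) n t).const_mul
      ((-1 : ℂ) ^ j))
    refine h1.congr_deriv ?_
    ring
  · intro j n
    rw [hiter]
    show _ + _ * Cj a _ n (2 * Real.pi) = _ + _ * Cj a _ n 0
    unfold Cj
    rw [ev_per, ev_per]

end Pool.Agent.Helper28.SC
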